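import Pool.Agent.Lib.MP_678664_lc_h37.Prob

/-! Bounded differences inequality on a finite product space. -/

set_option linter.unusedSectionVars false

namespace Pool.Agent.MP_678664_lc.TimeSpace.Pr

open Finset

variable {V κ : Type*} [Fintype V] [DecidableEq V] [Fintype κ] [Nonempty κ]

lemma exp_le_add_exp_sq (x : ℝ) : Real.exp x ≤ x + Real.exp (x ^ 2) := by
  rcases le_or_gt |x| 1 with h | h
  · have h1 := (abs_le.1 (Real.abs_exp_sub_one_sub_id_le h)).2
    have h2 := Real.add_one_le_exp (x ^ 2)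
    linarith
  · rcases lt_abs.1 h with h | h
    · have : Real.exp x ≤ Real.exp (x ^ 2) := Real.exp_le_exp.2 (by nlinarith)
      linarith
    · have h1 : Real.exp x ≤ 1 := Real.exp_le_one_iff.2 (by linarith)
      have h2 := Real.add_one_le_exp (x ^ 2)
      nlinarith

theorem mcd_exp (f : (V → κ) → ℝ) (S : Finset V) (c : V → ℝ) (hf : Dep f S)
    (hc : ∀ v ∈ S, ∀ φ ψ : V → κ, (∀ w, w ≠ v → φ w = ψ w) → |f φ - f ψ| ≤ c v) (l : ℝ) :
    E (fun φ => Real.exp (l * (f φ - E f))) ≤ Real.exp (l ^ 2 * ∑ v ∈ S, c v ^ 2) := by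
  classical
  induction S using Finset.induction_on generalizing f with
  | empty =>
    have hconst : ∀ φ, f φ = E f := by
      intro φ
      have : (fun ψ => f ψ) = fun _ => f φ := by
        funext ψ
        exact hf ψ φ (by simp)
      conv_rhs => rw [show f = fun _ => f φ from this]
      rw [E_const]
    simp only [sum_empty, mul_zero, Real.exp_zero]
    have : E (fun φ => Real.exp (l * (f φ - E f))) = E (fun _ : V → κ => (1 : ℝ)) := by
      apply E_congr
      intro φ
      rw [← hconst φ]; simp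
    rw [this, E_const]
  | insert v S hv ih =>
    set g : (V → κ) → ℝ := fun ψ => E (fun φ => f (mix {v} φ ψ)) with hg
    have hEg : E g = E f := E_mix {v} f
    have hgdep : Dep g S := by
      intro φ ψ h
      simp only [hg]
      apply E_congr
      intro θ
      apply hf
      intro w hw
      by_cases hwv : w ∈ ({v} : Finset V)
      · rw [mix_in hwv, mix_in hwv]
      · rw [mix_out hwv, mix_out hwv]
        apply h
        rcases mem_insert.1 hw with h1 | h1
        · exact absurd (mem_singleton.2 h1) hwv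
        · exact h1
    have hgdiff : ∀ u ∈ S, ∀ φ ψ : V → κ, (∀ w, w ≠ u → φ w = ψ w) → |g φ - g ψ| ≤ c u := by
      intro u hu φ ψ h
      simp only [hg]
      rw [← E_sub]
      have h1 : ∀ θ : V → κ, |f (mix {v} θ φ) - f (mix {v} θ ψ)| ≤ c u := by
        intro θ
        apply hc u (mem_insert_of_mem hu)
        intro w hw
        by_cases hwv : w ∈ ({v} : Finset V)
        · rw [mix_in hwv, mix_in hwv]
        · rw [mix_out hwv, mix_out hwv]
          exact h w hw
      rw [abs_le]
      constructor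
      · have := E_mono (V := V) (κ := κ) (f := fun _ => - c u)
          (g := fun θ => f (mix {v} θ φ) - f (mix {v} θ ψ)) (fun θ => (abs_le.1 (h1 θ)).1)
        rwa [E_const] at this
      · have := E_mono (V := V) (κ := κ) (g := fun _ => c u)
          (f := fun θ => f (mix {v} θ φ) - f (mix {v} θ ψ)) (fun θ => (abs_le.1 (h1 θ)).2)
        rwa [E_const] at this
    have hin : ∀ ψ, E (fun φ => Real.exp (l * (f (mix {v} φ ψ) - g ψ))) ≤
        Real.exp (l ^ 2 * c v ^ 2) := by
      intro ψ
      have hb : ∀ φ, |f (mix {v} φ ψ) - g ψ| ≤ c v := by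
        intro φ
        have h1 : ∀ θ : V → κ, |f (mix {v} φ ψ) - f (mix {v} θ ψ)| ≤ c v := by
          intro θ
          apply hc v (mem_insert_self _ _)
          intro w hw
          rw [mix_out (by simpa using hw), mix_out (by simpa using hw)]
        have h2 : f (mix {v} φ ψ) - g ψ = E (fun θ => f (mix {v} φ ψ) - f (mix {v} θ ψ)) := by
          rw [E_sub, E_const]
        rw [h2, abs_le]
        constructor
        · have := E_mono (V := V) (κ := κ) (f := fun _ => - c v)
            (g := fun θ => f (mix {v} φ ψ) - f (mix {v} θ ψ)) (fun θ => (abs_le.1 (h1 θ)).1)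
          rwa [E_const] at this
        · have := E_mono (V := V) (κ := κ) (g := fun _ => c v)
            (f := fun θ => f (mix {v} φ ψ) - f (mix {v} θ ψ)) (fun θ => (abs_le.1 (h1 θ)).2)
          rwa [E_const] at this
      have h1 : E (fun φ => Real.exp (l * (f (mix {v} φ ψ) - g ψ))) ≤
          E (fun φ => l * (f (mix {v} φ ψ) - g ψ) + Real.exp (l ^ 2 * c v ^ 2)) := by
        apply E_mono
        intro φ
        refine (exp_le_add_exp_sq _).trans ?_
        have h3 : (l * (f (mix {v} φ ψ) - g ψ)) ^ 2 ≤ l ^ 2 * c v ^ 2 := by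
          rw [mul_pow]
          apply mul_le_mul_of_nonneg_left _ (sq_nonneg l)
          rw [← sq_abs (f (mix {v} φ ψ) - g ψ)]
          exact pow_le_pow_left₀ (abs_nonneg _) (hb φ) 2
        have := Real.exp_le_exp.2 h3
        linarith
      refine h1.trans (le_of_eq ?_)
      rw [E_add (fun φ => l * (f (mix {v} φ ψ) - g ψ)), E_const, E_mul_left, E_sub, E_const]
      have : E (fun φ => f (mix {v} φ ψ)) = g ψ := rfl
      rw [this]; ring
    have h1 := E_mix {v} (fun φ => Real.exp (l * (f φ - E f)))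
    rw [← h1]
    have h2 : E (fun ψ => E (fun φ => Real.exp (l * (f (mix {v} φ ψ) - E f)))) ≤
        E (fun ψ => Real.exp (l ^ 2 * c v ^ 2) * Real.exp (l * (g ψ - E g))) := by
      apply E_mono
      intro ψ
      have h3 : ∀ φ, Real.exp (l * (f (mix {v} φ ψ) - E f)) =
          Real.exp (l * (g ψ - E g)) * Real.exp (l * (f (mix {v} φ ψ) - g ψ)) := by
        intro φ
        rw [← Real.exp_add, hEg]
        congr 1; ring
      rw [E_congr h3, E_mul_left, mul_comm]
      exact mul_le_mul_of_nonneg_right (hin ψ) (Real.exp_pos _).le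
    refine h2.trans ?_
    rw [E_mul_left, sum_insert hv, mul_add, Real.exp_add]
    exact mul_le_mul_of_nonneg_left (ih g hgdep hgdiff) (Real.exp_pos _).le

theorem mcd_tail (f : (V → κ) → ℝ) (S : Finset V) (c : V → ℝ) (hf : Dep f S)
    (hc : ∀ v ∈ S, ∀ φ ψ : V → κ, (∀ w, w ≠ v → φ w = ψ w) → |f φ - f ψ| ≤ c v)
    (C : ℝ) (hC : 0 < C) (hcC : ∑ v ∈ S, c v ^ 2 ≤ C) (s : ℝ) (hs : 0 ≤ s) :
    P (fun φ => s < |f φ - E f|) ≤ 2 * Real.exp (-(s ^ 2 / (4 * C))) := by
  have hl : 0 ≤ s / (2 * C) := by positivity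
  have e1 : Real.exp (-(s / (2 * C) * s)) * Real.exp ((s / (2 * C)) ^ 2 * C)
      = Real.exp (- (s ^ 2 / (4 * C))) := by
    rw [← Real.exp_add]
    congr 1
    field_simp
    ring
  have key : ∀ f : (V → κ) → ℝ, Dep f S → (∀ v ∈ S, ∀ φ ψ : V → κ, (∀ w, w ≠ v → φ w = ψ w) →
      |f φ - f ψ| ≤ c v) → P (fun φ => s < f φ - E f) ≤ Real.exp (- (s ^ 2 / (4 * C))) := by
    intro f hf hc
    refine (P_exp (fun φ => f φ - E f) (s / (2 * C)) s hl).trans ?_
    rw [← e1]
    refine mul_le_mul_of_nonneg_left ?_ (Real.exp_pos _).le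
    refine (mcd_exp f S c hf hc _).trans ?_
    apply Real.exp_le_exp.2
    exact mul_le_mul_of_nonneg_left hcC (sq_nonneg _)
  have h1 := key f hf hc
  have h2 := key (fun φ => - f φ) (by
      intro φ ψ h
      simp only
      rw [hf φ ψ h]) (by
      intro v hv φ ψ h
      have := hc v hv φ ψ h
      rw [← abs_neg]
      rw [show -(-f φ - -f ψ) = f φ - f ψ by ring]
      exact this)
  have h3 : P (fun ψ => s < |f ψ - E f|)
      ≤ P (fun ψ => (s < f ψ - E f) ∨ (s < - f ψ - E (fun φ => - f φ))) := by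
    refine P_mono (fun ψ h => ?_)
    rcases lt_abs.1 h with h | h
    · exact Or.inl h
    · right
      rw [E_neg]
      linarith
  have h4 := P_or (fun ψ : V → κ => s < f ψ - E f) (fun ψ => s < - f ψ - E (fun φ => - f φ))
  linarith

end Pool.Agent.MP_678664_lc.TimeSpace.Pr
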