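import Pool.Agent.Lib.MP_678664_lc_h37.Labels
import Pool.Agent.Lib.MP_678664_lc_h37.McD

/-!
# Concentration of the number of good tuples
-/

namespace Pool.Agent.MP_678664_lc.TimeSpace

open Finset Pr

variable {k : ℕ} {B : Type} [Fintype B] [DecidableEq B]

/-- half of the least probability that a tuple is good -/
noncomputable def cc (k : ℕ) : ℝ := 1 / 2 * (1 / (2 : ℝ) ^ k) ^ k

theorem cc_pos (k : ℕ) : 0 < cc k := by unfold cc; positivity

theorem cc_le (k : ℕ) : cc k ≤ 1 / 2 := by
  unfold cc
  have h1 : (1 / (2 : ℝ) ^ k) ≤ 1 := by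
    rw [div_le_one (by positivity)]
    exact one_le_pow₀ (by norm_num)
  have h2 : (1 / (2 : ℝ) ^ k) ^ k ≤ 1 := pow_le_one₀ (by positivity) h1
  linarith

theorem prob_point (y : Fin k → B) (a : Fin k → (Fin k → ZMod 2)) :
    P (fun r : Lab k B => ∀ j, r (j, y j) = a j) = (1 / (2 : ℝ) ^ k) ^ k := by
  classical
  have h1 : ∀ r : Lab k B, (if ∀ j, r (j, y j) = a j then (1 : ℝ) else 0) =
      ∏ j ∈ (univ : Finset (Fin k)), (if r (j, y j) = a j then (1 : ℝ) else 0) := by
    intro r
    by_cases h : ∀ j, r (j, y j) = a j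
    · rw [if_pos h, Finset.prod_eq_one]
      intro j _
      rw [if_pos (h j)]
    · rw [if_neg h]
      push Not at h
      obtain ⟨j, hj⟩ := h
      symm
      apply Finset.prod_eq_zero (mem_univ j)
      rw [if_neg hj]
  have h2 : P (fun r : Lab k B => ∀ j, r (j, y j) = a j) =
      E (fun r : Lab k B => ∏ j ∈ (univ : Finset (Fin k)),
        (if r (j, y j) = a j then (1 : ℝ) else 0)) := by
    unfold P
    apply E_congr
    intro r
    rw [← h1 r]
    congr 1
  rw [h2, E_prod (univ : Finset (Fin k)) (fun j => {(j, y j)})]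
  · have h3 : ∀ j ∈ (univ : Finset (Fin k)), E (fun r : Lab k B =>
        (if r (j, y j) = a j then (1 : ℝ) else 0)) = 1 / (2 : ℝ) ^ k := by
      intro j _
      rw [E_coord (V := Fin k × B) (j, y j) (fun b => if b = a j then (1 : ℝ) else 0)]
      rw [Finset.sum_ite_eq' univ (a j) (fun _ => (1 : ℝ)), if_pos (mem_univ _)]
      simp
    rw [Finset.prod_congr rfl h3, Finset.prod_const, card_univ, Fintype.card_fin]
  · intro b _ c _ hbc
    rw [disjoint_singleton]
    intro h
    exact hbc (congrArg Prod.fst h)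
  · intro b _ φ ψ h
    simp only
    rw [h (b, y b) (by simp)]

theorem conc (hk : 0 < k) {I : Finset (Fin k)} {κ : Fin k → Fin k}
    (G : Lab k B → (Fin k → B) → Prop)
    (hG : ∀ ω₁ ω₂ y, (∀ j i, ω₁ (j, y j) i = ω₂ (j, y j) i) → (G ω₁ y ↔ G ω₂ y))
    (ω : Lab k B) (W : Finset (Fin k → B))
    (hW : ∀ y ∈ W, ∃ a : Fin k → (Fin k → ZMod 2), ∀ r : Lab k B, (∀ j, r (j, y j) = a j) →
      G (ω + shift I κ r) y) (hWne : W.Nonempty)
    {M : ℝ} (hM0 : 0 < M)
    (hM : ∀ j ∉ I, ∀ v, ((W.filter fun y => y j = v).card : ℝ) ≤ M) (g : Lab k B → ℝ)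
    (hg : ∀ r, (∃ W' ⊆ W, (∀ y ∈ W, G (ω + shift I κ r) y → y ∈ W') ∧
      (W'.card : ℝ) ≤ g r)) :
    P (fun r : Lab k B => g r < cc k * W.card) ≤
      2 * Real.exp (-(cc k ^ 2 * W.card / (4 * (k * M)))) := by
  classical
  have hkR : (0 : ℝ) < k := by exact_mod_cast hk
  have hWpos : (0 : ℝ) < W.card := by exact_mod_cast card_pos.2 hWne
  set f : Lab k B → ℝ := fun r =>
    ∑ y ∈ W, if G (ω + shift I κ r) y then (1 : ℝ) else 0 with hf
  have hfg : ∀ r, f r ≤ g r := by
    intro r
    obtain ⟨W', hW', h1, h2⟩ := hg r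
    refine le_trans ?_ h2
    rw [hf]
    simp only [Finset.sum_boole]
    have : (W.filter fun y => G (ω + shift I κ r) y) ⊆ W' := by
      intro y hy
      rw [mem_filter] at hy
      exact h1 y hy.1 hy.2
    exact_mod_cast card_le_card this
  have hEf : 2 * cc k * W.card ≤ E f := by
    rw [hf, E_sum]
    have h1 : ∀ y ∈ W, 2 * cc k ≤
        E (fun r : Lab k B => if G (ω + shift I κ r) y then (1 : ℝ) else 0) := by
      intro y hy
      obtain ⟨a, ha⟩ := hW y hy
      have h2 := prob_point y a
      have h3 : 2 * cc k = (1 / (2 : ℝ) ^ k) ^ k := by unfold cc; ring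
      rw [h3, ← h2]
      unfold P
      apply E_mono
      intro r
      by_cases h : ∀ j, r (j, y j) = a j
      · rw [if_pos h, if_pos (ha r h)]
      · rw [if_neg h]
        split_ifs <;> norm_num
    calc 2 * cc k * W.card = ∑ _y ∈ W, 2 * cc k := by
          rw [Finset.sum_const, nsmul_eq_mul]; ring
      _ ≤ _ := Finset.sum_le_sum h1
  -- bounded differences
  set c : Fin k × B → ℝ := fun p => ((W.filter fun y => y p.1 = p.2).card : ℝ) with hc
  set S : Finset (Fin k × B) := univ.filter fun p => p.1 ∉ I with hS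
  have hgood : ∀ (r r' : Lab k B) (y : Fin k → B),
      (∀ j ∉ I, r (j, y j) = r' (j, y j)) →
      (G (ω + shift I κ r) y ↔ G (ω + shift I κ r') y) := by
    intro r r' y h
    have h1 : ∀ j i, (ω + shift I κ r) (j, y j) i = (ω + shift I κ r') (j, y j) i := by
      intro j i
      by_cases hj : j ∈ I
      · exact (shift_agree I κ ω r' r) j (y j) i (Or.inl hj)
      · simp only [Pi.add_apply, shift, h j hj]
    exact hG _ _ y h1
  have hdep : Dep f S := by
    intro r r' h
    simp only [hf]
    apply Finset.sum_congr rfl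
    intro y _
    have := hgood r r' y (fun j hj => h (j, y j) (by simp [hS, hj]))
    simp only [this]
  have hbd : ∀ p ∈ S, ∀ r r' : Lab k B, (∀ q, q ≠ p → r q = r' q) → |f r - f r'| ≤ c p := by
    intro p _ r r' h
    simp only [hf, hc]
    rw [← Finset.sum_sub_distrib]
    refine (Finset.abs_sum_le_sum_abs _ _).trans ?_
    rw [Finset.card_filter]
    push_cast
    apply Finset.sum_le_sum
    intro y _
    by_cases hy : y p.1 = p.2
    · rw [if_pos hy]
      split_ifs <;> norm_num
    · rw [if_neg hy]
      have := hgood r r' y (fun j _ => h (j, y j) (by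
        intro heq
        apply hy
        rw [← heq]))
      simp only [this]
      simp
  have hsum : ∑ p ∈ S, c p ^ 2 ≤ k * M * W.card := by
    calc ∑ p ∈ S, c p ^ 2 ≤ ∑ p ∈ S, M * c p := by
          apply Finset.sum_le_sum
          intro p hp
          have h1 : c p ≤ M := hM p.1 (mem_filter.1 hp).2 p.2
          have h2 : 0 ≤ c p := by simp only [hc]; positivity
          rw [sq]
          exact mul_le_mul_of_nonneg_right h1 h2
      _ ≤ ∑ p : Fin k × B, M * c p := by
          apply Finset.sum_le_sum_of_subset_of_nonneg (subset_univ _)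
          intro p _ _
          have h2 : 0 ≤ c p := by simp only [hc]; positivity
          positivity
      _ = M * ∑ j : Fin k, ∑ v : B, ((W.filter fun y => y j = v).card : ℝ) := by
          rw [← Finset.mul_sum, Fintype.sum_prod_type]
      _ = M * ∑ _j : Fin k, (W.card : ℝ) := by
          congr 1
          apply Finset.sum_congr rfl
          intro j _
          have := Finset.card_eq_sum_card_fiberwise (f := fun y : Fin k → B => y j) (s := W)
            (t := univ) (fun _ _ => by simp)
          rw [this]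
          push_cast
          rfl
      _ = k * M * W.card := by
          rw [Finset.sum_const, card_univ, Fintype.card_fin, nsmul_eq_mul]; ring
  have htail := mcd_tail f S c hdep hbd (k * M * W.card) (by positivity) hsum
    (cc k * W.card) (by have := cc_pos k; positivity)
  refine le_trans (P_mono ?_) (htail.trans (le_of_eq ?_))
  · intro r hr
    have h1 : f r < cc k * W.card := lt_of_le_of_lt (hfg r) hr
    rw [lt_abs]
    right
    linarith
  · congr 2
    rw [neg_inj]
    field_simp

end Pool.Agent.MP_678664_lc.TimeSpace
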