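import Mathlib

/-!
# MP_678664_lc: Extended Frege refutations of the k-clique formula in bounded space, definitions

The vertex set is `Fin k × (Fin N → Bool)`: there are `k` blocks, each with `2 ^ N` vertices.  The
(binary) clique formula of a graph `G` in which no edge lies inside a block has `k * N` variables
`N * i + b` (`i < k`, `b < N`), which are read as the choice of one vertex in each block, and for
any two non-adjacent vertices in different blocks the clause which says that not both are chosen.
It is satisfiable if and only if `G` has a clique with `k` vertices.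
-/

namespace Pool.Agent.MP_678664_lc.TimeSpace

/-- Propositional formulas built from variables `v : ℕ` with `¬` and `→`. -/
inductive Fml : Type
  | var (v : ℕ) : Fml
  | neg (A : Fml) : Fml
  | imp (A B : Fml) : Fml

namespace Fml

/-- The number of symbols (occurrences of variables and of connectives) of a formula. -/
def size : Fml → ℕ
  | var _ => 1
  | neg A => A.size + 1
  | imp A B => A.size + B.size + 1

/-- The truth value of a formula at the assignment `v`. -/
def eval (v : ℕ → Bool) : Fml → Bool
  | var i => v i
  | neg A => !(A.eval v)
  | imp A B => !(A.eval v) || B.eval v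

/-- The variables occurring in a formula. -/
def vars : Fml → Finset ℕ
  | var i => {i}
  | neg A => A.vars
  | imp A B => A.vars ∪ B.vars

/-- `A ↔ B`, as the abbreviation `¬ ((A → B) → ¬ (B → A))`. -/
def iff (A B : Fml) : Fml := neg (imp (imp A B) (neg (imp B A)))

end Fml

/-- The total number of symbols of a list of formulas. -/
def space (M : List Fml) : ℕ := (M.map Fml.size).sum

/-- The assignment `v` satisfies all formulas of the list `M`. -/
def Sat (v : ℕ → Bool) (M : List Fml) : Prop := ∀ A ∈ M, A.eval v = true

/-- The vertex of block `i` which is chosen by the assignment `v`: its bits are the values of the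
variables `N * i, …, N * i + N - 1`. -/
def choice (N : ℕ) (v : ℕ → Bool) (i : ℕ) : Fin N → Bool := fun b => v (N * i + b)

/-- The clause of the pair `e` of vertices: not both vertices of `e` are chosen by `v`. -/
def Holds {k N : ℕ} (v : ℕ → Bool)
    (e : (Fin k × (Fin N → Bool)) × (Fin k × (Fin N → Bool))) : Prop :=
  ¬ (choice N v e.1.1 = e.1.2 ∧ choice N v e.2.1 = e.2.2)

/-- The pairs of non-adjacent vertices in different blocks; they are the clauses of the clique
formula of `G`. -/
def NonEdge {k N : ℕ} (G : SimpleGraph (Fin k × (Fin N → Bool)))
    (e : (Fin k × (Fin N → Bool)) × (Fin k × (Fin N → Bool))) : Prop :=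
  e.1.1 ≠ e.2.1 ∧ ¬ G.Adj e.1 e.2

/-- Inference: every formula of the new memory `M'` is implied by the old memory `M` and at most
`s ^ 2` clauses of the clique formula of `G`. -/
def Infer {k N : ℕ} (G : SimpleGraph (Fin k × (Fin N → Bool))) (s : ℕ)
    (M M' : List Fml) : Prop :=
  ∃ S : Finset ((Fin k × (Fin N → Bool)) × (Fin k × (Fin N → Bool))), S.card ≤ s ^ 2 ∧
    (∀ e ∈ S, NonEdge G e) ∧ ∀ v, Sat v M → (∀ e ∈ S, Holds v e) → Sat v M'

/-- The extension rule: the formula `q ↔ D` may be written in memory, for any formula `D` and any
variable `q` which is not among the variables `0, …, m - 1` of the clique formula and does not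
occur in `D` or in the memory `M`. -/
def Extend (m : ℕ) (M M' : List Fml) : Prop :=
  ∃ (q : ℕ) (D : Fml), m ≤ q ∧ q ∉ D.vars ∧ (∀ A ∈ M, q ∉ A.vars) ∧
    ∀ A ∈ M', A ∈ M ∨ A = Fml.iff (Fml.var q) D

/-- `M 0, …, M L` is an Extended Frege refutation (with semantic inferences) of the clique formula
of `G` with `L` steps in space `s`: `M t` is the list of the formulas in memory at time `t`, these
formulas have together at most `s` symbols, the memory is empty at time `0` and contradictory at
time `L`, and each step is an inference or an application of the extension rule. -/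
structure IsRefutation {k N : ℕ} (G : SimpleGraph (Fin k × (Fin N → Bool))) (s L : ℕ)
    (M : ℕ → List Fml) : Prop where
  start : M 0 = []
  final : ∀ v, ¬ Sat v (M L)
  space_le : ∀ t ≤ L, space (M t) ≤ s
  step : ∀ t < L, Infer G s (M t) (M (t + 1)) ∨ Extend (k * N) (M t) (M (t + 1))

end Pool.Agent.MP_678664_lc.TimeSpace
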