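import Pool.Agent.Lib.MP_678664_lc_h37.Union

/-!
# Bisection of the time, with a restoration of the density in every step
-/

namespace Pool.Agent.MP_678664_lc.TimeSpace

open Finset

variable {k : ℕ} {B : Type} [Fintype B] [DecidableEq B]

omit [DecidableEq B] in
/-- a set which is constant on `K` is small -/
theorem card_le_of_const {A : Finset (Fin k → B)} {K : Finset (Fin k)}
    (h : ∀ x ∈ A, ∀ y ∈ A, ∀ i ∈ K, x i = y i) : A.card ≤ Fintype.card B ^ (k - K.card) := by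
  classical
  have h1 : A.card ≤ Fintype.card ({i // i ∉ K} → B) := by
    rw [← card_univ]
    refine Finset.card_le_card_of_injOn (fun x i => x i.1) (fun _ _ => mem_coe.2 (mem_univ _)) ?_
    intro x hx y hy hxy
    funext i
    by_cases hi : i ∈ K
    · exact h x hx y hy i hi
    · exact congrFun hxy ⟨i, hi⟩
  refine h1.trans (le_of_eq ?_)
  rw [Fintype.card_fun]
  congr 1
  rw [Fintype.card_subtype_compl, Fintype.card_fin, Fintype.card_coe]

/-- the union of all classes is what is not in `rest` -/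
theorem sdiff_rest_subset (θ : ℝ) (I : Finset (Fin k)) (A : Finset (Fin k → B)) :
    A \ rest A (fam θ I A) ⊆ (univ : Finset (Finset (Fin k))).biUnion fun J => cls θ I A J := by
  classical
  intro x hx
  rw [mem_sdiff, rest, mem_sdiff] at hx
  have h1 : x ∈ (fam θ I A).biUnion Prod.snd := by
    by_contra h
    exact hx.2 ⟨hx.1, h⟩
  rw [mem_biUnion] at h1
  obtain ⟨p, hp, hxp⟩ := h1
  rw [mem_biUnion]
  refine ⟨p.1, mem_univ _, ?_⟩
  rw [cls, mem_biUnion]
  exact ⟨p, mem_filter.2 ⟨hp, rfl⟩, hxp⟩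

/-- if `rest` is not almost everything then some class is large -/
theorem exists_cls {θ : ℝ} {I : Finset (Fin k)} {A : Finset (Fin k → B)} {δ : ℝ}
    (hrest : ((rest A (fam θ I A)).card : ℝ) ≤ (1 - δ) * A.card) :
    ∃ J, δ * A.card ≤ 2 ^ k * (cls θ I A J).card := by
  classical
  by_contra hcon
  push Not at hcon
  have h1 : ((A \ rest A (fam θ I A)).card : ℝ) ≤
      ∑ J : Finset (Fin k), ((cls θ I A J).card : ℝ) := by
    have h2 := (card_le_card (sdiff_rest_subset θ I A)).trans card_biUnion_le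
    exact_mod_cast h2
  have h2 : ((A \ rest A (fam θ I A)).card : ℝ) = A.card - (rest A (fam θ I A)).card := by
    have hs : rest A (fam θ I A) ⊆ A := sdiff_subset
    have := card_sdiff_add_card_eq_card hs
    have h3 : ((A \ rest A (fam θ I A)).card : ℝ) + (rest A (fam θ I A)).card = A.card := by
      exact_mod_cast this
    linarith
  have h3 : ∑ J : Finset (Fin k), ((2 : ℝ) ^ k * ((cls θ I A J).card : ℝ)) <
      ∑ _J : Finset (Fin k), δ * A.card :=
    Finset.sum_lt_sum_of_nonempty ⟨∅, mem_univ _⟩ fun J _ => hcon J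
  rw [← Finset.mul_sum, Finset.sum_const, card_univ, Fintype.card_finset, Fintype.card_fin,
    nsmul_eq_mul] at h3
  push_cast at h3
  have h4 : (0 : ℝ) < 2 ^ k := by positivity
  have h5 := lt_of_mul_lt_mul_left h3 h4.le
  linarith

omit [Fintype B] in
/-- one of the two sides is large -/
theorem exists_side (P Q : Finset (Fin k → B)) :
    ∃ b : Bool, (P.card : ℝ) ≤ 2 * (side P (Q, b)).card := by
  classical
  have h := card_inter_add_card_sdiff P Q
  have h1 : ((P ∩ Q).card : ℝ) + (P \ Q).card = P.card := by exact_mod_cast h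
  rcases le_total (P \ Q).card (P ∩ Q).card with h2 | h2
  · refine ⟨true, ?_⟩
    have h3 : ((P \ Q).card : ℝ) ≤ (P ∩ Q).card := by exact_mod_cast h2
    simp only [side, if_true]
    linarith
  · refine ⟨false, ?_⟩
    have h3 : ((P ∩ Q).card : ℝ) ≤ (P \ Q).card := by exact_mod_cast h2
    simp only [side, Bool.false_eq_true, if_false]
    linarith

/-- the new state when the part of `x` is selected -/
theorem nxt_some {θ : ℝ} (hθ : 0 < θ) (ω : Lab k B) (s : State k B)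
    (d : Finset (Fin k → B) × Bool) {p : Finset (Fin k) × Finset (Fin k → B)}
    (hp : p ∈ fam θ s.1 (side s.2 d)) {x : Fin k → B} (hx : x ∈ p.2)
    [DecidablePred (GoodAt ω (s.1 ∪ p.1))] :
    nxt θ ω s (d, some x) = (s.1 ∪ p.1, p.2.filter (GoodAt ω (s.1 ∪ p.1))) := by
  classical
  have hex : ∃ q ∈ fam θ s.1 (side s.2 d), x ∈ q.2 := ⟨p, hp, hx⟩
  have heq : hex.choose = p := by
    by_contra hne
    have h1 := hex.choose_spec
    have := (isFam_fam hθ s.1 (side s.2 d)).disj _ h1.1 _ hp hne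
    exact disjoint_left.1 this h1.2 hx
  unfold nxt
  simp only
  rw [dif_pos hex, heq]
  congr 1
  apply Finset.filter_congr_decidable

theorem pow_w_ge {K₀ ℓ t : ℕ} (hK₀ : 1 ≤ K₀) (hℓ : ℓ ≤ K₀) (ht : t ≤ ℓ) :
    (1 / 2 : ℝ) ^ t * (1 / 2) ≤ ((1 / 2) * (1 - 1 / (2 * K₀))) ^ t := by
  have hKR : (1 : ℝ) ≤ K₀ := by exact_mod_cast hK₀
  have hδ : (1 : ℝ) / (2 * K₀) ≤ 1 / 2 := by
    apply one_div_le_one_div_of_le (by norm_num)
    linarith
  have hpow1 : (1 : ℝ) / 2 ≤ (1 - 1 / (2 * K₀)) ^ t := by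
    have h1 : (1 : ℝ) + t * (-(1 / (2 * K₀))) ≤ (1 + -(1 / (2 * K₀))) ^ t :=
      one_add_mul_le_pow (by linarith) t
    have h2 : (t : ℝ) * (1 / (2 * K₀)) ≤ 1 / 2 := by
      have h3 : (t : ℝ) ≤ K₀ := by exact_mod_cast ht.trans hℓ
      rw [mul_one_div, div_le_div_iff₀ (by positivity) (by norm_num)]
      linarith
    rw [← sub_eq_add_neg] at h1
    linarith
  rw [mul_pow]
  exact mul_le_mul_of_nonneg_left hpow1 (by positivity)

omit [DecidableEq B] in
/-- the size argument: not all blocks can be fixed -/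
theorem fixed_lt {θ : ℝ} (hθ : 0 < θ) {K₀ ℓ t : ℕ} (hK₀ : 1 ≤ K₀)
    (hℓ : ℓ ≤ K₀) (ht : t ≤ ℓ)
    (hbig : 8 * (2 : ℝ) ^ ℓ < (cc k / 2 * θ * Fintype.card B) ^ k)
    {I J : Finset (Fin k)} (hIJ : Disjoint J I) {P A Q : Finset (Fin k → B)}
    (hP : (cc k / 2 * θ) ^ I.card * (Fintype.card B : ℝ) ^ k *
      ((1 / 2) * (1 - 1 / (2 * K₀))) ^ t ≤ P.card)
    (hPA : (P.card : ℝ) ≤ 2 * A.card) (hAQ : θ ^ J.card * A.card ≤ 2 * Q.card)
    (hQ : ∀ x ∈ Q, ∀ y ∈ Q, ∀ i ∈ I ∪ J, x i = y i) : (I ∪ J).card < k := by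
  by_contra hcon
  have hcc := cc_pos k
  have hcc1 := cc_le k
  set c : ℝ := cc k / 2 * θ with hc
  have hcpos : 0 < c := by positivity
  set n : ℝ := (Fintype.card B : ℝ) with hn
  have hmk : (I ∪ J).card = k := by
    have := card_le_card (subset_univ (I ∪ J))
    rw [card_univ, Fintype.card_fin] at this
    omega
  have hmcard : k = I.card + J.card := by
    have := card_union_of_disjoint hIJ.symm
    omega
  have hQle : (Q.card : ℝ) ≤ 1 := by
    have := card_le_of_const hQ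
    rw [hmk, Nat.sub_self, pow_zero] at this
    exact_mod_cast this
  have hpow2 : (1 / 2 : ℝ) ^ ℓ ≤ (1 / 2) ^ t :=
    pow_le_pow_of_le_one (by norm_num) (by norm_num) ht
  have hpow : (1 / 2 : ℝ) ^ ℓ * (1 / 2) ≤ ((1 / 2) * (1 - 1 / (2 * K₀))) ^ t :=
    (mul_le_mul_of_nonneg_right hpow2 (by norm_num)).trans (pow_w_ge hK₀ hℓ ht)
  have hJ : c ^ J.card ≤ θ ^ J.card := by
    apply pow_le_pow_left₀ hcpos.le
    rw [hc]
    have : cc k / 2 ≤ 1 := by linarith
    nlinarith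
  have h1 : (c * n) ^ k * ((1 / 2 : ℝ) ^ ℓ * (1 / 2)) ≤ 4 := by
    calc (c * n) ^ k * ((1 / 2 : ℝ) ^ ℓ * (1 / 2))
        = c ^ J.card * (c ^ I.card * n ^ k * ((1 / 2 : ℝ) ^ ℓ * (1 / 2))) := by
          have h0 : c ^ k = c ^ I.card * c ^ J.card := by rw [← pow_add, ← hmcard]
          rw [mul_pow, h0]; ring
      _ ≤ θ ^ J.card * (P.card : ℝ) := by
          apply mul_le_mul hJ _ (by positivity) (by positivity)
          refine le_trans ?_ hP
          exact mul_le_mul_of_nonneg_left hpow (by positivity)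
      _ ≤ θ ^ J.card * (2 * A.card) := mul_le_mul_of_nonneg_left hPA (by positivity)
      _ = 2 * (θ ^ J.card * A.card) := by ring
      _ ≤ 2 * (2 * Q.card) := mul_le_mul_of_nonneg_left hAQ (by norm_num)
      _ ≤ 4 := by linarith
  have h5 : (c * n) ^ k ≤ 8 * 2 ^ ℓ := by
    have h6 : (1 / 2 : ℝ) ^ ℓ * 2 ^ ℓ = 1 := by rw [← mul_pow]; norm_num
    calc (c * n) ^ k = ((c * n) ^ k * ((1 / 2 : ℝ) ^ ℓ * (1 / 2))) * (2 * 2 ^ ℓ) := by
          have : ((c * n) ^ k * ((1 / 2 : ℝ) ^ ℓ * (1 / 2))) * (2 * 2 ^ ℓ) =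
            (c * n) ^ k * ((1 / 2 : ℝ) ^ ℓ * 2 ^ ℓ) := by ring
          rw [this, h6, mul_one]
      _ ≤ 4 * (2 * 2 ^ ℓ) := mul_le_mul_of_nonneg_right h1 (by positivity)
      _ = _ := by ring
  linarith

/-- the number of tuples of a class with two given vertices, one of them in the last block -/
theorem kill_count {θ : ℝ} (hθ : 0 < θ) {I J : Finset (Fin k)} (hIJ : (I ∪ J).card + 1 = k)
    {P A : Finset (Fin k → B)} (hAP : A ⊆ P) (hApos : (0 : ℝ) < A.card)
    (hconst : ∀ x ∈ P, ∀ y ∈ P, ∀ i ∈ I, x i = y i)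
    (hdense : Dense θ (1 / cc k) I P) (hPA : (P.card : ℝ) ≤ 2 * A.card)
    {a i₀ : Fin k} (ha : a ∈ J) (haI : a ∉ I) (hi₀ : i₀ ∉ I ∪ J) (u v : B) :
    ((((cls θ I A J).filter fun y => y a = u ∧ y i₀ = v).card : ℕ) : ℝ) *
      (cc k * θ ^ (J.card - 1)) ≤ 4 := by
  classical
  have hcc := cc_pos k
  have hfam := isFam_fam hθ I A
  set Fu := (fam θ I A).filter fun p => p.1 = J ∧ ∃ y ∈ p.2, y a = u with hFu
  -- other blocks
  have hother : ∀ i, i ∉ I ∪ J → i = i₀ := by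
    intro i hi
    by_contra hne
    have h1 : insert i (insert i₀ (I ∪ J)) ⊆ (univ : Finset (Fin k)) := subset_univ _
    have h2 := card_le_card h1
    rw [card_insert_of_notMem (by simp only [mem_insert, not_or]; exact ⟨hne, hi⟩),
      card_insert_of_notMem hi₀, card_univ, Fintype.card_fin] at h2
    omega
  have h1 : ((cls θ I A J).filter fun y => y a = u ∧ y i₀ = v).card ≤ Fu.card := by
    have hsub : ((cls θ I A J).filter fun y => y a = u ∧ y i₀ = v) ⊆
        Fu.biUnion fun p => p.2.filter fun y => y i₀ = v := by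
      intro y hy
      rw [mem_filter, cls, mem_biUnion] at hy
      obtain ⟨⟨p, hp, hyp⟩, hya, hyi⟩ := hy
      rw [mem_filter] at hp
      rw [mem_biUnion]
      refine ⟨p, mem_filter.2 ⟨hp.1, hp.2, y, hyp, hya⟩, mem_filter.2 ⟨hyp, hyi⟩⟩
    refine (card_le_card hsub).trans (card_biUnion_le.trans ?_)
    calc ∑ p ∈ Fu, (p.2.filter fun y => y i₀ = v).card ≤ ∑ _p ∈ Fu, 1 := by
          apply Finset.sum_le_sum
          intro p hp
          rw [hFu, mem_filter] at hp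
          have hpart := hfam.part p hp.1
          rw [card_le_one]
          intro y hy y' hy'
          rw [mem_filter] at hy hy'
          funext i
          by_cases hiI : i ∈ I
          · exact hconst y (hAP (hpart.sub hy.1)) y' (hAP (hpart.sub hy'.1)) i hiI
          by_cases hiJ : i ∈ J
          · exact hpart.const y hy.1 y' hy'.1 i (by rw [hp.2.1]; exact hiJ)
          · rw [hother i (fun h => (mem_union.1 h).elim hiI hiJ), hy.2, hy'.2]
      _ = Fu.card := by rw [Finset.sum_const, smul_eq_mul, mul_one]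
  have h2 : (Fu.card : ℝ) * (θ ^ J.card * A.card) ≤ 2 * (cyl P {a} (fun _ => u)).card := by
    have hd : ∀ p ∈ Fu, ∀ q ∈ Fu, p ≠ q → Disjoint p.2 q.2 := by
      intro p hp q hq hpq
      rw [hFu, mem_filter] at hp hq
      exact hfam.disj p hp.1 q hq.1 hpq
    have hsub : Fu.biUnion Prod.snd ⊆ cyl P {a} (fun _ => u) := by
      intro y hy
      rw [mem_biUnion] at hy
      obtain ⟨p, hp, hyp⟩ := hy
      rw [hFu, mem_filter] at hp
      obtain ⟨hp1, hp2, y', hy', hya⟩ := hp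
      have hpart := hfam.part p hp1
      rw [mem_cyl]
      refine ⟨hAP (hpart.sub hyp), ?_⟩
      intro j hj
      rw [mem_singleton] at hj
      rw [hj, hpart.const y hyp y' hy' a (by rw [hp2]; exact ha), hya]
    calc (Fu.card : ℝ) * (θ ^ J.card * A.card) = ∑ _p ∈ Fu, (θ ^ J.card * (A.card : ℝ)) := by
          rw [Finset.sum_const, nsmul_eq_mul]
      _ ≤ ∑ p ∈ Fu, 2 * (p.2.card : ℝ) := by
          apply Finset.sum_le_sum
          intro p hp
          rw [hFu, mem_filter] at hp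
          have := (hfam.part p hp.1).large
          rw [hp.2.1] at this
          exact this
      _ = 2 * ((Fu.biUnion Prod.snd).card : ℝ) := by
          rw [← Finset.mul_sum, card_biUnion hd]
          push_cast
          rfl
      _ ≤ 2 * (cyl P {a} (fun _ => u)).card := by
          apply mul_le_mul_of_nonneg_left _ (by norm_num)
          exact Nat.cast_le.2 (card_le_card hsub)
  have h3 := hdense {a} (by simpa using haI) (fun _ => u)
  rw [card_singleton, pow_one] at h3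
  have hJ1 : θ ^ J.card = θ ^ (J.card - 1) * θ := by
    rw [← pow_succ]; congr 1
    have : 0 < J.card := card_pos.2 ⟨a, ha⟩
    omega
  have h4 : (Fu.card : ℝ) * (θ ^ (J.card - 1) * θ * A.card) ≤ 4 * (1 / cc k) * (θ * A.card) := by
    rw [← hJ1]
    calc _ ≤ 2 * ((cyl P {a} (fun _ => u)).card : ℝ) := h2
      _ ≤ 2 * (1 / cc k * θ * P.card) := mul_le_mul_of_nonneg_left h3 (by norm_num)
      _ ≤ 2 * (1 / cc k * θ * (2 * A.card)) := by
          apply mul_le_mul_of_nonneg_left _ (by norm_num)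
          exact mul_le_mul_of_nonneg_left hPA (by positivity)
      _ = _ := by ring
  have h5 : (Fu.card : ℝ) * θ ^ (J.card - 1) ≤ 4 * (1 / cc k) := by
    have h6 : 0 < θ * (A.card : ℝ) := mul_pos hθ hApos
    have h7 : ((Fu.card : ℝ) * θ ^ (J.card - 1)) * (θ * A.card) ≤
        (4 * (1 / cc k)) * (θ * A.card) := by
      calc _ = (Fu.card : ℝ) * (θ ^ (J.card - 1) * θ * A.card) := by ring
        _ ≤ _ := h4
    exact le_of_mul_le_mul_right h7 h6
  calc ((((cls θ I A J).filter fun y => y a = u ∧ y i₀ = v).card : ℕ) : ℝ) *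
      (cc k * θ ^ (J.card - 1)) ≤ (Fu.card : ℝ) * (cc k * θ ^ (J.card - 1)) := by
        apply mul_le_mul_of_nonneg_right _ (by positivity)
        exact_mod_cast h1
    _ = cc k * ((Fu.card : ℝ) * θ ^ (J.card - 1)) := by ring
    _ ≤ cc k * (4 * (1 / cc k)) := mul_le_mul_of_nonneg_left h5 hcc.le
    _ = 4 := by field_simp

/-- when `k - 1` blocks are fixed by the parts, many non-edges are needed -/
theorem final_count {θ lam : ℝ} (hθ : 0 < θ) (hlam : 0 ≤ lam) {ω : Lab k B}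
    {I J : Finset (Fin k)} (hIJ : (I ∪ J).card + 1 = k)
    {P A : Finset (Fin k → B)} (hAP : A ⊆ P) (hApos : (0 : ℝ) < A.card)
    (hconst : ∀ x ∈ P, ∀ y ∈ P, ∀ i ∈ I, x i = y i) (hgood : ∀ x ∈ P, GoodAt ω I x)
    (hdense : Dense θ (1 / cc k) I P) (hPA : (P.card : ℝ) ≤ 2 * A.card)
    (hlarge : (A.card : ℝ) ≤ lam * (cls θ I A J).card)
    [DecidablePred (GoodOn ω (I ∪ J) (I ∪ J))]
    (hmany : cc k * (cls θ I A J).card ≤
      (((cls θ I A J).filter (GoodOn ω (I ∪ J) (I ∪ J))).card : ℝ))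
    (S : Finset ((Fin k × B) × (Fin k × B)))
    (hne : ∀ e ∈ S, e.1.1 ≠ e.2.1 ∧ ω e.1 e.2.1 ≠ ω e.2 e.1.1)
    (hcov : ∀ x ∈ A, ∃ e ∈ S, x e.1.1 = e.1.2 ∧ x e.2.1 = e.2.2) :
    cc k ^ 2 * θ ^ (J.card - 1) * A.card ≤ 4 * lam * S.card := by
  classical
  have hcc := cc_pos k
  have hclsA : cls θ I A J ⊆ A := cls_subset hθ I A J
  set W := (cls θ I A J).filter (GoodOn ω (I ∪ J) (I ∪ J)) with hW
  have hsub : W ⊆ S.biUnion fun e => W.filter fun x => x e.1.1 = e.1.2 ∧ x e.2.1 = e.2.2 := by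
    intro x hx
    obtain ⟨e, he, h⟩ := hcov x (hclsA (mem_filter.1 hx).1)
    exact mem_biUnion.2 ⟨e, he, mem_filter.2 ⟨hx, h⟩⟩
  have hone : ∀ e ∈ S, (((W.filter fun x => x e.1.1 = e.1.2 ∧ x e.2.1 = e.2.2).card : ℕ) : ℝ) *
      (cc k * θ ^ (J.card - 1)) ≤ 4 := by
    intro e he
    obtain ⟨h1, h2⟩ := hne e he
    have hnone : (∀ x ∈ W, ¬ (x e.1.1 = e.1.2 ∧ x e.2.1 = e.2.2)) →
        (((W.filter fun x => x e.1.1 = e.1.2 ∧ x e.2.1 = e.2.2).card : ℕ) : ℝ) *
          (cc k * θ ^ (J.card - 1)) ≤ 4 := by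
      intro h
      rw [Finset.filter_false_of_mem h, card_empty, Nat.cast_zero, zero_mul]
      norm_num
    have hpair : ∀ x : Fin k → B, x e.1.1 = e.1.2 → x e.2.1 = e.2.2 →
        e.1 = (e.1.1, x e.1.1) ∧ e.2 = (e.2.1, x e.2.1) := by
      intro x h3 h4
      exact ⟨by rw [h3], by rw [h4]⟩
    by_cases hI : e.1.1 ∈ I ∨ e.2.1 ∈ I
    · apply hnone
      rintro x hx ⟨h3, h4⟩
      apply h2
      obtain ⟨e1, e2⟩ := hpair x h3 h4
      have hg := hgood x (hAP (hclsA (mem_filter.1 hx).1))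
      rcases hI with hI | hI
      · have := hg e.1.1 hI e.2.1 (Ne.symm h1)
        rw [← e1, ← e2] at this
        exact this
      · have := hg e.2.1 hI e.1.1 h1
        rw [← e1, ← e2] at this
        exact this.symm
    push Not at hI
    by_cases hJ : e.1.1 ∈ J ∧ e.2.1 ∈ J
    · apply hnone
      rintro x hx ⟨h3, h4⟩
      apply h2
      obtain ⟨e1, e2⟩ := hpair x h3 h4
      have hg := (mem_filter.1 hx).2 e.1.1 (mem_union_right _ hJ.1) e.2.1
        (mem_union_right _ hJ.2) (Ne.symm h1)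
      rw [← e1, ← e2] at hg
      exact hg
    have hmono : ∀ (a i : Fin k) (u v : B), (∀ x : Fin k → B,
        (x e.1.1 = e.1.2 ∧ x e.2.1 = e.2.2) → (x a = u ∧ x i = v)) → a ∈ J → a ∉ I →
        i ∉ I ∪ J → (((W.filter fun x => x e.1.1 = e.1.2 ∧ x e.2.1 = e.2.2).card : ℕ) : ℝ) *
          (cc k * θ ^ (J.card - 1)) ≤ 4 := by
      intro a i u v himp haJ haI hi
      refine le_trans ?_ (kill_count hθ hIJ hAP hApos hconst hdense hPA haJ haI hi u v)
      apply mul_le_mul_of_nonneg_right _ (by positivity)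
      refine Nat.cast_le.2 (card_le_card ?_)
      intro x hx
      rw [mem_filter] at hx
      rw [mem_filter]
      exact ⟨(mem_filter.1 hx.1).1, himp x hx.2⟩
    by_cases hJ1 : e.1.1 ∈ J
    · have hJ2 : e.2.1 ∉ J := fun h => hJ ⟨hJ1, h⟩
      exact hmono e.1.1 e.2.1 e.1.2 e.2.2 (fun x h => h) hJ1 hI.1
        (fun h => (mem_union.1 h).elim hI.2 hJ2)
    by_cases hJ2 : e.2.1 ∈ J
    · exact hmono e.2.1 e.1.1 e.2.2 e.1.2 (fun x h => h.symm) hJ2 hI.2
        (fun h => (mem_union.1 h).elim hI.1 hJ1)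
    -- both are outside `I ∪ J`: impossible
    exfalso
    have hsub2 : insert e.1.1 (insert e.2.1 (I ∪ J)) ⊆ (univ : Finset (Fin k)) := subset_univ _
    have h3 := card_le_card hsub2
    rw [card_insert_of_notMem (by simp only [mem_insert, mem_union, not_or]; exact ⟨h1, hI.1, hJ1⟩),
      card_insert_of_notMem (by simp only [mem_union, not_or]; exact ⟨hI.2, hJ2⟩),
      card_univ, Fintype.card_fin] at h3
    omega
  have hD : 0 < cc k * θ ^ (J.card - 1) := by positivity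
  have h1 : (W.card : ℝ) * (cc k * θ ^ (J.card - 1)) ≤ 4 * S.card := by
    calc (W.card : ℝ) * (cc k * θ ^ (J.card - 1)) ≤
        (∑ e ∈ S, (((W.filter fun x => x e.1.1 = e.1.2 ∧ x e.2.1 = e.2.2).card : ℕ) : ℝ)) *
          (cc k * θ ^ (J.card - 1)) := by
          apply mul_le_mul_of_nonneg_right _ hD.le
          have := (card_le_card hsub).trans card_biUnion_le
          exact_mod_cast this
      _ = ∑ e ∈ S, (((W.filter fun x => x e.1.1 = e.1.2 ∧ x e.2.1 = e.2.2).card : ℕ) : ℝ) *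
          (cc k * θ ^ (J.card - 1)) := Finset.sum_mul _ _ _
      _ ≤ ∑ _e ∈ S, (4 : ℝ) := Finset.sum_le_sum hone
      _ = 4 * S.card := by rw [Finset.sum_const, nsmul_eq_mul]; ring
  calc cc k ^ 2 * θ ^ (J.card - 1) * A.card ≤
      cc k ^ 2 * θ ^ (J.card - 1) * (lam * (cls θ I A J).card) :=
        mul_le_mul_of_nonneg_left hlarge (by positivity)
    _ = lam * ((cc k * (cls θ I A J).card) * (cc k * θ ^ (J.card - 1))) := by ring
    _ ≤ lam * (W.card * (cc k * θ ^ (J.card - 1))) := by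
        apply mul_le_mul_of_nonneg_left _ hlam
        exact mul_le_mul_of_nonneg_right hmany hD.le
    _ ≤ lam * (4 * S.card) := mul_le_mul_of_nonneg_left h1 hlam
    _ = _ := by ring

/-- some part of the class has many good tuples -/
theorem exists_part {θ : ℝ} (hθ : 0 < θ) (ω : Lab k B) {I J : Finset (Fin k)}
    {A : Finset (Fin k → B)} (hne : (cls θ I A J).Nonempty)
    (hfew : ¬ Few (I ∪ J) univ (cls θ I A J) ω) [DecidablePred (GoodAt ω (I ∪ J))] :
    ∃ p ∈ fam θ I A, p.1 = J ∧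
      cc k * p.2.card ≤ ((p.2.filter (GoodAt ω (I ∪ J))).card : ℝ) := by
  classical
  have hfam := isFam_fam hθ I A
  obtain ⟨y, hy⟩ := hne
  have hy' := hy
  rw [cls, mem_biUnion] at hy'
  obtain ⟨p₀, hp₀, -⟩ := hy'
  by_contra hcon
  push Not at hcon
  apply hfew
  refine ⟨(cls θ I A J).filter (GoodAt ω (I ∪ J)),
    fun y hy hg => mem_filter.2 ⟨hy, goodOn_univ.1 hg⟩, ?_⟩
  have hd : ∀ p ∈ (fam θ I A).filter (fun p => p.1 = J),
      ∀ q ∈ (fam θ I A).filter (fun p => p.1 = J), p ≠ q → Disjoint p.2 q.2 := by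
    intro p hp q hq hpq
    exact hfam.disj p (mem_filter.1 hp).1 q (mem_filter.1 hq).1 hpq
  have h1 : ((cls θ I A J).card : ℝ) =
      ∑ p ∈ (fam θ I A).filter (fun p => p.1 = J), (p.2.card : ℝ) := by
    rw [cls, card_biUnion hd]
    push_cast
    rfl
  have h2 : (((cls θ I A J).filter (GoodAt ω (I ∪ J))).card : ℝ) ≤
      ∑ p ∈ (fam θ I A).filter (fun p => p.1 = J),
        ((p.2.filter (GoodAt ω (I ∪ J))).card : ℝ) := by
    rw [cls, filter_biUnion]
    exact_mod_cast card_biUnion_le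
  rw [h1, Finset.mul_sum]
  refine lt_of_le_of_lt h2 (Finset.sum_lt_sum_of_nonempty ⟨p₀, hp₀⟩ ?_)
  intro p hp
  rw [mem_filter] at hp
  exact hcon p hp.1 hp.2

theorem num_none {c x w P A r : ℝ} {i t : ℕ} (w0 : 0 ≤ w)
    (hP : c ^ i * x * w ^ t ≤ P) (hPA : P ≤ 2 * A) (hr : 2 * w * A ≤ r) :
    c ^ i * x * w ^ (t + 1) ≤ r := by
  have h1 : c ^ i * x * w ^ (t + 1) = (c ^ i * x * w ^ t) * w := by ring
  rw [h1]
  nlinarith [mul_le_mul_of_nonneg_right hP w0, mul_le_mul_of_nonneg_right hPA w0]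

theorem num_some {c θ x w P A q g : ℝ} {i j t : ℕ} (hc0 : 0 < c) (hc1 : c ≤ 1) (hθ : 0 < θ)
    (hj : 1 ≤ j) (w0 : 0 ≤ w) (w1 : w ≤ 1 / 2) (hP0 : 0 ≤ P)
    (hP : (c * θ) ^ i * x * w ^ t ≤ P) (hPA : P ≤ 2 * A)
    (hAq : θ ^ j * A ≤ 2 * q) (hg : 2 * c * q ≤ g) :
    (c * θ) ^ (i + j) * x * w ^ (t + 1) ≤ g := by
  have hA0 : 0 ≤ A := by linarith
  have h1 : (c * θ) ^ (i + j) * x * w ^ (t + 1) =
      (c * θ) ^ j * (((c * θ) ^ i * x * w ^ t) * w) := by ring
  have h2 : ((c * θ) ^ i * x * w ^ t) * w ≤ A := by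
    have h3 := mul_le_mul_of_nonneg_right hP w0
    have h4 : P * w ≤ P * (1 / 2) := mul_le_mul_of_nonneg_left w1 hP0
    linarith
  have h3 : (c * θ) ^ j ≤ c * θ ^ j := by
    rw [mul_pow]
    apply mul_le_mul_of_nonneg_right _ (by positivity)
    calc c ^ j ≤ c ^ 1 := pow_le_pow_of_le_one hc0.le hc1 hj
      _ = c := pow_one _
  have h4 : (0 : ℝ) ≤ (c * θ) ^ j := by positivity
  rw [h1]
  calc (c * θ) ^ j * (((c * θ) ^ i * x * w ^ t) * w) ≤ (c * θ) ^ j * A :=
        mul_le_mul_of_nonneg_left h2 h4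
    _ ≤ (c * θ ^ j) * A := mul_le_mul_of_nonneg_right h3 hA0
    _ = c * (θ ^ j * A) := by ring
    _ ≤ c * (2 * q) := mul_le_mul_of_nonneg_left hAq hc0.le
    _ = 2 * c * q := by ring
    _ ≤ g := hg

/-- one step of the descent, for the sets -/
theorem core_step {θ : ℝ} (hθ : 0 < θ) {K₀ ℓ t : ℕ} (hK₀ : 1 ≤ K₀)
    (hℓ : ℓ ≤ K₀) (ht : t ≤ ℓ)
    (hbig : 8 * (2 : ℝ) ^ ℓ < (cc k / 2 * θ * Fintype.card B) ^ k) {ω : Lab k B}
    {I : Finset (Fin k)} {P A : Finset (Fin k → B)} (hAP : A ⊆ P)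
    (hconst : ∀ x ∈ P, ∀ y ∈ P, ∀ i ∈ I, x i = y i) (hPpos : (0 : ℝ) < P.card)
    (hPA : (P.card : ℝ) ≤ 2 * A.card)
    (hP : (cc k / 2 * θ) ^ I.card * (Fintype.card B : ℝ) ^ k *
      ((1 / 2) * (1 - 1 / (2 * K₀))) ^ t ≤ P.card)
    (hnot : ∀ J, (I ∪ J).card + 2 ≤ k →
      (A.card : ℝ) ≤ 2 ^ k * (2 * K₀) * (cls θ I A J).card → (cls θ I A J).Nonempty →
      ¬ Few (I ∪ J) univ (cls θ I A J) ω)
    [∀ K, DecidablePred (GoodAt ω K)] :
    (∃ J, (I ∪ J).card + 1 = k ∧ J.Nonempty ∧ Disjoint J I ∧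
      (A.card : ℝ) ≤ 2 ^ k * (2 * K₀) * (cls θ I A J).card ∧ (cls θ I A J).Nonempty) ∨
    (Dense θ 1 I (rest A (fam θ I A)) ∧ (cc k / 2 * θ) ^ I.card * (Fintype.card B : ℝ) ^ k *
      ((1 / 2) * (1 - 1 / (2 * K₀))) ^ (t + 1) ≤ (rest A (fam θ I A)).card) ∨
    ∃ p ∈ fam θ I A, p.2.Nonempty ∧ (I ∪ p.1).card + 2 ≤ k ∧
      cc k * p.2.card ≤ ((p.2.filter (GoodAt ω (I ∪ p.1))).card : ℝ) ∧
      (cc k / 2 * θ) ^ (I ∪ p.1).card * (Fintype.card B : ℝ) ^ k *
      ((1 / 2) * (1 - 1 / (2 * K₀))) ^ (t + 1) ≤ (p.2.filter (GoodAt ω (I ∪ p.1))).card := by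
  classical
  have hcc := cc_pos k
  have hcc1 := cc_le k
  have hKR : (1 : ℝ) ≤ K₀ := by exact_mod_cast hK₀
  have hδ : (1 : ℝ) / (2 * K₀) ≤ 1 / 2 := by
    apply one_div_le_one_div_of_le (by norm_num)
    linarith
  have hδ0 : (0 : ℝ) < 1 / (2 * K₀) := by positivity
  have hApos : (0 : ℝ) < A.card := by linarith
  have hw0 : (0 : ℝ) ≤ 1 / 2 * (1 - 1 / (2 * K₀)) := by linarith
  have hw1 : (1 : ℝ) / 2 * (1 - 1 / (2 * K₀)) ≤ 1 / 2 := by linarith
  have hfam := isFam_fam hθ I A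
  by_cases hrest : (1 - 1 / (2 * K₀)) * (A.card : ℝ) ≤ (rest A (fam θ I A)).card
  · -- the rest is almost everything
    right; left
    refine ⟨?_, num_none hw0 hP hPA ?_⟩
    · apply hfam.rest_dense
      have h1 : (A.card : ℝ) ≤ 2 * (rest A (fam θ I A)).card := by nlinarith
      exact_mod_cast h1
    · linarith
  · -- some class is large
    push Not at hrest
    obtain ⟨J, hJ⟩ := exists_cls hrest.le
    have hlarge : (A.card : ℝ) ≤ 2 ^ k * (2 * K₀) * (cls θ I A J).card := by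
      have h1 : (1 / (2 * K₀) : ℝ) * (2 * K₀) = 1 := by field_simp
      have h2 := mul_le_mul_of_nonneg_right hJ (by linarith : (0 : ℝ) ≤ 2 * K₀)
      calc (A.card : ℝ) = (1 / (2 * K₀) * A.card) * (2 * K₀) := by
            rw [mul_right_comm, h1, one_mul]
        _ ≤ _ := h2
        _ = _ := by ring
    have hclsne : (cls θ I A J).Nonempty := by
      by_contra h
      rw [not_nonempty_iff_eq_empty] at h
      rw [h, card_empty, Nat.cast_zero, mul_zero] at hlarge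
      linarith
    -- the number of fixed blocks
    have hcard : (I ∪ J).card < k ∧ J.Nonempty ∧ Disjoint J I := by
      obtain ⟨y, hy⟩ := hclsne
      rw [cls, mem_biUnion] at hy
      obtain ⟨⟨pJ, q⟩, hp, -⟩ := hy
      rw [mem_filter] at hp
      obtain ⟨hp, hpJ⟩ := hp
      simp only at hpJ
      subst hpJ
      have hpart := hfam.part _ hp
      refine ⟨?_, hpart.ne, hpart.disj⟩
      refine fixed_lt hθ hK₀ hℓ ht hbig hpart.disj hP hPA hpart.large ?_
      intro x hx y hy i hi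
      rcases mem_union.1 hi with hi | hi
      · exact hconst x (hAP (hpart.sub hx)) y (hAP (hpart.sub hy)) i hi
      · exact hpart.const x hx y hy i hi
    by_cases hJk : (I ∪ J).card + 1 = k
    · left
      exact ⟨J, hJk, hcard.2.1, hcard.2.2, hlarge, hclsne⟩
    right; right
    have hIJ : (I ∪ J).card + 2 ≤ k := by have := hcard.1; omega
    obtain ⟨⟨pJ, q⟩, hp, hpJ, hpgood⟩ := exists_part hθ ω hclsne (hnot J hIJ hlarge hclsne)
    simp only at hpJ hpgood
    subst hpJ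
    have hprt := hfam.part _ hp
    refine ⟨(pJ, q), hp, hprt.nonempty hθ (card_pos.1 (by exact_mod_cast hApos)), hIJ, hpgood, ?_⟩
    have hJ1 : 1 ≤ pJ.card := card_pos.2 hprt.ne
    have hlg := hprt.large
    simp only at hlg ⊢
    rw [card_union_of_disjoint hprt.disj.symm]
    refine num_some (by linarith) (by linarith) hθ hJ1 hw0 hw1 hPpos.le hP hPA hlg ?_
    calc 2 * (cc k / 2) * (q.card : ℝ) = cc k * q.card := by ring
      _ ≤ _ := hpgood

/-- one step of the descent -/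
theorem step_state {θ : ℝ} (hθ : 0 < θ) {K₀ ℓ : ℕ} (hK₀ : 1 ≤ K₀)
    (hℓ : ℓ ≤ K₀)
    (hbig : 8 * (2 : ℝ) ^ ℓ < (cc k / 2 * θ * Fintype.card B) ^ k)
    {𝒬 : Finset (Finset (Fin k → B))} {ω : Lab k B}
    (hnice : Nice θ (2 ^ k * (2 * K₀)) K₀ 𝒬 ω)
    (l : List (Datum k B)) (hl : l.length ≤ ℓ) (hlQ : ∀ e ∈ l, e.1.1 ∈ 𝒬)
    {Q : Finset (Fin k → B)} (hQ : Q ∈ 𝒬)
    (hdense : Dense θ (1 / cc k) (st θ ω l).1 (st θ ω l).2)
    (hI : (st θ ω l).1.card + 2 ≤ k) (hPne : (st θ ω l).2.Nonempty)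
    (hP : (cc k / 2 * θ) ^ (st θ ω l).1.card * (Fintype.card B : ℝ) ^ k *
      ((1 / 2) * (1 - 1 / (2 * K₀))) ^ l.length ≤ (st θ ω l).2.card) :
    (∃ (b : Bool) (J : Finset (Fin k)), ((st θ ω l).1 ∪ J).card + 1 = k ∧
      Disjoint J (st θ ω l).1 ∧ ((st θ ω l).2.card : ℝ) ≤ 2 * (side (st θ ω l).2 (Q, b)).card ∧
      ((side (st θ ω l).2 (Q, b)).card : ℝ) ≤ 2 ^ k * (2 * K₀) *
        (cls θ (st θ ω l).1 (side (st θ ω l).2 (Q, b)) J).card ∧
      ¬ Few ((st θ ω l).1 ∪ J) ((st θ ω l).1 ∪ J)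
        (cls θ (st θ ω l).1 (side (st θ ω l).2 (Q, b)) J) ω) ∨
    ∃ (b : Bool) (x : Option (Fin k → B)),
      (st θ ω (((Q, b), x) :: l)).2 ⊆ side (st θ ω l).2 (Q, b) ∧
      Dense θ (1 / cc k) (st θ ω (((Q, b), x) :: l)).1 (st θ ω (((Q, b), x) :: l)).2 ∧
      (st θ ω (((Q, b), x) :: l)).1.card + 2 ≤ k ∧
      (cc k / 2 * θ) ^ (st θ ω (((Q, b), x) :: l)).1.card * (Fintype.card B : ℝ) ^ k *
        ((1 / 2) * (1 - 1 / (2 * K₀))) ^ (l.length + 1) ≤
          (st θ ω (((Q, b), x) :: l)).2.card := by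
  classical
  have hcc := cc_pos k
  have hcc1 := cc_le k
  have h1cc : 1 ≤ 1 / cc k := by
    rw [le_div_iff₀ hcc]; linarith
  obtain ⟨b, hb⟩ := exists_side (st θ ω l).2 Q
  have hPpos : (0 : ℝ) < (st θ ω l).2.card := Nat.cast_pos.2 (card_pos.2 hPne)
  have hcore := core_step hθ hK₀ hℓ hl hbig (side_subset (st θ ω l).2 (Q, b))
    (st_const hθ ω l) hPpos hb hP
    (fun J hJ h2 h3 h4 => hnice l (hl.trans hℓ) hlQ (Q, b) hQ _ J univ (Or.inl ⟨hJ, rfl⟩)
      ⟨rfl, hdense, hb, h2, h3, h4⟩)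
  rcases hcore with ⟨J, h1, h2, h3, h4, h5⟩ | ⟨h1, h2⟩ | ⟨p, hp, ⟨x, hx⟩, h1, h2, h3⟩
  · left
    exact ⟨b, J, h1, h3, hb, h4, fun h6 => hnice l (hl.trans hℓ) hlQ (Q, b) hQ _ J _
      (Or.inr ⟨h1, h2, h3, rfl⟩) ⟨rfl, hdense, hb, h4, h5, h6⟩⟩
  · right
    refine ⟨b, ?_⟩
    refine ⟨none, ?_⟩
    have hn : st θ ω (((Q, b), none) :: l) = ((st θ ω l).1,
      rest (side (st θ ω l).2 (Q, b)) (fam θ (st θ ω l).1 (side (st θ ω l).2 (Q, b)))) := rfl
    rw [hn]
    refine ⟨sdiff_subset, ?_, hI, h2⟩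
    intro K hK w
    refine (h1 K hK w).trans ?_
    rw [mul_assoc, mul_assoc]
    exact mul_le_mul_of_nonneg_right h1cc (mul_nonneg (pow_nonneg hθ.le _) (Nat.cast_nonneg _))
  · right
    refine ⟨b, ?_⟩
    refine ⟨some x, ?_⟩
    have hn : st θ ω (((Q, b), some x) :: l) = ((st θ ω l).1 ∪ p.1,
      p.2.filter (GoodAt ω ((st θ ω l).1 ∪ p.1))) := nxt_some hθ ω (st θ ω l) (Q, b) hp hx
    rw [hn]
    have hprt := (isFam_fam hθ (st θ ω l).1 (side (st θ ω l).2 (Q, b))).part p hp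
    refine ⟨(filter_subset _ _).trans hprt.sub, ?_, h1, h3⟩
    intro K hK w
    have h4 := hprt.dense K hK w
    have h5 : ((cyl (p.2.filter (GoodAt ω ((st θ ω l).1 ∪ p.1))) K w).card : ℝ) ≤
        (cyl p.2 K w).card :=
      Nat.cast_le.2 (card_le_card (cyl_mono (filter_subset _ _) K w))
    have h6 : (p.2.card : ℝ) ≤
        1 / cc k * (p.2.filter (GoodAt ω ((st θ ω l).1 ∪ p.1))).card := by
      rw [one_div, ← div_eq_inv_mul, le_div_iff₀ hcc, mul_comm]
      exact h2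
    refine (h5.trans h4).trans ?_
    rw [one_mul]
    have h7 := mul_le_mul_of_nonneg_left h6 (pow_nonneg hθ.le K.card)
    refine h7.trans (le_of_eq ?_)
    ring

omit [Fintype B] in
/-- a dense set of good tuples is not covered by few non-edges -/
theorem leaf {θ : ℝ} {s : ℕ} (hs : (s : ℝ) ^ 2 * θ ^ 2 < cc k) {ω : Lab k B}
    {I : Finset (Fin k)} {P : Finset (Fin k → B)} (hP : P.Nonempty)
    (hdense : Dense θ (1 / cc k) I P) (hgood : ∀ x ∈ P, GoodAt ω I x)
    (S : Finset ((Fin k × B) × (Fin k × B))) (hS : S.card ≤ s ^ 2)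
    (hne : ∀ e ∈ S, e.1.1 ≠ e.2.1 ∧ ω e.1 e.2.1 ≠ ω e.2 e.1.1)
    (hcov : ∀ x ∈ P, ∃ e ∈ S, x e.1.1 = e.1.2 ∧ x e.2.1 = e.2.2) : False := by
  classical
  have hcc := cc_pos k
  have hPpos : (0 : ℝ) < P.card := by exact_mod_cast card_pos.2 hP
  have hsub : P ⊆ S.biUnion fun e => P.filter fun x => x e.1.1 = e.1.2 ∧ x e.2.1 = e.2.2 := by
    intro x hx
    obtain ⟨e, he, h⟩ := hcov x hx
    exact mem_biUnion.2 ⟨e, he, mem_filter.2 ⟨hx, h⟩⟩
  have hone : ∀ e ∈ S, ((P.filter fun x => x e.1.1 = e.1.2 ∧ x e.2.1 = e.2.2).card : ℝ) ≤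
      1 / cc k * θ ^ 2 * P.card := by
    intro e he
    obtain ⟨h1, h2⟩ := hne e he
    by_cases hI : e.1.1 ∈ I ∨ e.2.1 ∈ I
    · rw [Finset.filter_false_of_mem]
      · simp only [card_empty, Nat.cast_zero]
        positivity
      · rintro x hx ⟨h3, h4⟩
        apply h2
        have hg := hgood x hx
        have e1 : e.1 = (e.1.1, x e.1.1) := by rw [h3]
        have e2 : e.2 = (e.2.1, x e.2.1) := by rw [h4]
        rcases hI with hI | hI
        · have := hg e.1.1 hI e.2.1 (Ne.symm h1)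
          rw [← e1, ← e2] at this
          exact this
        · have := hg e.2.1 hI e.1.1 h1
          rw [← e1, ← e2] at this
          exact this.symm
    · push Not at hI
      have h3 := hdense {e.1.1, e.2.1} (by
        rw [disjoint_left]
        intro i hi
        rw [mem_insert, mem_singleton] at hi
        rcases hi with rfl | rfl
        · exact hI.1
        · exact hI.2) (fun i => if i = e.1.1 then e.1.2 else e.2.2)
      rw [card_pair h1] at h3
      refine le_trans ?_ h3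
      refine Nat.cast_le.2 (card_le_card ?_)
      intro x hx
      rw [mem_filter] at hx
      rw [mem_cyl]
      refine ⟨hx.1, ?_⟩
      intro i hi
      rw [mem_insert, mem_singleton] at hi
      rcases hi with rfl | rfl
      · rw [if_pos rfl]; exact hx.2.1
      · rw [if_neg (Ne.symm h1)]; exact hx.2.2
  have h1 : (P.card : ℝ) ≤ (s : ℝ) ^ 2 * (1 / cc k * θ ^ 2 * P.card) := by
    calc (P.card : ℝ) ≤ ((S.biUnion fun e => P.filter fun x =>
          x e.1.1 = e.1.2 ∧ x e.2.1 = e.2.2).card : ℝ) := Nat.cast_le.2 (card_le_card hsub)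
      _ ≤ ∑ e ∈ S, ((P.filter fun x => x e.1.1 = e.1.2 ∧ x e.2.1 = e.2.2).card : ℝ) := by
          exact_mod_cast card_biUnion_le
      _ ≤ ∑ _e ∈ S, (1 / cc k * θ ^ 2 * P.card) := Finset.sum_le_sum hone
      _ = S.card * (1 / cc k * θ ^ 2 * P.card) := by rw [Finset.sum_const, nsmul_eq_mul]
      _ ≤ _ := by
          apply mul_le_mul_of_nonneg_right _ (by positivity)
          exact_mod_cast hS
  have h2 : (s : ℝ) ^ 2 * (1 / cc k * θ ^ 2 * P.card) =
      ((s : ℝ) ^ 2 * θ ^ 2) / cc k * P.card := by ring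
  have h3 : ((s : ℝ) ^ 2 * θ ^ 2) / cc k < 1 := by rw [div_lt_one hcc]; exact hs
  rw [h2] at h1
  nlinarith

/-- a property which holds at `a` and not at `a + m` is lost at some step -/
theorem exists_crossing (p : ℕ → Prop) (a m : ℕ) (h0 : p a) (h1 : ¬ p (a + m)) :
    ∃ c ∈ Finset.Ico a (a + m), p c ∧ ¬ p (c + 1) := by
  induction m with
  | zero => exact absurd h0 h1
  | succ m ih =>
    by_cases h : p (a + m)
    · exact ⟨a + m, by rw [Finset.mem_Ico]; omega, h, h1⟩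
    · obtain ⟨c, hc, h2⟩ := ih h
      rw [Finset.mem_Ico] at hc
      exact ⟨c, by rw [Finset.mem_Ico]; omega, h2⟩

/-- the numerical part of the last step -/
theorem num_final {k i j ℓ t : ℕ} {θ n lam A P s S : ℝ} (hθ : 0 < θ) (hn : 0 ≤ n)
    (hlam : 0 ≤ lam) (hij : i + j + 1 = k) (hj : 1 ≤ j) (ht : t + 1 ≤ ℓ)
    (hP : (cc k / 2 * θ) ^ i * n ^ k * ((1 / 2) ^ t * (1 / 2)) ≤ P) (hPA : P ≤ 2 * A)
    (hA : cc k ^ 2 * θ ^ (j - 1) * A ≤ 4 * lam * S) (hS : S ≤ 2 ^ (ℓ - (t + 1)) * s) :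
    cc k ^ 2 * (cc k / 2 * θ) ^ (k - 2) * n ^ k ≤ 8 * lam * s * 2 ^ ℓ := by
  have hcc := cc_pos k
  have hcc1 := cc_le k
  set c : ℝ := cc k / 2 * θ with hc
  have hcpos : 0 < c := by positivity
  have hcθ : c ≤ θ := by
    rw [hc]
    have : cc k / 2 ≤ 1 := by linarith
    nlinarith
  have h1 : c ^ (k - 2) ≤ θ ^ (j - 1) * c ^ i := by
    have h2 : k - 2 = (j - 1) + i := by omega
    rw [h2, pow_add]
    exact mul_le_mul_of_nonneg_right (pow_le_pow_left₀ hcpos.le hcθ _) (by positivity)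
  have h2 : (1 / 2 : ℝ) ^ t * 2 ^ t = 1 := by rw [← mul_pow]; norm_num
  have h3 : (2 : ℝ) ^ ℓ = 2 ^ (ℓ - (t + 1)) * 2 * 2 ^ t := by
    rw [← pow_succ, ← pow_add]; congr 1; omega
  have h2t : (0 : ℝ) < 2 ^ t := by positivity
  calc cc k ^ 2 * c ^ (k - 2) * n ^ k ≤ cc k ^ 2 * (θ ^ (j - 1) * c ^ i) * n ^ k :=
        mul_le_mul_of_nonneg_right (mul_le_mul_of_nonneg_left h1 (by positivity)) (by positivity)
    _ = cc k ^ 2 * θ ^ (j - 1) * (c ^ i * n ^ k * ((1 / 2 : ℝ) ^ t * (1 / 2))) * (2 * 2 ^ t) := by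
        have : cc k ^ 2 * θ ^ (j - 1) * (c ^ i * n ^ k * ((1 / 2 : ℝ) ^ t * (1 / 2))) * (2 * 2 ^ t)
          = cc k ^ 2 * (θ ^ (j - 1) * c ^ i) * n ^ k * ((1 / 2 : ℝ) ^ t * 2 ^ t) := by ring
        rw [this, h2, mul_one]
    _ ≤ cc k ^ 2 * θ ^ (j - 1) * (2 * A) * (2 * 2 ^ t) := by
        apply mul_le_mul_of_nonneg_right _ (by positivity)
        exact mul_le_mul_of_nonneg_left (hP.trans hPA) (by positivity)
    _ = (cc k ^ 2 * θ ^ (j - 1) * A) * (4 * 2 ^ t) := by ring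
    _ ≤ (4 * lam * S) * (4 * 2 ^ t) := mul_le_mul_of_nonneg_right hA (by positivity)
    _ ≤ (4 * lam * (2 ^ (ℓ - (t + 1)) * s)) * (4 * 2 ^ t) := by
        apply mul_le_mul_of_nonneg_right _ (by positivity)
        exact mul_le_mul_of_nonneg_left hS (by positivity)
    _ = 8 * lam * s * 2 ^ ℓ := by rw [h3]; ring

/-- the end of the descent: `k - 1` blocks are fixed by the parts -/
theorem end_step {θ : ℝ} (hθ : 0 < θ) {K₀ ℓ t : ℕ} (hK₀ : 1 ≤ K₀) (hℓ : ℓ ≤ K₀)
    (ht : t + 1 ≤ ℓ) {ω : Lab k B} {I J : Finset (Fin k)} (hIJ : (I ∪ J).card + 1 = k)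
    (hJI : Disjoint J I) (hI : I.card + 2 ≤ k) {P A : Finset (Fin k → B)} (hAP : A ⊆ P)
    (hPpos : (0 : ℝ) < P.card)
    (hconst : ∀ x ∈ P, ∀ y ∈ P, ∀ i ∈ I, x i = y i) (hgood : ∀ x ∈ P, GoodAt ω I x)
    (hdense : Dense θ (1 / cc k) I P) (hPA : (P.card : ℝ) ≤ 2 * A.card)
    (hlarge : (A.card : ℝ) ≤ 2 ^ k * (2 * K₀) * (cls θ I A J).card)
    (hfew : ¬ Few (I ∪ J) (I ∪ J) (cls θ I A J) ω)
    (hP : (cc k / 2 * θ) ^ I.card * (Fintype.card B : ℝ) ^ k *
      ((1 / 2) * (1 - 1 / (2 * K₀))) ^ t ≤ P.card)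
    {s : ℕ} (Qf : ℕ → Finset (Fin k → B)) (Sf : ℕ → Finset ((Fin k × B) × (Fin k × B)))
    (hSf : ∀ c, (Sf c).card ≤ s ^ 2)
    (hSne : ∀ c, ∀ e ∈ Sf c, e.1.1 ≠ e.2.1 ∧ ω e.1 e.2.1 ≠ ω e.2 e.1.1)
    (hScov : ∀ c, ∀ x ∈ Qf c, x ∉ Qf (c + 1) → ∃ e ∈ Sf c, x e.1.1 = e.1.2 ∧ x e.2.1 = e.2.2)
    (a : ℕ) (hA1 : A ⊆ Qf a) (hA2 : Disjoint A (Qf (a + 2 ^ (ℓ - (t + 1))))) :
    cc k ^ 2 * (cc k / 2 * θ) ^ (k - 2) * (Fintype.card B : ℝ) ^ k ≤
      8 * (2 ^ k * (2 * K₀)) * (s : ℝ) ^ 2 * (2 : ℝ) ^ ℓ := by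
  classical
  have hcc := cc_pos k
  have hlam : (0 : ℝ) ≤ 2 ^ k * (2 * K₀) :=
    mul_nonneg (pow_nonneg (by norm_num) _) (mul_nonneg (by norm_num) (Nat.cast_nonneg _))
  set S := (Finset.Ico a (a + 2 ^ (ℓ - (t + 1)))).biUnion Sf with hS
  have hScard : (S.card : ℝ) ≤ 2 ^ (ℓ - (t + 1)) * (s : ℝ) ^ 2 := by
    have h6 : S.card ≤ 2 ^ (ℓ - (t + 1)) * s ^ 2 := by
      refine card_biUnion_le.trans ((Finset.sum_le_card_nsmul _ _ (s ^ 2)
        (fun c _ => hSf c)).trans ?_)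
      rw [Nat.card_Ico, smul_eq_mul, Nat.add_sub_cancel_left]
    exact_mod_cast h6
  have hmany : cc k * (cls θ I A J).card ≤
      (((cls θ I A J).filter (GoodOn ω (I ∪ J) (I ∪ J))).card : ℝ) := by
    by_contra h6
    exact hfew ⟨_, fun y hy hg => mem_filter.2 ⟨hy, hg⟩, not_le.1 h6⟩
  have hfin := final_count hθ hlam hIJ hAP (by linarith) hconst hgood hdense hPA hlarge
    hmany S
    (by
      intro e he
      rw [hS, mem_biUnion] at he
      obtain ⟨c, _, hc⟩ := he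
      exact hSne c e hc)
    (by
      intro x hx
      obtain ⟨c, hc, h6, h7⟩ := exists_crossing (fun c => x ∈ Qf c) a _ (hA1 hx)
        (disjoint_left.1 hA2 hx)
      obtain ⟨e, he, h8⟩ := hScov c x h6 h7
      exact ⟨e, by rw [hS, mem_biUnion]; exact ⟨c, hc, he⟩, h8⟩)
  have hIJcard : I.card + J.card + 1 = k := by
    have := card_union_of_disjoint hJI.symm
    omega
  have hP' : (cc k / 2 * θ) ^ I.card * (Fintype.card B : ℝ) ^ k * ((1 / 2) ^ t * (1 / 2)) ≤
      P.card := by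
    refine le_trans (mul_le_mul_of_nonneg_left (pow_w_ge hK₀ hℓ (by omega)) ?_) hP
    exact mul_nonneg (pow_nonneg (mul_nonneg (by linarith) hθ.le) _)
      (pow_nonneg (Nat.cast_nonneg _) _)
  exact num_final hθ (Nat.cast_nonneg _) hlam hIJcard (by omega) ht hP' hPA hfin hScard

/-- the descent -/
theorem descent (hk : 2 ≤ k) {θ : ℝ} (hθ : 0 < θ) {K₀ : ℕ} (hK₀ : 1 ≤ K₀)
    {𝒬 : Finset (Finset (Fin k → B))} {ω : Lab k B}
    (hnice : Nice θ (2 ^ k * (2 * K₀)) K₀ 𝒬 ω) {s : ℕ} (hs : (s : ℝ) ^ 2 * θ ^ 2 < cc k)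
    {ℓ : ℕ} (hℓ : ℓ ≤ K₀) (Qf : ℕ → Finset (Fin k → B)) (hQ : ∀ c, Qf c ∈ 𝒬)
    (h0 : Qf 0 = univ) (hL : Qf (2 ^ ℓ) = ∅)
    (hstep : ∀ a, ∃ S : Finset ((Fin k × B) × (Fin k × B)), S.card ≤ s ^ 2 ∧
      (∀ e ∈ S, e.1.1 ≠ e.2.1 ∧ ω e.1 e.2.1 ≠ ω e.2 e.1.1) ∧
      ∀ x ∈ Qf a, x ∉ Qf (a + 1) → ∃ e ∈ S, x e.1.1 = e.1.2 ∧ x e.2.1 = e.2.2) :
    (cc k / 2 * θ * Fintype.card B) ^ k ≤ 8 * (2 : ℝ) ^ ℓ ∨
    cc k ^ 2 * (cc k / 2 * θ) ^ (k - 2) * (Fintype.card B : ℝ) ^ k ≤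
      8 * (2 ^ k * (2 * K₀)) * (s : ℝ) ^ 2 * (2 : ℝ) ^ ℓ := by
  classical
  by_contra hcon
  push Not at hcon
  obtain ⟨hbig, hbig2⟩ := hcon
  have hcc := cc_pos k
  have hcc1 := cc_le k
  have hpos : ∀ (t i m : ℕ), (cc k / 2 * θ) ^ i * (Fintype.card B : ℝ) ^ k *
      ((1 / 2) * (1 - 1 / (2 * K₀))) ^ t ≤ (m : ℝ) → 0 < m := by
    intro t i m h
    have hKR : (1 : ℝ) ≤ K₀ := by exact_mod_cast hK₀
    have hδ : (1 : ℝ) / (2 * K₀) ≤ 1 / 2 := by
      apply one_div_le_one_div_of_le (by norm_num)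
      linarith
    have h1 : (0 : ℝ) < 1 - 1 / (2 * K₀) := by linarith
    have hn : (0 : ℝ) < Fintype.card B := by
      by_contra h
      have h0 : (Fintype.card B : ℝ) = 0 := le_antisymm (not_lt.1 h) (Nat.cast_nonneg _)
      rw [h0, mul_zero, zero_pow (by omega)] at hbig
      have : (0 : ℝ) < 2 ^ ℓ := by positivity
      linarith
    have h2 : (0 : ℝ) < m := lt_of_lt_of_le (by positivity) h
    exact_mod_cast h2
  choose Sf hSf hSne hScov using hstep
  have inv : ∀ t, t ≤ ℓ → ∃ (l : List (Datum k B)) (a : ℕ), l.length = t ∧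
      (∀ e ∈ l, e.1.1 ∈ 𝒬) ∧ (st θ ω l).2 ⊆ Qf a ∧
      Disjoint (st θ ω l).2 (Qf (a + 2 ^ (ℓ - t))) ∧
      Dense θ (1 / cc k) (st θ ω l).1 (st θ ω l).2 ∧ (st θ ω l).1.card + 2 ≤ k ∧
      (cc k / 2 * θ) ^ (st θ ω l).1.card * (Fintype.card B : ℝ) ^ k *
        ((1 / 2) * (1 - 1 / (2 * K₀))) ^ t ≤ (st θ ω l).2.card := by
    intro t
    induction t with
    | zero =>
      intro _
      refine ⟨[], 0, rfl, by simp, ?_, ?_, ?_, ?_, ?_⟩
      · rw [h0]; exact subset_univ _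
      · rw [Nat.sub_zero, zero_add, hL]; exact disjoint_empty_right _
      · -- `univ` is dense
        intro K _ w
        simp only [st]
        have h1 : ((cyl (univ : Finset (Fin k → B)) K w).card : ℝ) ≤
            (Fintype.card B : ℝ) ^ (k - K.card) := by
          have := card_le_of_const (A := cyl (univ : Finset (Fin k → B)) K w) (K := K) (by
            intro x hx y hy i hi
            rw [(mem_cyl.1 hx).2 i hi, (mem_cyl.1 hy).2 i hi])
          exact_mod_cast this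
        have h2 : ((univ : Finset (Fin k → B)).card : ℝ) = (Fintype.card B : ℝ) ^ k := by
          rw [card_univ, Fintype.card_fun, Fintype.card_fin]
          push_cast
          rfl
        rw [h2]
        refine h1.trans ?_
        have hKk : K.card ≤ k := by
          have := card_le_card (subset_univ K)
          rw [card_univ, Fintype.card_fin] at this
          exact this
        have h3 : (Fintype.card B : ℝ) ^ k =
            (Fintype.card B : ℝ) ^ K.card * (Fintype.card B : ℝ) ^ (k - K.card) := by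
          rw [← pow_add]; congr 1; omega
        rw [h3]
        -- `θ * n ≥ 1`
        have h2ℓ : (1 : ℝ) ≤ 2 ^ ℓ := one_le_pow₀ (by norm_num)
        have hcn : 1 < cc k / 2 * θ * Fintype.card B := by
          by_contra h
          push Not at h
          have : (cc k / 2 * θ * Fintype.card B) ^ k ≤ 1 := pow_le_one₀ (by positivity) h
          linarith
        have hθn : 1 ≤ θ * Fintype.card B := by
          have h4 : (0 : ℝ) ≤ θ * Fintype.card B := by positivity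
          have h5 : cc k / 2 ≤ 1 := by linarith
          nlinarith
        have h4 : 1 ≤ (θ * Fintype.card B : ℝ) ^ K.card := one_le_pow₀ hθn
        have h5 : 1 ≤ 1 / cc k := by rw [le_div_iff₀ hcc]; linarith
        have h6 : (0 : ℝ) ≤ (Fintype.card B : ℝ) ^ (k - K.card) := by positivity
        calc (Fintype.card B : ℝ) ^ (k - K.card) = 1 * 1 * (Fintype.card B : ℝ) ^ (k - K.card) := by
              ring
          _ ≤ 1 / cc k * (θ * Fintype.card B : ℝ) ^ K.card *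
              (Fintype.card B : ℝ) ^ (k - K.card) := by
              apply mul_le_mul_of_nonneg_right _ h6
              exact mul_le_mul h5 h4 (by norm_num) (by positivity)
          _ = _ := by rw [mul_pow]; ring
      · simpa [st] using hk
      · simp [st]
    | succ t ih =>
      intro ht
      obtain ⟨l, a, hlen, hlQ, hsub, hdis, hdense, hI, hP⟩ := ih (by omega)
      subst hlen
      have hpow : 2 ^ (ℓ - l.length) = 2 ^ (ℓ - (l.length + 1)) + 2 ^ (ℓ - (l.length + 1)) := by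
        have : ℓ - l.length = (ℓ - (l.length + 1)) + 1 := by omega
        rw [this, pow_succ]
        ring
      -- the interval of a side
      have hside1 : ∀ b : Bool, side (st θ ω l).2 (Qf (a + 2 ^ (ℓ - (l.length + 1))), b) ⊆
          Qf (if b then a + 2 ^ (ℓ - (l.length + 1)) else a) := by
        intro b
        cases b with
        | true =>
          simp only [side, if_true]
          exact inter_subset_right
        | false =>
          simp only [Bool.false_eq_true, if_false]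
          exact (side_subset _ _).trans hsub
      have hside2 : ∀ b : Bool, Disjoint (side (st θ ω l).2
          (Qf (a + 2 ^ (ℓ - (l.length + 1))), b))
          (Qf ((if b then a + 2 ^ (ℓ - (l.length + 1)) else a) +
            2 ^ (ℓ - (l.length + 1)))) := by
        intro b
        cases b with
        | true =>
          simp only [if_true]
          rw [add_assoc, ← hpow]
          exact Disjoint.mono_left (side_subset _ _) hdis
        | false =>
          simp only [side, Bool.false_eq_true, if_false]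
          exact sdiff_disjoint
      rcases step_state hθ hK₀ hℓ hbig hnice l (by omega) hlQ
        (hQ (a + 2 ^ (ℓ - (l.length + 1)))) hdense hI (card_pos.1 (hpos _ _ _ hP)) hP with
        ⟨b, J, h1, h2, h3, h4, h5⟩ | ⟨b, x, h1, h2, h3, h4⟩
      · -- the end of the descent
        exfalso
        have h6 := end_step hθ hK₀ hℓ ht h1 h2 hI
          (side_subset (st θ ω l).2 (Qf (a + 2 ^ (ℓ - (l.length + 1))), b))
          (Nat.cast_pos.2 (hpos _ _ _ hP)) (st_const hθ ω l) (st_good θ ω l) hdense h3 h4 h5 hP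
          Qf Sf hSf hSne hScov _ (hside1 b) (hside2 b)
        linarith
      · refine ⟨((Qf (a + 2 ^ (ℓ - (l.length + 1))), b), x) :: l,
          if b then a + 2 ^ (ℓ - (l.length + 1)) else a, by simp, ?_, ?_, ?_, h2, h3, h4⟩
        · intro e he
          rcases List.mem_cons.1 he with rfl | he
          · exact hQ _
          · exact hlQ e he
        · exact h1.trans (hside1 b)
        · exact Disjoint.mono_left h1 (hside2 b)
  obtain ⟨l, a, hlen, -, hsub, hdis, hdense, -, hP⟩ := inv ℓ le_rfl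
  rw [Nat.sub_self, pow_zero] at hdis
  have hPne : (st θ ω l).2.Nonempty := card_pos.1 (hpos _ _ _ hP)
  exact leaf hs hPne hdense (st_good θ ω l) (Sf a) (hSf a) (hSne a)
    (fun x hx => hScov a x (hsub hx) (disjoint_left.1 hdis hx))

end Pool.Agent.MP_678664_lc.TimeSpace
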