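import Pool.Agent.Lib.MP_678664_lc_h37.Defs

/-!
# Counting lists of formulas, and the sets of tuples given by a memory
-/

namespace Pool.Agent.MP_678664_lc.TimeSpace

open Finset

theorem Fml.size_pos (A : Fml) : 0 < A.size := by
  cases A <;> simp [Fml.size]

theorem Fml.eval_congr {A : Fml} {v v' : ℕ → Bool}
    (hv : ∀ j ∈ A.vars, v j = v' j) : A.eval v = A.eval v' := by
  induction A with
  | var i => exact hv i (by simp [Fml.vars])
  | neg A ih => simp only [Fml.eval, ih hv]
  | imp A B ihA ihB =>
    simp only [Fml.eval, ihA fun j hj => hv j (mem_union_left _ hj),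
      ihB fun j hj => hv j (mem_union_right _ hj)]

theorem Fml.card_vars_le (A : Fml) : A.vars.card ≤ A.size := by
  induction A with
  | var i => simp [Fml.vars, Fml.size]
  | neg A ih => simp only [Fml.vars, Fml.size]; omega
  | imp A B ihA ihB =>
    simp only [Fml.vars, Fml.size]
    have := card_union_le A.vars B.vars
    omega

theorem space_cons (A : Fml) (l : List Fml) : space (A :: l) = A.size + space l := by
  simp [space]

/-- replaces the first formula `A` by `¬ A` -/
def negHead : List Fml → List Fml
  | A :: l => Fml.neg A :: l
  | [] => []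

/-- replaces the first two formulas `A`, `B` by `A → B` -/
def impHead : List Fml → List Fml
  | A :: B :: l => Fml.imp A B :: l
  | l => l

open Classical in
/-- contains all lists of formulas of total size `s` with variables below `N` -/
noncomputable def enum (N : ℕ) : ℕ → Finset (List Fml)
  | 0 => {[]}
  | s + 1 => (((range N).biUnion fun v => (enum N s).image (List.cons (Fml.var v))) ∪
      (enum N s).image negHead) ∪ (enum N s).image impHead

theorem card_enum (N s : ℕ) : (enum N s).card ≤ (N + 2) ^ s := by
  classical
  induction s with
  | zero => simp [enum]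
  | succ s ih =>
    rw [enum, pow_succ]
    have h1 : ((range N).biUnion fun v => (enum N s).image (List.cons (Fml.var v))).card ≤
        N * (enum N s).card := by
      refine card_biUnion_le.trans ?_
      calc _ ≤ ∑ _v ∈ range N, (enum N s).card := Finset.sum_le_sum fun v _ => card_image_le
        _ = _ := by rw [Finset.sum_const, card_range, smul_eq_mul]
    have h2 : ((enum N s).image negHead).card ≤ (enum N s).card := card_image_le
    have h3 : ((enum N s).image impHead).card ≤ (enum N s).card := card_image_le
    refine (card_union_le _ _).trans ?_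
    refine (Nat.add_le_add_right (card_union_le _ _) _).trans ?_
    nlinarith

theorem mem_enum {N s : ℕ} {l : List Fml} (hs : space l = s)
    (hl : ∀ A ∈ l, ∀ v ∈ A.vars, v < N) : l ∈ enum N s := by
  classical
  induction s generalizing l with
  | zero =>
    cases l with
    | nil => simp [enum]
    | cons A l =>
      rw [space_cons] at hs
      have := A.size_pos
      omega
  | succ s ih =>
    cases l with
    | nil => simp [space] at hs
    | cons A l =>
      rw [space_cons] at hs
      rw [enum]
      have hA := hl A (List.mem_cons_self ..)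
      have hl' : ∀ B ∈ l, ∀ v ∈ B.vars, v < N := fun B hB => hl B (List.mem_cons_of_mem _ hB)
      cases A with
      | var v =>
        apply mem_union_left
        apply mem_union_left
        rw [mem_biUnion]
        refine ⟨v, mem_range.2 (hA v (by simp [Fml.vars])), mem_image.2 ⟨l, ih ?_ hl', rfl⟩⟩
        simp only [Fml.size] at hs
        omega
      | neg A =>
        apply mem_union_left
        apply mem_union_right
        refine mem_image.2 ⟨A :: l, ih ?_ ?_, rfl⟩
        · rw [space_cons]
          simp only [Fml.size] at hs
          omega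
        · intro B hB
          rcases List.mem_cons.1 hB with rfl | hB
          · exact hA
          · exact hl' B hB
      | imp A B =>
        apply mem_union_right
        refine mem_image.2 ⟨A :: B :: l, ih ?_ ?_, rfl⟩
        · rw [space_cons, space_cons]
          simp only [Fml.size] at hs
          omega
        · intro C hC
          rcases List.mem_cons.1 hC with rfl | hC
          · exact fun v hv => hA v (mem_union_left _ hv)
          rcases List.mem_cons.1 hC with rfl | hC
          · exact fun v hv => hA v (mem_union_right _ hv)
          · exact hl' C hC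

open Classical in
/-- contains all lists of formulas of total size at most `s` with variables below `N` -/
noncomputable def enumLe (N s : ℕ) : Finset (List Fml) := (range (s + 1)).biUnion (enum N)

theorem mem_enumLe {N s : ℕ} {l : List Fml} (hs : space l ≤ s)
    (hl : ∀ A ∈ l, ∀ v ∈ A.vars, v < N) : l ∈ enumLe N s := by
  classical
  rw [enumLe, mem_biUnion]
  exact ⟨space l, mem_range.2 (by omega), mem_enum rfl hl⟩

theorem card_enumLe (N s : ℕ) : (enumLe N s).card ≤ (N + 2) ^ (2 * s) := by
  classical
  rw [enumLe]
  refine card_biUnion_le.trans ?_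
  calc ∑ u ∈ range (s + 1), (enum N u).card ≤ ∑ _u ∈ range (s + 1), (N + 2) ^ s := by
        apply Finset.sum_le_sum
        intro u hu
        rw [mem_range] at hu
        exact (card_enum N u).trans (Nat.pow_le_pow_right (by omega) (by omega))
    _ = (s + 1) * (N + 2) ^ s := by rw [Finset.sum_const, card_range, smul_eq_mul]
    _ ≤ (N + 2) ^ s * (N + 2) ^ s := by
        apply Nat.mul_le_mul_right
        have h1 : s + 1 ≤ 2 ^ s := Nat.lt_two_pow_self
        exact h1.trans (Nat.pow_le_pow_left (by omega) s)
    _ = _ := by rw [← pow_add]; congr 1; ring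

open Classical in
/-- the tuples at which all formulas of the memory `M` can be made true by some values of the
extension variables -/
noncomputable def memSet (k N : ℕ) (M : List Fml) : Finset (Fin k → (Fin N → Bool)) :=
  univ.filter fun x => ∃ v : ℕ → Bool, (∀ i : Fin k, choice N v i = x i) ∧ Sat v M

theorem mem_memSet {k N : ℕ} {M : List Fml} {x : Fin k → (Fin N → Bool)} :
    x ∈ memSet k N M ↔ ∃ v : ℕ → Bool, (∀ i : Fin k, choice N v i = x i) ∧ Sat v M := by
  simp [memSet]

theorem index_lt {k N : ℕ} (i : Fin k) (b : Fin N) : N * (i : ℕ) + (b : ℕ) < k * N := by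
  have h1 : N * ((i : ℕ) + 1) ≤ N * k := Nat.mul_le_mul_left _ i.2
  have h2 := b.2
  rw [Nat.mul_comm k N]
  rw [Nat.mul_add, Nat.mul_one] at h1
  omega

/-! ### Renaming the extension variables -/

/-- renaming of variables -/
def Fml.rename (ρ : ℕ → ℕ) : Fml → Fml
  | Fml.var i => Fml.var (ρ i)
  | Fml.neg A => Fml.neg (A.rename ρ)
  | Fml.imp A B => Fml.imp (A.rename ρ) (B.rename ρ)

theorem Fml.size_rename (ρ : ℕ → ℕ) (A : Fml) : (A.rename ρ).size = A.size := by
  induction A with
  | var i => rfl
  | neg A ih => simp only [Fml.rename, Fml.size, ih]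
  | imp A B ihA ihB => simp only [Fml.rename, Fml.size, ihA, ihB]

theorem Fml.eval_rename (ρ : ℕ → ℕ) (A : Fml) (v : ℕ → Bool) :
    (A.rename ρ).eval v = A.eval (v ∘ ρ) := by
  induction A with
  | var i => rfl
  | neg A ih => simp only [Fml.rename, Fml.eval, ih]
  | imp A B ihA ihB => simp only [Fml.rename, Fml.eval, ihA, ihB]

theorem Fml.vars_rename (ρ : ℕ → ℕ) (A : Fml) : (A.rename ρ).vars = A.vars.image ρ := by
  induction A with
  | var i => simp [Fml.rename, Fml.vars]
  | neg A ih => simp only [Fml.rename, Fml.vars, ih]
  | imp A B ihA ihB => simp only [Fml.rename, Fml.vars, ihA, ihB, image_union]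

/-- the variables of a list of formulas -/
def varsL : List Fml → Finset ℕ
  | [] => ∅
  | A :: l => A.vars ∪ varsL l

theorem vars_subset_varsL {l : List Fml} {A : Fml} (h : A ∈ l) : A.vars ⊆ varsL l := by
  induction l with
  | nil => simp at h
  | cons B l ih =>
    rcases List.mem_cons.1 h with rfl | h
    · exact subset_union_left
    · exact (ih h).trans subset_union_right

theorem card_varsL_le (l : List Fml) : (varsL l).card ≤ space l := by
  induction l with
  | nil => simp [varsL]
  | cons A l ih =>
    rw [space_cons, varsL]
    have := card_union_le A.vars (varsL l)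
    have := A.card_vars_le
    omega

theorem exists_small (k N s : ℕ) (M : List Fml) (hM : space M ≤ s) :
    ∃ M' : List Fml, space M' ≤ s ∧ (∀ A ∈ M', ∀ v ∈ A.vars, v < k * N + s) ∧
      memSet k N M' = memSet k N M := by
  classical
  set n := k * N with hn
  set V := varsL M with hV
  have hVs : V.card ≤ s := (card_varsL_le M).trans hM
  let ρ : ℕ → ℕ := fun v => if v < n then v else n + (V.filter (· < v)).card
  have hρn : ∀ v < n, ρ v = v := fun v hv => if_pos hv
  have hρge : ∀ v, n ≤ v → ρ v = n + (V.filter (· < v)).card := fun v hv =>
    if_neg (by omega)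
  have hρlt : ∀ v ∈ V, ρ v < n + s := by
    intro v hv
    by_cases h : v < n
    · rw [hρn v h]; omega
    · rw [hρge v (by omega)]
      have : (V.filter (· < v)).card < V.card := by
        apply card_lt_card
        rw [filter_ssubset]
        exact ⟨v, hv, by simp⟩
      omega
  have hmono : ∀ u ∈ V, ∀ v, n ≤ u → u < v → ρ u < ρ v := by
    intro u hu v hn huv
    rw [hρge u hn, hρge v (by omega)]
    have : (V.filter (· < u)).card < (V.filter (· < v)).card := by
      apply card_lt_card
      rw [Finset.ssubset_iff_of_subset]
      · exact ⟨u, mem_filter.2 ⟨hu, huv⟩, by simp⟩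
      · intro y hy
        rw [mem_filter] at hy ⊢
        exact ⟨hy.1, hy.2.trans huv⟩
    omega
  have hinj : ∀ u ∈ V, ∀ v ∈ V, ρ u = ρ v → u = v := by
    intro u hu v hv h
    by_cases h1 : u < n
    · by_cases h2 : v < n
      · rwa [hρn u h1, hρn v h2] at h
      · rw [hρn u h1, hρge v (by omega)] at h
        omega
    · by_cases h2 : v < n
      · rw [hρn v h2, hρge u (by omega)] at h
        omega
      · rcases lt_trichotomy u v with h3 | h3 | h3
        · exact absurd h (hmono u hu v (by omega) h3).ne
        · exact h3
        · exact absurd h (hmono v hv u (by omega) h3).ne'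
  refine ⟨M.map (Fml.rename ρ), ?_, ?_, ?_⟩
  · have : space (M.map (Fml.rename ρ)) = space M := by
      unfold space
      rw [List.map_map]
      congr 1
      apply List.map_congr_left
      intro A _
      exact Fml.size_rename ρ A
    rw [this]; exact hM
  · intro A hA v hv
    obtain ⟨B, hB, rfl⟩ := List.mem_map.1 hA
    rw [Fml.vars_rename, mem_image] at hv
    obtain ⟨u, hu, rfl⟩ := hv
    exact hρlt u (vars_subset_varsL hB hu)
  · ext x
    rw [mem_memSet, mem_memSet]
    constructor
    · rintro ⟨v, hvx, hv⟩
      refine ⟨v ∘ ρ, ?_, ?_⟩
      · intro i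
        rw [← hvx i]
        funext b
        simp only [choice, Function.comp]
        rw [hρn _ (index_lt i b)]
      · intro A hA
        have := hv _ (List.mem_map_of_mem hA)
        rwa [Fml.eval_rename] at this
    · rintro ⟨v, hvx, hv⟩
      refine ⟨fun j => if j < n then v j else
        if h : ∃ u, u ∈ V ∧ ρ u = j then v h.choose else false, ?_, ?_⟩
      · intro i
        rw [← hvx i]
        funext b
        simp only [choice]
        rw [if_pos (index_lt i b)]
      · intro A hA
        obtain ⟨B, hB, rfl⟩ := List.mem_map.1 hA
        rw [Fml.eval_rename, ← hv B hB]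
        apply Fml.eval_congr
        intro u hu
        have huV : u ∈ V := vars_subset_varsL hB hu
        rw [Function.comp]
        by_cases h1 : u < n
        · rw [hρn u h1, if_pos h1]
        · have h2 : ¬ (ρ u < n) := by
            rw [hρge u (by omega)]; omega
          rw [if_neg h2]
          have h3 : ∃ w, w ∈ V ∧ ρ w = ρ u := ⟨u, huV, rfl⟩
          rw [dif_pos h3]
          congr 1
          exact hinj _ h3.choose_spec.1 u huV h3.choose_spec.2

/-- the sets given by small memories -/
noncomputable def family (k N s : ℕ) : Finset (Finset (Fin k → (Fin N → Bool))) :=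
  (enumLe (k * N + s) s).image (memSet k N)

theorem card_family (k N s : ℕ) : (family k N s).card ≤ (k * N + s + 2) ^ (2 * s) :=
  card_image_le.trans (card_enumLe _ _)

theorem memSet_mem_family {k N s : ℕ} {M : List Fml} (hM : space M ≤ s) :
    memSet k N M ∈ family k N s := by
  obtain ⟨M', h1, h2, h3⟩ := exists_small k N s M hM
  rw [← h3]
  exact mem_image_of_mem _ (mem_enumLe h1 h2)

end Pool.Agent.MP_678664_lc.TimeSpace
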