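import Pool.Agent.Lib.MP_678664_lc_h37.Union

/-!
# The numerical part of the union bound
-/

namespace Pool.Agent.MP_678664_lc.TimeSpace

open Finset

/-- the constant in the density -/
noncomputable def c7 (k : ℕ) : ℝ :=
  16 * (k : ℝ) ^ 2 * 2 ^ k * (3 * (k : ℝ) ^ 2 + 13 * k + 9) / cc k ^ 3

/-- the density -/
noncomputable def dens (k N s : ℕ) : ℝ := 1 / (c7 k * ((N : ℝ) + 1) ^ 3 * s)

theorem c7_ge {k : ℕ} (hk : 2 ≤ k) : 1 / cc k ≤ c7 k ∧ 1 ≤ c7 k := by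
  have hcc := cc_pos k
  have hcc1 := cc_le k
  have hkR : (2 : ℝ) ≤ k := by exact_mod_cast hk
  have h1 : (1 : ℝ) ≤ 16 * (k : ℝ) ^ 2 * 2 ^ k * (3 * (k : ℝ) ^ 2 + 13 * k + 9) := by
    have h2 : (1 : ℝ) ≤ 2 ^ k := one_le_pow₀ (by norm_num)
    have h3 : (1 : ℝ) ≤ 16 * (k : ℝ) ^ 2 := by nlinarith
    have h4 : (1 : ℝ) ≤ 3 * (k : ℝ) ^ 2 + 13 * k + 9 := by nlinarith
    calc (1 : ℝ) = 1 * 1 * 1 := by ring
      _ ≤ 16 * (k : ℝ) ^ 2 * 2 ^ k * (3 * (k : ℝ) ^ 2 + 13 * k + 9) :=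
        mul_le_mul (mul_le_mul h3 h2 (by norm_num) (by positivity)) h4 (by norm_num)
          (by positivity)
  have h2 : 1 / cc k ≤ 1 / cc k ^ 3 := by
    apply one_div_le_one_div_of_le (by positivity)
    calc cc k ^ 3 ≤ cc k ^ 1 := pow_le_pow_of_le_one hcc.le (by linarith) (by norm_num)
      _ = cc k := pow_one _
  have h3 : 1 / cc k ^ 3 ≤ c7 k := by
    unfold c7
    apply div_le_div_of_nonneg_right h1 (by positivity)
  have h4 : 1 ≤ 1 / cc k := by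
    rw [le_div_iff₀ hcc]; linarith
  exact ⟨h2.trans h3, h4.trans (h2.trans h3)⟩

theorem dens_pos {k : ℕ} (hk : 2 ≤ k) (N : ℕ) {s : ℕ} (hs : 1 ≤ s) : 0 < dens k N s := by
  have h1 := (c7_ge hk).2
  have h2 : (1 : ℝ) ≤ s := by exact_mod_cast hs
  unfold dens
  positivity

theorem dens_sq {k : ℕ} (hk : 2 ≤ k) (N : ℕ) {s : ℕ} (hs : 1 ≤ s) :
    (s : ℝ) ^ 2 * dens k N s ^ 2 < cc k := by
  have hcc := cc_pos k
  have hcc1 := cc_le k
  obtain ⟨h1, h2⟩ := c7_ge hk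
  have hsR : (1 : ℝ) ≤ s := by exact_mod_cast hs
  have h3 : (s : ℝ) * dens k N s ≤ 1 / c7 k := by
    unfold dens
    have hX : (1 : ℝ) ≤ ((N : ℝ) + 1) ^ 3 := one_le_pow₀ (by
      have : (0 : ℝ) ≤ N := Nat.cast_nonneg _
      linarith)
    rw [mul_one_div, div_le_div_iff₀ (by positivity) (by positivity)]
    have h4 : c7 k ≤ c7 k * ((N : ℝ) + 1) ^ 3 := le_mul_of_one_le_right (by linarith) hX
    calc (s : ℝ) * c7 k ≤ s * (c7 k * ((N : ℝ) + 1) ^ 3) :=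
          mul_le_mul_of_nonneg_left h4 (by linarith)
      _ = 1 * (c7 k * ((N : ℝ) + 1) ^ 3 * s) := by ring
  have h4 : 1 / c7 k ≤ cc k := by
    rw [div_le_iff₀ (by linarith)]
    rw [div_le_iff₀ hcc] at h1
    linarith
  have h5 : 0 ≤ (s : ℝ) * dens k N s := by
    have := dens_pos hk N hs
    positivity
  have h6 : (s : ℝ) * dens k N s ≤ cc k := h3.trans h4
  calc (s : ℝ) ^ 2 * dens k N s ^ 2 = ((s : ℝ) * dens k N s) * ((s : ℝ) * dens k N s) := by ring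
    _ ≤ cc k * cc k := mul_le_mul h6 h6 h5 hcc.le
    _ ≤ cc k * (1 / 2) := mul_le_mul_of_nonneg_left hcc1 hcc.le
    _ < cc k := by linarith

/-- the logarithm of the number of events -/
def expo (k N s : ℕ) : ℕ :=
  k * (N + 1) + (2 + 2 * s * ((k + 2) * (N + 1)) + k * N) * (k * (N + 1) + 1) + 3 * k

theorem count_le {k N s q : ℕ} (hs' : s ≤ 2 ^ N)
    (hq : q ≤ (k * N + s + 2) ^ (2 * s)) :
    (k * (N + 1) + 1) * (2 * q * ((2 ^ N) ^ k + 1)) ^ (k * (N + 1) + 1) * 8 ^ k ≤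
      2 ^ expo k N s := by
  have h1 : k * N + s + 2 ≤ 2 ^ ((k + 2) * (N + 1)) := by
    have h2 : (k + 2) * (N + 1) = k * N + (N + k + 2 + N) := by ring
    rw [h2, pow_add]
    have h3 : k * N + 1 ≤ 2 ^ (k * N) := Nat.lt_two_pow_self
    have h4 : 2 ^ (N + k + 2 + N) = 4 * 2 ^ N * 2 ^ (k + N) := by
      rw [show N + k + 2 + N = 2 + N + (k + N) by ring, pow_add, pow_add]; norm_num
    have h5 : 1 ≤ 2 ^ (k + N) := Nat.one_le_two_pow
    have h6 : 1 ≤ 2 ^ N := Nat.one_le_two_pow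
    rw [h4]
    have h7 : k * N * 1 ≤ k * N * 2 ^ N := Nat.mul_le_mul_left _ h6
    have h8 : (k * N + 1) * (4 * 2 ^ N * 1) = 4 * (k * N * 2 ^ N) + 4 * 2 ^ N := by ring
    calc k * N + s + 2 ≤ (k * N + 1) * (4 * 2 ^ N * 1) := by rw [h8]; omega
      _ ≤ 2 ^ (k * N) * (4 * 2 ^ N * 2 ^ (k + N)) :=
        Nat.mul_le_mul h3 (Nat.mul_le_mul_left _ h5)
  have h2 : q ≤ 2 ^ (2 * s * ((k + 2) * (N + 1))) := by
    refine hq.trans ((Nat.pow_le_pow_left h1 _).trans (le_of_eq ?_))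
    rw [← pow_mul]; congr 1; ring
  have h3 : (2 ^ N) ^ k + 1 ≤ 2 ^ (k * N + 1) := by
    rw [← pow_mul, mul_comm N k, pow_succ]
    have : 1 ≤ 2 ^ (k * N) := Nat.one_le_two_pow
    omega
  have h4 : 2 * q * ((2 ^ N) ^ k + 1) ≤ 2 ^ (2 + 2 * s * ((k + 2) * (N + 1)) + k * N) := by
    calc 2 * q * ((2 ^ N) ^ k + 1) ≤ 2 * 2 ^ (2 * s * ((k + 2) * (N + 1))) * 2 ^ (k * N + 1) :=
          Nat.mul_le_mul (Nat.mul_le_mul_left _ h2) h3
      _ = _ := by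
          rw [show 2 + 2 * s * ((k + 2) * (N + 1)) + k * N =
            1 + 2 * s * ((k + 2) * (N + 1)) + (k * N + 1) by ring,
            pow_add 2 (1 + 2 * s * ((k + 2) * (N + 1))) (k * N + 1),
            pow_add 2 1 (2 * s * ((k + 2) * (N + 1))), pow_one]
  have h5 : k * (N + 1) + 1 ≤ 2 ^ (k * (N + 1)) := Nat.lt_two_pow_self
  calc (k * (N + 1) + 1) * (2 * q * ((2 ^ N) ^ k + 1)) ^ (k * (N + 1) + 1) * 8 ^ k
      ≤ 2 ^ (k * (N + 1)) *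
        (2 ^ (2 + 2 * s * ((k + 2) * (N + 1)) + k * N)) ^ (k * (N + 1) + 1) * 8 ^ k :=
        Nat.mul_le_mul_right _ (Nat.mul_le_mul h5 (Nat.pow_le_pow_left h4 _))
    _ = _ := by
        rw [← pow_mul 2 (2 + 2 * s * ((k + 2) * (N + 1)) + k * N) (k * (N + 1) + 1),
          show (8 : ℕ) = 2 ^ 3 by norm_num, ← pow_mul 2 3 k, ← pow_add, ← pow_add, expo]

theorem exp_le {x : ℝ} {m : ℕ} (h : (m : ℝ) ≤ x) : Real.exp (-x) ≤ (1 / 2) ^ m := by
  have h1 : Real.exp (-x) ≤ Real.exp (-(m : ℝ)) := Real.exp_le_exp.2 (by linarith)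
  have h2 : Real.exp (-(m : ℝ)) = (Real.exp (-1)) ^ m := by
    rw [← Real.exp_nat_mul]; congr 1; ring
  have h3 : Real.exp (-1) ≤ 1 / 2 := by
    rw [Real.exp_neg, one_div]
    apply inv_anti₀ (by norm_num)
    have := Real.add_one_le_exp (1 : ℝ)
    linarith
  rw [h2] at h1
  exact h1.trans (pow_le_pow_left₀ (Real.exp_pos _).le h3 m)

theorem expo_le {k N s : ℕ} (hk : 2 ≤ k) (hs : 1 ≤ s) :
    ((expo k N s + s + 2 : ℕ) : ℝ) ≤
      cc k ^ 3 / (8 * k * (2 ^ k * (2 * ((k * (N + 1) : ℕ) : ℝ))) * dens k N s) := by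
  have hcc := cc_pos k
  have hkR : (2 : ℝ) ≤ k := by exact_mod_cast hk
  have hsR : (1 : ℝ) ≤ s := by exact_mod_cast hs
  have hN0 : (0 : ℝ) ≤ N := Nat.cast_nonneg _
  -- the right-hand side
  have h1 : cc k ^ 3 / (8 * k * (2 ^ k * (2 * ((k * (N + 1) : ℕ) : ℝ))) * dens k N s) =
      ((N : ℝ) + 1) ^ 2 * s * (3 * (k : ℝ) ^ 2 + 13 * k + 9) := by
    unfold dens c7
    have hkp : (0 : ℝ) < k := by linarith
    have hX : (0 : ℝ) < (N : ℝ) + 1 := by linarith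
    have hs0 : (0 : ℝ) < s := by linarith
    have hD : (0 : ℝ) < 3 * (k : ℝ) ^ 2 + 13 * k + 9 := by positivity
    push_cast
    field_simp
    ring
  rw [h1]
  have h2 : ((expo k N s + s + 2 : ℕ) : ℝ) = k * ((N : ℝ) + 1) +
      (2 + 2 * s * ((k + 2) * ((N : ℝ) + 1)) + k * N) * (k * ((N : ℝ) + 1) + 1) + 3 * k + s + 2 := by
    unfold expo
    push_cast
    ring
  rw [h2]
  set X : ℝ := (N : ℝ) + 1 with hX
  have hX1 : 1 ≤ X := by linarith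
  have hkX : (k : ℝ) * N ≤ k * X := by nlinarith
  -- products with `X, s ≥ 1`
  have hXs : 1 ≤ X * s := by nlinarith
  have hXX : X ≤ X ^ 2 * s := by nlinarith
  have hX2s : 1 ≤ X ^ 2 * s := by nlinarith
  have hsX : (s : ℝ) ≤ X ^ 2 * s := by nlinarith
  have h3 : (2 + 2 * s * (((k : ℝ) + 2) * X) + k * N) ≤ (X * s) * (3 * k + 6) := by
    have h4 : (k : ℝ) * N ≤ X * s * k := by
      calc (k : ℝ) * N ≤ k * X := hkX
        _ ≤ k * X * s := le_mul_of_one_le_right (by positivity) hsR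
        _ = X * s * k := by ring
    nlinarith
  have h4 : (k : ℝ) * X + 1 ≤ X * (k + 1) := by nlinarith
  have h5 : (2 + 2 * s * (((k : ℝ) + 2) * X) + k * N) * ((k : ℝ) * X + 1) ≤
      ((X * s) * (3 * k + 6)) * (X * (k + 1)) :=
    mul_le_mul h3 h4 (by positivity) (by positivity)
  have h6 : ((X * s) * (3 * (k : ℝ) + 6)) * (X * (k + 1)) =
      (X ^ 2 * s) * (3 * k ^ 2 + 9 * k + 6) := by ring
  have h7 : (k : ℝ) * X ≤ k * (X ^ 2 * s) := mul_le_mul_of_nonneg_left hXX (by linarith)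
  have h8 : 3 * (k : ℝ) ≤ 3 * k * (X ^ 2 * s) := by nlinarith
  nlinarith

/-- the numerical condition of the union bound -/
theorem numeric {k N s q : ℕ} (hk : 2 ≤ k) (hs : 1 ≤ s) (hs' : s ≤ 2 ^ N)
    (hq : q ≤ (k * N + s + 2) ^ (2 * s)) :
    (((k * (N + 1) + 1) * (2 * q * ((2 ^ N) ^ k + 1)) ^ (k * (N + 1) + 1) * 8 ^ k : ℕ) : ℝ) *
      (2 * Real.exp (-(cc k ^ 3 / (8 * k * (2 ^ k * (2 * ((k * (N + 1) : ℕ) : ℝ))) *
        dens k N s)))) ≤ (1 / 2) ^ (s + 1) := by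
  have h1 : (((k * (N + 1) + 1) * (2 * q * ((2 ^ N) ^ k + 1)) ^ (k * (N + 1) + 1) * 8 ^ k : ℕ) :
      ℝ) ≤ 2 ^ expo k N s := by
    have := count_le hs' hq
    exact_mod_cast this
  have h2 := exp_le (expo_le (N := N) hk hs)
  calc _ ≤ (2 : ℝ) ^ expo k N s * (2 * (1 / 2) ^ (expo k N s + s + 2)) :=
        mul_le_mul h1 (mul_le_mul_of_nonneg_left h2 (by norm_num)) (by positivity)
          (by positivity)
    _ = (2 * (1 / 2)) ^ expo k N s * (1 / 2) ^ (s + 1) := by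
        rw [mul_pow, pow_add, pow_add, pow_succ (1 / 2 : ℝ) s]
        ring
    _ = (1 / 2) ^ (s + 1) := by norm_num

end Pool.Agent.MP_678664_lc.TimeSpace
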