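import Pool.Agent.Lib.MP_678664_lc_h37.Defs

/-!
# The upper bound: search through the tuples of groups of vertices
-/

namespace Pool.Agent.MP_678664_lc.TimeSpace

open Finset

/-- a true formula -/
def tru : Fml := Fml.imp (Fml.var 0) (Fml.var 0)

/-- the number with the binary digits `v a`, `a ∈ l` -/
def val (v : ℕ → Bool) : List ℕ → ℕ
  | [] => 0
  | a :: l => (if v a then 2 ^ l.length else 0) + val v l

/-- the formula which says that the number is at least `t` -/
def ge : List ℕ → ℕ → Fml
  | [], t => if t = 0 then tru else Fml.neg tru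
  | a :: l, t => if t < 2 ^ l.length then Fml.imp (Fml.neg (Fml.var a)) (ge l t)
      else Fml.neg (Fml.imp (Fml.var a) (Fml.neg (ge l (t - 2 ^ l.length))))

theorem val_lt (v : ℕ → Bool) (l : List ℕ) : val v l < 2 ^ l.length := by
  induction l with
  | nil => simp [val]
  | cons a l ih =>
    rw [val, List.length_cons, pow_succ]
    split_ifs <;> omega

theorem eval_ge (v : ℕ → Bool) (l : List ℕ) (t : ℕ) :
    (ge l t).eval v = true ↔ t ≤ val v l := by
  induction l generalizing t with
  | nil =>
    rw [ge, val]
    by_cases ht : t = 0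
    · rw [if_pos ht]
      simp [tru, Fml.eval, ht]
    · rw [if_neg ht]
      simp [tru, Fml.eval, ht]
  | cons a l ih =>
    rw [ge, val]
    have hlt := val_lt v l
    by_cases ht : t < 2 ^ l.length
    · rw [if_pos ht]
      by_cases ha : v a = true
      · simp only [Fml.eval, ha, if_true, Bool.not_true, Bool.not_false, Bool.true_or, true_iff]
        omega
      · rw [Bool.not_eq_true] at ha
        simp only [Fml.eval, ha, Bool.not_false, Bool.not_true, Bool.false_or,
          Bool.false_eq_true, if_false]
        rw [ih]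
        omega
    · rw [if_neg ht]
      by_cases ha : v a = true
      · simp only [Fml.eval, ha, if_true, Bool.not_true, Bool.false_or, Bool.not_not]
        rw [ih]
        omega
      · rw [Bool.not_eq_true] at ha
        simp only [Fml.eval, ha, Bool.not_false, Bool.true_or, Bool.not_true,
          Bool.false_eq_true, if_false, false_iff]
        omega

theorem size_ge (l : List ℕ) (t : ℕ) : (ge l t).size ≤ 4 * l.length + 4 := by
  induction l generalizing t with
  | nil =>
    rw [ge]
    split_ifs <;> simp [tru, Fml.size]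
  | cons a l ih =>
    rw [ge, List.length_cons]
    split_ifs
    · have := ih t
      simp only [Fml.size]
      omega
    · have := ih (t - 2 ^ l.length)
      simp only [Fml.size]
      omega

theorem val_inj {v v' : ℕ → Bool} {l : List ℕ} (h : val v l = val v' l) :
    ∀ a ∈ l, v a = v' a := by
  induction l with
  | nil => intro a ha; simp at ha
  | cons a l ih =>
    rw [val, val] at h
    have h1 := val_lt v l
    have h2 := val_lt v' l
    have h3 : v a = v' a ∧ val v l = val v' l := by
      cases hv : v a <;> cases hv' : v' a <;>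
        simp only [hv, hv', Bool.false_eq_true, if_true, if_false] at h ⊢ <;>
        first
          | exact ⟨trivial, by omega⟩
          | (exfalso; omega)
    intro b hb
    rcases List.mem_cons.1 hb with rfl | hb
    · exact h3.1
    · exact ih h3.2 b hb

/-- the variables which name the groups of the chosen vertices -/
def names (k N h : ℕ) : List ℕ :=
  (List.range k).flatMap fun i => (List.range (N - h)).map fun b => N * i + (h + b)

theorem length_names (k N h : ℕ) : (names k N h).length = k * (N - h) := by
  simp [names, List.length_flatMap]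

theorem mem_names {k N h : ℕ} (i : Fin k) (b : Fin N) (hb : h ≤ b) :
    N * (i : ℕ) + b ∈ names k N h := by
  rw [names, List.mem_flatMap]
  refine ⟨i, List.mem_range.2 i.2, ?_⟩
  rw [List.mem_map]
  refine ⟨b - h, List.mem_range.2 ?_, ?_⟩
  · have := b.2
    omega
  · congr 1
    omega

open Classical in
/-- the vertices of the `t`-th tuple of groups -/
noncomputable def verts (k N h t : ℕ) : Finset (Fin k × (Fin N → Bool)) :=
  univ.filter fun p => ∃ v : ℕ → Bool, val v (names k N h) = t ∧ choice N v p.1 = p.2

theorem card_verts {k N h : ℕ} (hh : h ≤ N) (t : ℕ) : (verts k N h t).card ≤ k * 2 ^ h := by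
  classical
  have h1 : (verts k N h t).card ≤ (univ : Finset (Fin k × (Fin h → Bool))).card := by
    refine Finset.card_le_card_of_injOn
      (fun p => (p.1, fun b : Fin h => p.2 ⟨b, lt_of_lt_of_le b.2 hh⟩))
      (fun _ _ => mem_coe.2 (mem_univ _)) ?_
    rintro ⟨i, u⟩ hp ⟨i', u'⟩ hp' heq
    simp only [Prod.mk.injEq] at heq
    obtain ⟨rfl, hlow⟩ := heq
    rw [mem_coe, verts, mem_filter] at hp hp'
    obtain ⟨-, v, hv, hu⟩ := hp
    obtain ⟨-, v', hv', hu'⟩ := hp'
    simp only at hu hu'
    subst hu
    subst hu'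
    have hval := val_inj (hv.trans hv'.symm)
    congr 1
    funext b
    by_cases hb : (b : ℕ) < h
    · have := congrFun hlow ⟨b, hb⟩
      exact this
    · exact hval _ (mem_names i b (not_lt.1 hb))
  refine h1.trans (le_of_eq ?_)
  rw [card_univ, Fintype.card_prod, Fintype.card_fun, Fintype.card_fin, Fintype.card_fin,
    Fintype.card_bool]

/-- the search through the groups is a refutation -/
theorem search {k N h s : ℕ} (hh : h ≤ N) (hs1 : k * 2 ^ h ≤ s) (hs2 : 4 * (k * N) + 4 ≤ s)
    (G : SimpleGraph (Fin k × (Fin N → Bool))) (hG : G.CliqueFree k) :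
    ∃ M : ℕ → List Fml, IsRefutation G s (2 ^ (k * (N - h))) M := by
  classical
  refine ⟨fun t => if t = 0 then [] else [ge (names k N h) t], ?_, ?_, ?_, ?_⟩
  · simp
  · intro v hv
    have hne : 2 ^ (k * (N - h)) ≠ 0 := by positivity
    rw [if_neg hne] at hv
    have h1 := (eval_ge v (names k N h) (2 ^ (k * (N - h)))).1
      (hv _ (List.mem_singleton_self _))
    have h2 := val_lt v (names k N h)
    rw [length_names] at h2
    omega
  · intro t _
    by_cases ht : t = 0
    · simp [ht, space]
    · rw [if_neg ht]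
      have h1 := size_ge (names k N h) t
      rw [length_names] at h1
      have h2 : k * (N - h) ≤ k * N := Nat.mul_le_mul_left _ (Nat.sub_le _ _)
      simp only [space, List.map_cons, List.map_nil, List.sum_cons, List.sum_nil]
      omega
  · intro t _
    left
    refine ⟨(verts k N h t ×ˢ verts k N h t).filter fun e => NonEdge G e, ?_, ?_, ?_⟩
    · refine (card_filter_le _ _).trans ?_
      rw [card_product, sq]
      have h1 := (card_verts (k := k) hh t).trans hs1
      exact Nat.mul_le_mul h1 h1
    · intro e he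
      exact (mem_filter.1 he).2
    · intro v hv hcl
      have hge : t ≤ val v (names k N h) := by
        by_cases ht : t = 0
        · omega
        · rw [if_neg ht] at hv
          exact (eval_ge v (names k N h) t).1 (hv _ (List.mem_singleton_self _))
      rw [if_neg (by omega : t + 1 ≠ 0)]
      intro A hA
      rw [List.mem_singleton] at hA
      rw [hA, eval_ge]
      by_contra hlt
      have heq : val v (names k N h) = t := by omega
      -- the chosen vertices form a clique
      let x : Fin k ↪ Fin k × (Fin N → Bool) :=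
        ⟨fun i => (i, choice N v i), fun i j hij => congrArg Prod.fst hij⟩
      apply hG (univ.map x)
      rw [SimpleGraph.isNClique_iff]
      refine ⟨?_, by simp⟩
      intro p hp q hq hpq
      rw [coe_map] at hp hq
      obtain ⟨i, -, rfl⟩ := hp
      obtain ⟨j, -, rfl⟩ := hq
      by_contra hadj
      have hij : i ≠ j := fun h => hpq (by rw [h])
      have hmem : ∀ i : Fin k, x i ∈ verts k N h t := by
        intro i
        rw [verts, mem_filter]
        exact ⟨mem_univ _, v, heq, rfl⟩
      have := hcl (x i, x j) (mem_filter.2 ⟨mem_product.2 ⟨hmem i, hmem j⟩, hij, hadj⟩)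
      exact this ⟨rfl, rfl⟩

/-- the upper bound -/
theorem upper {k N C s : ℕ} (hk : 2 ≤ k) (hC : 4 * k ≤ C)
    (G : SimpleGraph (Fin k × (Fin N → Bool))) (hG : G.CliqueFree k)
    (hs : C * (N + 1) ≤ s) (hs' : s ≤ 2 ^ N) :
    ∃ (L : ℕ) (M : ℕ → List Fml), IsRefutation G s L M ∧ L * s ^ k ≤ (C * 2 ^ N) ^ k := by
  have hCs : C ≤ s := le_trans (Nat.le_mul_of_pos_right _ (by omega)) hs
  have hsk : 1 ≤ s / k := (Nat.one_le_div_iff (by omega)).2 (by omega)
  set h := Nat.log 2 (s / k) with hh
  have h1 : 2 ^ h ≤ s / k := Nat.pow_log_le_self 2 (by omega)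
  have h2 : s / k < 2 ^ (h + 1) := Nat.lt_pow_succ_log_self (by norm_num) _
  have h3 : h ≤ N := by
    have h4 : 2 ^ h ≤ 2 ^ N := h1.trans ((Nat.div_le_self _ _).trans hs')
    exact (Nat.pow_le_pow_iff_right (by norm_num)).1 h4
  have h4 : k * 2 ^ h ≤ s := by
    calc k * 2 ^ h ≤ k * (s / k) := Nat.mul_le_mul_left _ h1
      _ ≤ s := Nat.mul_div_le _ _
  have h5 : s < k * 2 ^ (h + 1) := by
    rw [Nat.div_lt_iff_lt_mul (by omega)] at h2
    rw [mul_comm]
    exact h2
  have h6 : 4 * (k * N) + 4 ≤ s := by
    have h7 : 4 * k * (N + 1) ≤ C * (N + 1) := Nat.mul_le_mul_right _ hC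
    have h8 : 4 * k * (N + 1) = 4 * (k * N) + 4 * k := by ring
    omega
  obtain ⟨M, hM⟩ := search h3 h4 h6 G hG
  refine ⟨_, M, hM, ?_⟩
  have h7 : 2 ^ (k * (N - h)) = (2 ^ (N - h)) ^ k := by rw [← pow_mul, mul_comm]
  rw [h7, ← mul_pow]
  apply Nat.pow_le_pow_left
  have h8 : 2 ^ N = 2 ^ (N - h) * 2 ^ h := by rw [← pow_add]; congr 1; omega
  calc 2 ^ (N - h) * s ≤ 2 ^ (N - h) * (k * 2 ^ (h + 1)) := Nat.mul_le_mul_left _ h5.le
    _ = 2 * k * (2 ^ (N - h) * 2 ^ h) := by rw [pow_succ]; ring
    _ = 2 * k * 2 ^ N := by rw [← h8]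
    _ ≤ C * 2 ^ N := Nat.mul_le_mul_right _ (by omega)

end Pool.Agent.MP_678664_lc.TimeSpace
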