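import Pool.Agent.Lib.MP_678664_lc_h37.Descent
import Pool.Agent.Lib.MP_678664_lc_h37.Enum
import Pool.Agent.Lib.MP_678664_lc_h37.Numeric
import Pool.Agent.Lib.MP_678664_lc_h37.Upper

/-!
# The graph and the trade-off
-/

namespace Pool.Agent.MP_678664_lc.TimeSpace

open Finset

variable {k N : ℕ}

/-- the graph of a labeling -/
def graph {B : Type} (ω : Lab k B) : SimpleGraph (Fin k × B) where
  Adj p q := p.1 ≠ q.1 ∧ ω p q.1 = ω q p.1
  symm := ⟨fun _ _ h => ⟨h.1.symm, h.2.symm⟩⟩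
  loopless := ⟨fun _ h => h.1 rfl⟩

theorem graph_cliqueFree {B : Type} (hk : 0 < k) {ω : Lab k B} (hω : Valid ω) :
    (graph ω).CliqueFree k := by
  classical
  intro s hs
  rw [SimpleGraph.isNClique_iff] at hs
  obtain ⟨hc, hcard⟩ := hs
  have hinj : Set.InjOn (fun p : Fin k × B => p.1) (s : Set (Fin k × B)) := by
    intro p hp q hq hpq
    by_contra hne
    exact (hc hp hq hne).1 hpq
  have himg : s.image (fun p : Fin k × B => p.1) = univ := by
    apply eq_univ_of_card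
    rw [card_image_of_injOn hinj, hcard, Fintype.card_fin]
  have hex : ∀ i : Fin k, ∃ v : B, (i, v) ∈ s := by
    intro i
    have hi : i ∈ s.image (fun p : Fin k × B => p.1) := by rw [himg]; exact mem_univ _
    rw [mem_image] at hi
    obtain ⟨⟨j, v⟩, hp, rfl⟩ := hi
    exact ⟨v, hp⟩
  choose x hx using hex
  apply no_clique hk hω x
  intro i j hji
  have hne : (i, x i) ≠ (j, x j) := fun h => hji (congrArg Prod.fst h).symm
  exact (hc (hx i) (hx j) hne).2

theorem Fml.space_nil_of_zero {M : List Fml} (h : space M ≤ 0) : M = [] := by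
  cases M with
  | nil => rfl
  | cons A l =>
    rw [space_cons] at h
    have := A.size_pos
    omega

theorem IsRefutation.space_pos {G : SimpleGraph (Fin k × (Fin N → Bool))} {s L : ℕ}
    {M : ℕ → List Fml} (h : IsRefutation G s L M) : 1 ≤ s := by
  by_contra hs
  have h0 : M L = [] := Fml.space_nil_of_zero ((h.space_le L le_rfl).trans (by omega))
  exact h.final (fun _ => false) (by rw [h0]; intro A hA; simp at hA)

theorem IsRefutation.length_pos {G : SimpleGraph (Fin k × (Fin N → Bool))} {s L : ℕ}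
    {M : ℕ → List Fml} (h : IsRefutation G s L M) : 1 ≤ L := by
  by_contra hL
  have h0 : M L = [] := by
    rw [show L = 0 by omega]
    exact h.start
  exact h.final (fun _ => false) (by rw [h0]; intro A hA; simp at hA)

theorem index_inj {N i j : ℕ} {b c : Fin N} (h : N * i + (b : ℕ) = N * j + c) :
    i = j ∧ b = c := by
  have hb := b.2
  have hc := c.2
  have h2 : i = j := by
    rcases lt_trichotomy i j with h3 | h3 | h3
    · have : N * (i + 1) ≤ N * j := Nat.mul_le_mul_left _ h3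
      rw [Nat.mul_add] at this
      omega
    · exact h3
    · have : N * (j + 1) ≤ N * i := Nat.mul_le_mul_left _ h3
      rw [Nat.mul_add] at this
      omega
  subst h2
  exact ⟨rfl, Fin.ext (by omega)⟩

/-- an assignment which chooses the vertices of `x` -/
theorem exists_assignment (x : Fin k → (Fin N → Bool)) :
    ∃ v : ℕ → Bool, ∀ i : Fin k, choice N v i = x i := by
  classical
  refine ⟨fun m => if h : ∃ p : Fin k × Fin N, N * (p.1 : ℕ) + p.2 = m then
    x h.choose.1 h.choose.2 else false, ?_⟩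
  intro i
  funext b
  simp only [choice]
  have hex : ∃ p : Fin k × Fin N, N * (p.1 : ℕ) + p.2 = N * (i : ℕ) + b := ⟨(i, b), rfl⟩
  rw [dif_pos hex]
  obtain ⟨h1, h2⟩ := index_inj hex.choose_spec
  rw [Fin.ext h1, h2]

/-- the memory sets of a refutation -/
theorem refutation_bound (hk : 2 ≤ k) {θ : ℝ} (hθ : 0 < θ) {K₀ : ℕ} (hK₀ : 1 ≤ K₀) {s L ℓ : ℕ}
    {ω : Lab k (Fin N → Bool)} (hnice : Nice θ (2 ^ k * (2 * K₀)) K₀ (family k N s) ω)
    (hs : (s : ℝ) ^ 2 * θ ^ 2 < cc k) (hℓ : ℓ ≤ K₀) (hL : L ≤ 2 ^ ℓ) {M : ℕ → List Fml}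
    (hM : IsRefutation (graph ω) s L M) :
    (cc k / 2 * θ * (2 : ℝ) ^ N) ^ k ≤ 8 * (2 : ℝ) ^ ℓ ∨
    cc k ^ 2 * (cc k / 2 * θ) ^ (k - 2) * ((2 : ℝ) ^ N) ^ k ≤
      8 * (2 ^ k * (2 * K₀)) * (s : ℝ) ^ 2 * (2 : ℝ) ^ ℓ := by
  classical
  have h := descent hk hθ hK₀ hnice hs hℓ (fun c => memSet k N (M (min c L))) ?_ ?_ ?_ ?_
  · rw [Fintype.card_fun, Fintype.card_fin, Fintype.card_bool] at h
    push_cast at h
    exact h
  · intro c
    exact memSet_mem_family (hM.space_le _ (min_le_right _ _))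
  · ext x
    simp only [Nat.zero_min, hM.start, mem_univ, iff_true]
    rw [mem_memSet]
    obtain ⟨v, hv⟩ := exists_assignment x
    exact ⟨v, hv, fun A hA => by simp at hA⟩
  · ext x
    simp only [min_eq_right hL, notMem_empty, iff_false]
    rw [mem_memSet]
    rintro ⟨v, _, hv⟩
    exact hM.final v hv
  · intro a
    by_cases ha : a < L
    swap
    · refine ⟨∅, by simp, by simp, ?_⟩
      intro x hx hx'
      exfalso
      apply hx'
      rw [min_eq_right (by omega)] at hx ⊢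
      exact hx
    have h1 : min a L = a := min_eq_left (by omega)
    have h2 : min (a + 1) L = a + 1 := min_eq_left (by omega)
    simp only [h1, h2]
    rcases hM.step a ha with ⟨S, hS, hSne, hstep⟩ | ⟨q, D, hq, hqD, hqM, hM'⟩
    · refine ⟨S, hS, ?_, ?_⟩
      · intro e he
        obtain ⟨h3, h4⟩ := hSne e he
        exact ⟨h3, fun h5 => h4 ⟨h3, h5⟩⟩
      · intro x hx hx'
        rw [mem_memSet] at hx hx'
        obtain ⟨v, hvx, hv⟩ := hx
        by_contra hcon
        push Not at hcon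
        apply hx'
        refine ⟨v, hvx, hstep v hv ?_⟩
        intro e he hboth
        rw [hvx, hvx] at hboth
        exact hcon e he hboth.1 hboth.2
    · refine ⟨∅, by simp, by simp, ?_⟩
      intro x hx hx'
      exfalso
      rw [mem_memSet] at hx hx'
      obtain ⟨v, hvx, hv⟩ := hx
      apply hx'
      refine ⟨Function.update v q (D.eval v), ?_, ?_⟩
      · intro i
        rw [← hvx i]
        funext b
        have hi := index_lt i b
        simp only [choice]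
        rw [Function.update_of_ne (by omega)]
      · have hupd : ∀ A : Fml, q ∉ A.vars → A.eval (Function.update v q (D.eval v)) = A.eval v := by
          intro A hA
          apply Fml.eval_congr
          intro j hj
          rw [Function.update_of_ne]
          rintro rfl
          exact hA hj
        intro A hA
        rcases hM' A hA with h | rfl
        · rw [hupd A (hqM A h)]
          exact hv A h
        · simp only [Fml.iff, Fml.eval, hupd D hqD, Function.update_self]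
          cases D.eval v <;> rfl

/-- the labeling -/
theorem exists_labeling (hk : 2 ≤ k) (N : ℕ) :
    ∃ ω : Lab k (Fin N → Bool), Valid ω ∧ ∀ s, 1 ≤ s → s ≤ 2 ^ N →
      Nice (dens k N s) (2 ^ k * (2 * ((k * (N + 1) : ℕ) : ℝ))) (k * (N + 1))
        (family k N s) ω := by
  classical
  have hK : (1 : ℝ) ≤ ((k * (N + 1) : ℕ) : ℝ) := by
    have : 1 ≤ k * (N + 1) := Nat.mul_pos (by omega) (by omega)
    exact_mod_cast this
  have hlam : (1 : ℝ) ≤ 2 ^ k * (2 * ((k * (N + 1) : ℕ) : ℝ)) := by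
    have h1 : (1 : ℝ) ≤ 2 ^ k := one_le_pow₀ (by norm_num)
    nlinarith
  obtain ⟨ω, hω, hnice⟩ := exists_nice (B := Fin N → Bool) hk (2 ^ N) (k * (N + 1))
    (fun s => dens k N (max s 1)) (fun _ => 2 ^ k * (2 * ((k * (N + 1) : ℕ) : ℝ)))
    (fun s => dens_pos hk N (le_max_right _ _)) (fun _ => hlam) (fun s => family k N s) (by
      intro s hs hs'
      have h := numeric (N := N) hk hs hs' (card_family k N s)
      rw [Fintype.card_fun, Fintype.card_fin, Fintype.card_bool, max_eq_left hs]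
      exact h)
  refine ⟨ω, hω, ?_⟩
  intro s hs hs'
  have h := hnice s hs hs'
  simp only [max_eq_left hs] at h
  exact h

theorem num_A {k L : ℕ} (hk : 2 ≤ k) {c c7 D E n X s T : ℝ} (hc : 0 < c) (hc7 : 0 < c7)
    (hX : 0 < X) (hs : 0 < s) (hD : D = 1 / (c7 * X ^ 3 * s))
    (hE : 32 * c7 / c * (X ^ 3 * s) ≤ E)
    (h : (c / 2 * D * n) ^ k ≤ 8 * T) (hT : T ≤ 2 * L) : n ^ k ≤ L * E ^ k := by
  have h1 : n = (c / 2 * D * n) * (2 * c7 * X ^ 3 * s / c) := by
    rw [hD]; field_simp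
  have h2 : (16 : ℝ) ≤ 16 ^ k := by
    calc (16 : ℝ) = 16 ^ 1 := by norm_num
      _ ≤ 16 ^ k := pow_le_pow_right₀ (by norm_num) (by omega)
  have h3 : (0 : ℝ) ≤ 2 * c7 * X ^ 3 * s / c := by positivity
  have hL : (0 : ℝ) ≤ L := Nat.cast_nonneg _
  calc n ^ k = (c / 2 * D * n) ^ k * (2 * c7 * X ^ 3 * s / c) ^ k := by
        rw [← mul_pow, ← h1]
    _ ≤ (16 * L) * (2 * c7 * X ^ 3 * s / c) ^ k := by
        apply mul_le_mul_of_nonneg_right _ (pow_nonneg h3 _)
        linarith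
    _ ≤ (16 ^ k * L) * (2 * c7 * X ^ 3 * s / c) ^ k := by
        apply mul_le_mul_of_nonneg_right _ (pow_nonneg h3 _)
        exact mul_le_mul_of_nonneg_right h2 hL
    _ = L * (32 * c7 / c * (X ^ 3 * s)) ^ k := by
        have : (32 * c7 / c * (X ^ 3 * s)) = 16 * (2 * c7 * X ^ 3 * s / c) := by ring
        rw [this, mul_pow 16]; ring
    _ ≤ L * E ^ k := by
        apply mul_le_mul_of_nonneg_left _ hL
        exact pow_le_pow_left₀ (by positivity) hE _

theorem num_B {k L : ℕ} (hk : 2 ≤ k) {c c7 D E n X s T : ℝ} (hc : 0 < c)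
    (hc7 : 1 ≤ c7) (hX : 1 ≤ X) (hs : 0 < s) (hD : D = 1 / (c7 * X ^ 3 * s))
    (hE : 32 * 2 ^ k * k * c7 / c * (X ^ 3 * s) ≤ E)
    (h : c ^ 2 * (c / 2 * D) ^ (k - 2) * n ^ k ≤ 8 * (2 ^ k * (2 * (k * X))) * s ^ 2 * T)
    (hT : T ≤ 2 * L) : n ^ k ≤ L * E ^ k := by
  have hkR : (2 : ℝ) ≤ k := by exact_mod_cast hk
  have hL : (0 : ℝ) ≤ L := Nat.cast_nonneg _
  set R : ℝ := 2 * c7 * X ^ 3 * s / c with hR
  have hR0 : 0 < R := by positivity
  have h1 : (c / 2 * D) * R = 1 := by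
    rw [hD, hR]; field_simp
  have h2k : (1 : ℝ) ≤ 2 ^ k := one_le_pow₀ (by norm_num)
  have hRE : R ≤ E := by
    refine le_trans ?_ hE
    have h3 : R = 2 * (c7 / c * (X ^ 3 * s)) := by rw [hR]; ring
    have h4 : 32 * 2 ^ k * (k : ℝ) * c7 / c * (X ^ 3 * s) =
      (32 * 2 ^ k * (k : ℝ)) * (c7 / c * (X ^ 3 * s)) := by ring
    rw [h3, h4]
    apply mul_le_mul_of_nonneg_right _ (by positivity)
    nlinarith
  have hE0 : 0 ≤ E := hR0.le.trans hRE
  have hE2 : 32 * 2 ^ k * k * X * s ^ 2 / c ^ 2 ≤ E ^ 2 := by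
    have h5 : (32 * 2 ^ k * k * c7 / c * (X ^ 3 * s)) ^ 2 ≤ E ^ 2 :=
      pow_le_pow_left₀ (by positivity) hE _
    refine le_trans ?_ h5
    have h6 : (32 * 2 ^ k * (k : ℝ) * c7 / c * (X ^ 3 * s)) ^ 2 =
        (32 * 2 ^ k * k * X * s ^ 2 / c ^ 2) * ((32 * 2 ^ k * k) * c7 ^ 2 * X ^ 5) := by
      field_simp
    rw [h6]
    apply le_mul_of_one_le_right (by positivity)
    have h7 : (1 : ℝ) ≤ 32 * 2 ^ k * k := by nlinarith
    have h8 : (1 : ℝ) ≤ c7 ^ 2 := one_le_pow₀ hc7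
    have h9 : (1 : ℝ) ≤ X ^ 5 := one_le_pow₀ hX
    calc (1 : ℝ) = 1 * 1 * 1 := by ring
      _ ≤ (32 * 2 ^ k * k) * c7 ^ 2 * X ^ 5 :=
        mul_le_mul (mul_le_mul h7 h8 (by norm_num) (by positivity)) h9 (by norm_num)
          (by positivity)
  calc n ^ k = (c ^ 2 * (c / 2 * D) ^ (k - 2) * n ^ k) * (R ^ (k - 2) / c ^ 2) := by
        have h3 : (c ^ 2 * (c / 2 * D) ^ (k - 2) * n ^ k) * (R ^ (k - 2) / c ^ 2) =
            ((c / 2 * D) * R) ^ (k - 2) * n ^ k := by
          rw [mul_pow (c / 2 * D) R]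
          field_simp
        rw [h3, h1, one_pow, one_mul]
    _ ≤ (8 * (2 ^ k * (2 * (k * X))) * s ^ 2 * T) * (R ^ (k - 2) / c ^ 2) :=
        mul_le_mul_of_nonneg_right h (by positivity)
    _ ≤ (8 * (2 ^ k * (2 * (k * X))) * s ^ 2 * (2 * L)) * (R ^ (k - 2) / c ^ 2) := by
        apply mul_le_mul_of_nonneg_right _ (by positivity)
        exact mul_le_mul_of_nonneg_left hT (by positivity)
    _ = L * (R ^ (k - 2) * (32 * 2 ^ k * k * X * s ^ 2 / c ^ 2)) := by ring
    _ ≤ L * (E ^ (k - 2) * E ^ 2) := by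
        apply mul_le_mul_of_nonneg_left _ hL
        exact mul_le_mul (pow_le_pow_left₀ hR0.le hRE _) hE2 (by positivity) (by positivity)
    _ = L * E ^ k := by rw [← pow_add]; congr 2; omega

/-- the constant of the trade-off -/
noncomputable def cst (k : ℕ) : ℕ := ⌈32 * 2 ^ k * k * c7 k / cc k⌉₊

theorem cst_ge {k : ℕ} (hk : 2 ≤ k) : 4 * k ≤ cst k := by
  have hcc := cc_pos k
  have hcc1 := cc_le k
  have hc7 := (c7_ge hk).2
  have hkR : (2 : ℝ) ≤ k := by exact_mod_cast hk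
  have h1 : ((4 * k : ℕ) : ℝ) ≤ (cst k : ℝ) := by
    refine le_trans ?_ (Nat.le_ceil _)
    rw [le_div_iff₀ hcc]
    push_cast
    have h2k : (1 : ℝ) ≤ 2 ^ k := one_le_pow₀ (by norm_num)
    have h2 : (4 : ℝ) * k * cc k ≤ 4 * k * 1 :=
      mul_le_mul_of_nonneg_left (by linarith) (by positivity)
    have h3 : (4 : ℝ) * k * 1 ≤ 32 * 2 ^ k * k * c7 k := by
      calc (4 : ℝ) * k * 1 ≤ (32 * k) * (1 * 1) := by linarith
        _ ≤ (32 * k) * (2 ^ k * c7 k) := by
            apply mul_le_mul_of_nonneg_left _ (by positivity)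
            exact mul_le_mul h2k hc7 (by norm_num) (by positivity)
        _ = _ := by ring
    linarith
  exact_mod_cast h1

/-- the lower bound -/
theorem lower (k : ℕ) (hk : 2 ≤ k) (N : ℕ) : ∃ G : SimpleGraph (Fin k × (Fin N → Bool)),
      (∀ i u v, ¬ G.Adj (i, u) (i, v)) ∧ G.CliqueFree k ∧
      ∀ (s L : ℕ) (M : ℕ → List Fml), IsRefutation G s L M →
        (2 ^ N) ^ k ≤ L * (cst k * (N + 1) ^ 3 * s) ^ k := by
  classical
  have hcc := cc_pos k
  have hcc1 := cc_le k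
  obtain ⟨hc7a, hc7⟩ := c7_ge hk
  have hkR : (2 : ℝ) ≤ k := by exact_mod_cast hk
  obtain ⟨ω, hω, hnice⟩ := exists_labeling hk N
  refine ⟨graph ω, fun i u v h => h.1 rfl, graph_cliqueFree (by omega) hω, ?_⟩
  intro s L M hM
  have hs1 := hM.space_pos
  have hL1 := hM.length_pos
  have hCR : 32 * 2 ^ k * k * c7 k / cc k ≤ (cst k : ℝ) := Nat.le_ceil _
  have hCpos : 1 ≤ cst k := by have := cst_ge hk; omega
  set C := cst k with hC
  have hbase : s ≤ C * (N + 1) ^ 3 * s := by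
    apply Nat.le_mul_of_pos_left
    exact Nat.mul_pos hCpos (by positivity)
  -- large space
  by_cases hsN : s ≤ 2 ^ N
  swap
  · calc (2 ^ N) ^ k ≤ (C * (N + 1) ^ 3 * s) ^ k :=
          Nat.pow_le_pow_left (by omega) _
      _ ≤ L * (C * (N + 1) ^ 3 * s) ^ k := Nat.le_mul_of_pos_left _ hL1
  -- very long refutations
  by_cases hLK : L ≤ 2 ^ (k * (N + 1))
  swap
  · calc (2 ^ N) ^ k = 2 ^ (N * k) := by rw [← pow_mul]
      _ ≤ 2 ^ (k * (N + 1)) := by
          apply Nat.pow_le_pow_right (by norm_num)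
          calc N * k ≤ (N + 1) * k := Nat.mul_le_mul_right _ (by omega)
            _ = k * (N + 1) := mul_comm _ _
      _ ≤ L := by omega
      _ ≤ L * (C * (N + 1) ^ 3 * s) ^ k :=
          Nat.le_mul_of_pos_right _ (pow_pos (lt_of_lt_of_le hs1 hbase) _)
  -- the main case
  set ℓ := Nat.clog 2 L with hℓ
  have hLℓ : L ≤ 2 ^ ℓ := Nat.le_pow_clog (by norm_num) L
  have hℓK : ℓ ≤ k * (N + 1) := Nat.clog_le_of_le_pow hLK
  have hℓL : 2 ^ ℓ ≤ 2 * L := by
    rcases Nat.lt_or_ge 1 L with h1 | h1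
    · have h2 := Nat.pow_pred_clog_lt_self (by norm_num : 1 < 2) h1
      have h3 : 0 < ℓ := Nat.clog_pos (by norm_num) h1
      have h4 : 2 ^ ℓ = 2 * 2 ^ (ℓ - 1) := by
        rw [← pow_succ']; congr 1; omega
      rw [h4]
      have h5 : 2 ^ (ℓ - 1) < L := h2
      omega
    · have h2 : L = 1 := le_antisymm h1 hL1
      rw [hℓ, h2, Nat.clog_one_right]
      norm_num
  have hmain := refutation_bound hk (dens_pos hk N hs1)
    (Nat.mul_pos (by omega) (by omega) : 1 ≤ k * (N + 1)) (hnice s hs1 hsN)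
    (dens_sq hk N hs1) hℓK hLℓ hM
  -- the real inequality
  have hreal : ((2 : ℝ) ^ N) ^ k ≤ L * (C * ((N : ℝ) + 1) ^ 3 * s) ^ k := by
    have hsR : (1 : ℝ) ≤ s := by exact_mod_cast hs1
    have hX : (1 : ℝ) ≤ (N : ℝ) + 1 := by
      have : (0 : ℝ) ≤ N := Nat.cast_nonneg _
      linarith
    have hT : (2 : ℝ) ^ ℓ ≤ 2 * L := by
      have : ((2 ^ ℓ : ℕ) : ℝ) ≤ ((2 * L : ℕ) : ℝ) := Nat.cast_le.2 hℓL
      push_cast at this
      exact this
    have hE : 32 * 2 ^ k * k * c7 k / cc k * (((N : ℝ) + 1) ^ 3 * s) ≤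
        C * ((N : ℝ) + 1) ^ 3 * s := by
      rw [mul_assoc (C : ℝ)]
      exact mul_le_mul_of_nonneg_right hCR (by positivity)
    rcases hmain with hmain | hmain
    · refine num_A hk hcc (by linarith) (by linarith) (by linarith) rfl ?_ hmain hT
      refine le_trans ?_ hE
      apply mul_le_mul_of_nonneg_right _ (by positivity)
      apply div_le_div_of_nonneg_right _ hcc.le
      have h2k : (1 : ℝ) ≤ 2 ^ k := one_le_pow₀ (by norm_num)
      have h1 : (32 : ℝ) ≤ 32 * 2 ^ k * k := by nlinarith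
      exact mul_le_mul_of_nonneg_right h1 (by linarith)
    · push_cast at hmain
      exact num_B hk hcc hc7 hX (by linarith) rfl hE hmain hT
  exact_mod_cast hreal

/-- the trade-off between time and space -/
theorem tradeoff (k : ℕ) (hk : 2 ≤ k) : ∃ C : ℕ, ∀ N : ℕ,
    (∃ G : SimpleGraph (Fin k × (Fin N → Bool)),
      (∀ i u v, ¬ G.Adj (i, u) (i, v)) ∧ G.CliqueFree k ∧
      ∀ (s L : ℕ) (M : ℕ → List Fml), IsRefutation G s L M →
        (2 ^ N) ^ k ≤ L * (C * (N + 1) ^ 3 * s) ^ k) ∧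
    ∀ G : SimpleGraph (Fin k × (Fin N → Bool)), G.CliqueFree k →
      ∀ s : ℕ, C * (N + 1) ≤ s → s ≤ 2 ^ N →
        ∃ (L : ℕ) (M : ℕ → List Fml), IsRefutation G s L M ∧ L * s ^ k ≤ (C * 2 ^ N) ^ k :=
  ⟨cst k, fun N => ⟨lower k hk N, fun G hG _ hs hs' => upper hk (cst_ge hk) G hG hs hs'⟩⟩

end Pool.Agent.MP_678664_lc.TimeSpace
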