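import Pool.Agent.Lib.MP_678664_lc_h37.Parts

/-!
# Labels with parity constraints: locally consistent, globally inconsistent
-/

namespace Pool.Agent.MP_678664_lc.TimeSpace

open Finset

variable {k : ℕ} {B : Type} [Fintype B] [DecidableEq B]

/-- a label of the vertex `(j, v)` is a vector indexed by the blocks -/
abbrev Lab (k : ℕ) (B : Type) : Type := Fin k × B → (Fin k → ZMod 2)

/-- all edges of the tuple `x` at the blocks of `I` are present -/
def GoodAt (ω : Lab k B) (I : Finset (Fin k)) (x : Fin k → B) : Prop :=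
  ∀ i ∈ I, ∀ j, j ≠ i → ω (i, x i) j = ω (j, x j) i

/-- the parity constraint -/
def Valid (ω : Lab k B) : Prop :=
  ∀ (j : Fin k) (v : B), ω (j, v) j = 0 ∧ ∑ i, ω (j, v) i = if (j : ℕ) = 0 then 1 else 0

omit [Fintype B] [DecidableEq B] in
theorem GoodAt.mono {ω : Lab k B} {I I' : Finset (Fin k)} {x : Fin k → B} (h : GoodAt ω I x)
    (hI : I' ⊆ I) : GoodAt ω I' x := fun i hi => h i (hI hi)

theorem zmod2_add_self (a : ZMod 2) : a + a = 0 := CharTwo.add_self_eq_zero a

omit [Fintype B] [DecidableEq B] in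
/-- there is no clique with one vertex in each block -/
theorem no_clique (hk : 0 < k) {ω : Lab k B} (hω : Valid ω) (x : Fin k → B) :
    ¬ ∀ i j, j ≠ i → ω (i, x i) j = ω (j, x j) i := by
  intro h
  have h1 : ∑ j : Fin k, ∑ i, ω (j, x j) i = 1 := by
    rw [Finset.sum_eq_single (⟨0, hk⟩ : Fin k)]
    · rw [(hω _ _).2]; simp
    · intro j _ hj
      rw [(hω _ _).2, if_neg]
      intro h0
      exact hj (Fin.ext h0)
    · simp
  have h2 : ∑ p : Fin k × Fin k, ω (p.1, x p.1) p.2 = 0 := by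
    refine Finset.sum_involution (fun p _ => (p.2, p.1)) ?_ ?_ ?_ ?_
    · intro p _
      by_cases hp : p.2 = p.1
      · simp only [hp]
        exact zmod2_add_self _
      · rw [h p.1 p.2 hp]
        exact zmod2_add_self _
    · intro p _ hne heq
      have hp : p.2 = p.1 := congrArg Prod.fst heq
      rw [hp] at hne
      exact hne (hω _ _).1
    · intro p _; exact mem_univ _
    · intro p _; rfl
  rw [Fintype.sum_prod_type] at h2
  rw [h1] at h2
  exact one_ne_zero h2

/-- all edges of the tuple `x` between blocks of `I` and blocks of `T` are present -/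
def GoodOn (ω : Lab k B) (I T : Finset (Fin k)) (x : Fin k → B) : Prop :=
  ∀ i ∈ I, ∀ j ∈ T, j ≠ i → ω (i, x i) j = ω (j, x j) i

omit [Fintype B] [DecidableEq B] in
theorem goodOn_univ {ω : Lab k B} {I : Finset (Fin k)} {x : Fin k → B} :
    GoodOn ω I univ x ↔ GoodAt ω I x := by
  simp [GoodOn, GoodAt]

omit [Fintype B] [DecidableEq B] in
theorem goodOn_congr {ω₁ ω₂ : Lab k B} {I T : Finset (Fin k)} {x : Fin k → B}
    (h : ∀ j i, ω₁ (j, x j) i = ω₂ (j, x j) i) : GoodOn ω₁ I T x ↔ GoodOn ω₂ I T x := by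
  unfold GoodOn
  refine forall₂_congr fun i _ => forall₂_congr fun j _ => ?_
  rw [h, h]

/-- two labelings agree at all pairs of blocks which meet `I` -/
def Agree (I : Finset (Fin k)) (ω ω' : Lab k B) : Prop :=
  ∀ (j : Fin k) (v : B) (i : Fin k), (j ∈ I ∨ i ∈ I) → ω' (j, v) i = ω (j, v) i

omit [Fintype B] [DecidableEq B] in
theorem Agree.mono {I I' : Finset (Fin k)} {ω ω' : Lab k B} (h : Agree I ω ω') (hI : I' ⊆ I) :
    Agree I' ω ω' := fun j v i hij => h j v i (hij.imp (fun a => hI a) (fun a => hI a))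

omit [Fintype B] [DecidableEq B] in
theorem Agree.goodAt {I : Finset (Fin k)} {ω ω' : Lab k B} (h : Agree I ω ω') (x : Fin k → B) :
    GoodAt ω' I x ↔ GoodAt ω I x := by
  unfold GoodAt
  refine forall₂_congr fun i hi => forall₂_congr fun j _ => ?_
  rw [h i (x i) j (Or.inl hi), h j (x j) i (Or.inr hi)]

/-- the change of the labels given by `r`: nothing is changed at pairs of blocks which meet `I`,
and the coordinate `κ j` of the label of a vertex of block `j` keeps the parity -/
def shift (I : Finset (Fin k)) (κ : Fin k → Fin k) (r : Lab k B) : Lab k B := fun p i =>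
  if p.1 ∈ I ∨ i ∈ I ∨ i = p.1 then 0
  else if i = κ p.1 then ∑ l ∈ univ.filter (fun l => l ∉ I ∧ l ≠ p.1 ∧ l ≠ κ p.1), r p l
  else r p i

omit [Fintype B] [DecidableEq B] in
theorem shift_agree (I : Finset (Fin k)) (κ : Fin k → Fin k) (ω r r' : Lab k B) :
    Agree I (ω + shift I κ r) (ω + shift I κ r') := by
  intro j v i hij
  simp only [Pi.add_apply, shift]
  have : j ∈ I ∨ i ∈ I ∨ i = j := by tauto
  rw [if_pos this, if_pos this]

omit [Fintype B] [DecidableEq B] in
theorem shift_agree' (I : Finset (Fin k)) (κ : Fin k → Fin k) (ω r : Lab k B) :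
    Agree I ω (ω + shift I κ r) := by
  intro j v i hij
  simp only [Pi.add_apply, shift]
  have : j ∈ I ∨ i ∈ I ∨ i = j := by tauto
  rw [if_pos this, add_zero]

omit [Fintype B] [DecidableEq B] in
theorem sum_shift {I : Finset (Fin k)} {κ : Fin k → Fin k} (r : Lab k B) (j : Fin k) (v : B)
    (hκ : κ j ∉ I) (hκj : κ j ≠ j) : ∑ i, shift I κ r (j, v) i = 0 := by
  classical
  by_cases hj : j ∈ I
  · apply Finset.sum_eq_zero
    intro i _
    simp [shift, hj]
  rw [← Finset.add_sum_erase univ _ (mem_univ (κ j))]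
  have h1 : shift I κ r (j, v) (κ j) =
      ∑ l ∈ univ.filter (fun l => l ∉ I ∧ l ≠ j ∧ l ≠ κ j), r (j, v) l := by
    simp only [shift]
    rw [if_neg (by tauto), if_pos trivial]
  have h2 : ∑ i ∈ univ.erase (κ j), shift I κ r (j, v) i =
      ∑ l ∈ univ.filter (fun l => l ∉ I ∧ l ≠ j ∧ l ≠ κ j), r (j, v) l := by
    rw [Finset.sum_filter]
    symm
    rw [← Finset.add_sum_erase univ _ (mem_univ (κ j))]
    rw [if_neg (by tauto), zero_add]
    apply Finset.sum_congr rfl
    intro i hi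
    have hi' : i ≠ κ j := (mem_erase.1 hi).1
    simp only [shift]
    by_cases h : i ∉ I ∧ i ≠ j
    · rw [if_pos ⟨h.1, h.2, hi'⟩, if_neg (by tauto), if_neg hi']
    · rw [if_neg (by tauto), if_pos (by tauto)]
  rw [h1, h2]
  exact zmod2_add_self _

omit [Fintype B] [DecidableEq B] in
theorem valid_shift {I : Finset (Fin k)} {κ : Fin k → Fin k} (hκ : ∀ j, κ j ∉ I)
    (hκj : ∀ j, κ j ≠ j) (ω r : Lab k B) : Valid (ω + shift I κ r) ↔ Valid ω := by
  unfold Valid
  refine forall₂_congr fun j v => ?_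
  have h1 : (ω + shift I κ r) (j, v) j = ω (j, v) j := by
    simp [shift]
  have h2 : ∑ i, (ω + shift I κ r) (j, v) i = ∑ i, ω (j, v) i := by
    simp only [Pi.add_apply, Finset.sum_add_distrib]
    rw [sum_shift r j v (hκ j) (hκj j), add_zero]
  rw [h1, h2]

omit [Fintype B] [DecidableEq B] in
/-- local consistency: a tuple which is good at `I` can be made good at `I ∪ J` -/
theorem exists_good {I J : Finset (Fin k)} {κ : Fin k → Fin k}
    (hκJ : ∀ j, κ j ∉ J) (ω : Lab k B) (y : Fin k → B)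
    (hy : GoodAt ω I y) :
    ∃ a : Fin k → (Fin k → ZMod 2), ∀ r : Lab k B, (∀ j, r (j, y j) = a j) →
      GoodAt (ω + shift I κ r) (I ∪ J) y := by
  classical
  -- the resulting label at `κ i` for `i ∈ J`
  let e : Fin k → ZMod 2 := fun i => ω (i, y i) (κ i) +
    ∑ l ∈ univ.filter (fun l => l ∉ I ∧ l ≠ i ∧ l ≠ κ i), ω (i, y i) l
  let a : Fin k → (Fin k → ZMod 2) := fun j i =>
    if j ∈ J then ω (j, y j) i else ω (j, y j) i + if j = κ i then e i else 0
  refine ⟨a, ?_⟩
  intro r hr i hi j hji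
  by_cases hiI : i ∈ I
  · have h1 := (shift_agree' I κ ω r) i (y i) j (Or.inl hiI)
    have h2 := (shift_agree' I κ ω r) j (y j) i (Or.inr hiI)
    rw [h1, h2]
    exact hy i hiI j hji
  have hiJ : i ∈ J := (mem_union.1 hi).resolve_left hiI
  by_cases hjI : j ∈ I
  · have h1 := (shift_agree' I κ ω r) i (y i) j (Or.inr hjI)
    have h2 := (shift_agree' I κ ω r) j (y j) i (Or.inl hjI)
    rw [h1, h2]
    exact (hy j hjI i (Ne.symm hji)).symm
  -- the label of `i`, a vertex of `J`, towards a block outside `I`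
  have key : ∀ i ∈ J, i ∉ I → ∀ j, j ∉ I → j ≠ i →
      (ω + shift I κ r) (i, y i) j = if j = κ i then e i else 0 := by
    intro i hiJ hiI j hjI hji
    simp only [Pi.add_apply, shift]
    rw [if_neg (by tauto)]
    by_cases hj : j = κ i
    · rw [if_pos hj, if_pos hj, hr i, hj]
      simp only [e, a, if_pos hiJ]
    · rw [if_neg hj, if_neg hj, hr i]
      simp only [a, if_pos hiJ]
      exact zmod2_add_self _
  have hiκ : ∀ j, i ≠ κ j := fun j h => hκJ j (h ▸ hiJ)
  rw [key i hiJ hiI j hjI hji]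
  by_cases hjJ : j ∈ J
  · rw [key j hjJ hjI i hiI (Ne.symm hji), if_neg (hiκ j), if_neg]
    intro h
    exact hκJ i (h ▸ hjJ)
  · have h1 : shift I κ r (j, y j) i = a j i := by
      simp only [shift]
      rw [if_neg (by tauto), if_neg (hiκ j), hr j]
    rw [Pi.add_apply, Pi.add_apply, h1]
    simp only [a, if_neg hjJ]
    rw [← add_assoc, zmod2_add_self, zero_add]

omit [Fintype B] [DecidableEq B] in
/-- a tuple which is good at `I` can be made good within `I ∪ J` -/
theorem exists_inner {I J : Finset (Fin k)} {κ : Fin k → Fin k}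
    (hκJ : ∀ j ∈ J, κ j ∉ J) (ω : Lab k B) (y : Fin k → B) (hy : GoodAt ω I y) :
    ∃ a : Fin k → (Fin k → ZMod 2), ∀ r : Lab k B, (∀ j, r (j, y j) = a j) →
      GoodOn (ω + shift I κ r) (I ∪ J) (I ∪ J) y := by
  classical
  refine ⟨fun j i => ω (j, y j) i, ?_⟩
  intro r hr i hi j hj hji
  by_cases hiI : i ∈ I
  · have h1 := (shift_agree' I κ ω r) i (y i) j (Or.inl hiI)
    have h2 := (shift_agree' I κ ω r) j (y j) i (Or.inr hiI)
    rw [h1, h2]
    exact hy i hiI j hji
  by_cases hjI : j ∈ I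
  · have h1 := (shift_agree' I κ ω r) i (y i) j (Or.inr hjI)
    have h2 := (shift_agree' I κ ω r) j (y j) i (Or.inl hjI)
    rw [h1, h2]
    exact (hy j hjI i (Ne.symm hji)).symm
  have hiJ : i ∈ J := (mem_union.1 hi).resolve_left hiI
  have hjJ : j ∈ J := (mem_union.1 hj).resolve_left hjI
  have key : ∀ i ∈ J, i ∉ I → ∀ j ∈ J, j ∉ I → j ≠ i →
      (ω + shift I κ r) (i, y i) j = 0 := by
    intro i hiJ hiI j hjJ hjI hji
    have hjκ : j ≠ κ i := by
      intro h
      rw [h] at hjJ
      exact hκJ i hiJ hjJ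
    simp only [Pi.add_apply, shift]
    rw [if_neg (by tauto), if_neg hjκ, hr i]
    exact zmod2_add_self _
  rw [key i hiJ hiI j hjJ hjI hji, key j hjJ hjI i hiJ hiI (Ne.symm hji)]

end Pool.Agent.MP_678664_lc.TimeSpace
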