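import Mathlib

/-!
# Dense sets of tuples and partitions into parts
-/

namespace Pool.Agent.MP_678664_lc.TimeSpace

open Finset

variable {k : ℕ} {B : Type} [Fintype B] [DecidableEq B]

/-- the points of `A` which agree with `w` on `K` -/
def cyl (A : Finset (Fin k → B)) (K : Finset (Fin k)) (w : Fin k → B) : Finset (Fin k → B) :=
  A.filter fun x => ∀ j ∈ K, x j = w j

omit [Fintype B] in
theorem mem_cyl {A : Finset (Fin k → B)} {K : Finset (Fin k)} {w x : Fin k → B} :
    x ∈ cyl A K w ↔ x ∈ A ∧ ∀ j ∈ K, x j = w j := by simp [cyl]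

omit [Fintype B] in
theorem cyl_subset (A : Finset (Fin k → B)) (K : Finset (Fin k)) (w : Fin k → B) :
    cyl A K w ⊆ A := filter_subset _ _

omit [Fintype B] in
theorem cyl_mono {A A' : Finset (Fin k → B)} (h : A ⊆ A') (K : Finset (Fin k)) (w : Fin k → B) :
    cyl A K w ⊆ cyl A' K w := filter_subset_filter _ h

/-- a cylinder in `A` on coordinates `K` outside `I` has at most `C * θ ^ |K| * |A|` points -/
def Dense (θ C : ℝ) (I : Finset (Fin k)) (A : Finset (Fin k → B)) : Prop :=
  ∀ K : Finset (Fin k), Disjoint K I → ∀ w : Fin k → B,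
    ((cyl A K w).card : ℝ) ≤ C * θ ^ K.card * A.card

/-- parts of `A` -/
structure IsPart (θ : ℝ) (I : Finset (Fin k)) (A : Finset (Fin k → B))
    (p : Finset (Fin k) × Finset (Fin k → B)) : Prop where
  ne : p.1.Nonempty
  disj : Disjoint p.1 I
  sub : p.2 ⊆ A
  const : ∀ x ∈ p.2, ∀ y ∈ p.2, ∀ j ∈ p.1, x j = y j
  large : θ ^ p.1.card * A.card ≤ 2 * p.2.card
  dense : Dense θ 1 (I ∪ p.1) p.2

omit [Fintype B] in
theorem IsPart.nonempty {θ : ℝ} (hθ : 0 < θ) {I : Finset (Fin k)} {A : Finset (Fin k → B)}
    (hA : A.Nonempty) {p : Finset (Fin k) × Finset (Fin k → B)} (hp : IsPart θ I A p) :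
    p.2.Nonempty := by
  rw [← card_pos]
  have h1 : (0 : ℝ) < A.card := by exact_mod_cast card_pos.2 hA
  have h2 := hp.large
  have h3 : 0 < θ ^ p.1.card * A.card := by positivity
  have h4 : (0 : ℝ) < p.2.card := by linarith
  exact_mod_cast h4

/-- what is left of `A` -/
def rest (A : Finset (Fin k → B)) (F : Finset (Finset (Fin k) × Finset (Fin k → B))) :
    Finset (Fin k → B) := A \ F.biUnion Prod.snd

/-- the properties of a good family of parts -/
structure IsFam (θ : ℝ) (I : Finset (Fin k)) (A : Finset (Fin k → B))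
    (F : Finset (Finset (Fin k) × Finset (Fin k → B))) : Prop where
  part : ∀ p ∈ F, IsPart θ I A p
  disj : ∀ p ∈ F, ∀ q ∈ F, p ≠ q → Disjoint p.2 q.2
  rest_dense : A.card ≤ 2 * (rest A F).card → Dense θ 1 I (rest A F)

theorem exists_fam {θ : ℝ} (hθ : 0 < θ) (I : Finset (Fin k)) (A : Finset (Fin k → B)) :
    ∃ F, IsFam θ I A F := by
  classical
  by_cases hA : A.Nonempty
  swap
  · rw [not_nonempty_iff_eq_empty] at hA
    subst hA
    refine ⟨∅, by simp, by simp, ?_⟩
    intro _ K _ w
    simp [rest, cyl]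
  -- a family of maximal cardinality
  obtain ⟨F, hF, hmax⟩ := Finset.exists_max_image
    (univ.filter fun F : Finset (Finset (Fin k) × Finset (Fin k → B)) =>
      (∀ p ∈ F, IsPart θ I A p) ∧ (∀ p ∈ F, ∀ q ∈ F, p ≠ q → Disjoint p.2 q.2))
    Finset.card ⟨∅, by simp⟩
  rw [mem_filter] at hF
  obtain ⟨-, hF1, hF2⟩ := hF
  refine ⟨F, hF1, hF2, ?_⟩
  intro hlarge
  set R := rest A F with hR
  by_contra hcon
  -- the bad cylinders
  have hne : (univ.filter fun q : Finset (Fin k) × (Fin k → B) =>
      Disjoint q.1 I ∧ θ ^ q.1.card * R.card < ((cyl R q.1 q.2).card : ℝ)).Nonempty := by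
    unfold Dense at hcon
    push Not at hcon
    obtain ⟨K, hK, w, hw⟩ := hcon
    rw [one_mul] at hw
    exact ⟨(K, w), by simp [hK, hw]⟩
  obtain ⟨q, hq, hqmax⟩ := Finset.exists_max_image _ (fun q => q.1.card) hne
  rw [mem_filter] at hq
  obtain ⟨-, hqI, hqc⟩ := hq
  obtain ⟨K, w⟩ := q
  simp only at hqI hqc hqmax
  have hRpos : (0 : ℝ) ≤ R.card := by positivity
  have hKne : K.Nonempty := by
    rw [nonempty_iff_ne_empty]
    rintro rfl
    have : ((cyl R ∅ w).card : ℝ) ≤ R.card := by exact_mod_cast card_le_card (cyl_subset _ _ _)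
    simp only [card_empty, pow_zero, one_mul] at hqc
    linarith
  have hpart : IsPart θ I A (K, cyl R K w) := by
    refine ⟨hKne, hqI, ?_, ?_, ?_, ?_⟩
    · exact (cyl_subset _ _ _).trans sdiff_subset
    · intro x hx y hy j hj
      simp only at hx hy hj
      rw [mem_cyl] at hx hy
      rw [hx.2 j hj, hy.2 j hj]
    · simp only
      have h1 : (A.card : ℝ) ≤ 2 * R.card := by exact_mod_cast hlarge
      have h2 : θ ^ K.card * (A.card : ℝ) ≤ θ ^ K.card * (2 * R.card) :=
        mul_le_mul_of_nonneg_left h1 (by positivity)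
      nlinarith
    · intro K' hK' w'
      simp only at hK' ⊢
      rw [disjoint_union_right] at hK'
      rw [one_mul]
      by_cases hK'e : K' = ∅
      · subst hK'e
        simp only [card_empty, pow_zero, one_mul]
        exact_mod_cast card_le_card (cyl_subset _ _ _)
      set u : Fin k → B := fun j => if j ∈ K then w j else w' j with hu
      have heq : cyl (cyl R K w) K' w' = cyl R (K ∪ K') u := by
        ext x
        rw [mem_cyl, mem_cyl, mem_cyl]
        constructor
        · rintro ⟨⟨hx, h1⟩, h2⟩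
          refine ⟨hx, ?_⟩
          intro j hj
          rcases mem_union.1 hj with hj | hj
          · rw [h1 j hj, hu]; simp [hj]
          · have : j ∉ K := fun h => (disjoint_left.1 hK'.2 hj h)
            rw [h2 j hj, hu]; simp [this]
        · rintro ⟨hx, h1⟩
          refine ⟨⟨hx, ?_⟩, ?_⟩
          · intro j hj
            rw [h1 j (mem_union_left _ hj), hu]; simp [hj]
          · intro j hj
            have : j ∉ K := fun h => (disjoint_left.1 hK'.2 hj h)
            rw [h1 j (mem_union_right _ hj), hu]; simp [this]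
      rw [heq]
      have hcard : (K ∪ K').card = K.card + K'.card :=
        card_union_of_disjoint (disjoint_comm.1 hK'.2)
      have hlt : ¬ (θ ^ (K ∪ K').card * R.card < ((cyl R (K ∪ K') u).card : ℝ)) := by
        intro hlt
        have := hqmax (K ∪ K', u) (by
          rw [mem_filter]
          exact ⟨mem_univ _, disjoint_union_left.2 ⟨hqI, hK'.1⟩, hlt⟩)
        simp only at this
        rw [hcard] at this
        have h0 : 0 < K'.card := card_pos.2 (nonempty_iff_ne_empty.2 hK'e)
        omega
      rw [not_lt, hcard, pow_add] at hlt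
      calc ((cyl R (K ∪ K') u).card : ℝ) ≤ θ ^ K.card * θ ^ K'.card * R.card := hlt
        _ = θ ^ K'.card * (θ ^ K.card * R.card) := by ring
        _ ≤ θ ^ K'.card * (cyl R K w).card :=
            mul_le_mul_of_nonneg_left hqc.le (by positivity)
  have hnot : (K, cyl R K w) ∉ F := by
    intro hmem
    obtain ⟨x, hx⟩ := hpart.nonempty hθ hA
    have h1 : x ∈ R := cyl_subset _ _ _ hx
    rw [hR, rest, mem_sdiff, mem_biUnion] at h1
    exact h1.2 ⟨_, hmem, hx⟩
  have hins := hmax (insert (K, cyl R K w) F) (by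
    rw [mem_filter]
    have hd : ∀ q ∈ F, Disjoint (cyl R K w) q.2 := by
      intro q hq
      rw [disjoint_left]
      intro x hx hx'
      have h1 : x ∈ R := cyl_subset _ _ _ hx
      rw [hR, rest, mem_sdiff, mem_biUnion] at h1
      exact h1.2 ⟨_, hq, hx'⟩
    refine ⟨mem_univ _, ?_, ?_⟩
    · intro p hp
      rcases mem_insert.1 hp with rfl | hp
      · exact hpart
      · exact hF1 p hp
    · intro p hp q hq hpq
      rcases mem_insert.1 hp with rfl | hp
      · rcases mem_insert.1 hq with rfl | hq
        · exact absurd rfl hpq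
        · exact hd q hq
      · rcases mem_insert.1 hq with rfl | hq
        · exact (hd p hp).symm
        · exact hF2 p hp q hq hpq)
  rw [card_insert_of_notMem hnot] at hins
  omega

open Classical in
/-- a fixed family of parts -/
noncomputable def fam (θ : ℝ) (I : Finset (Fin k)) (A : Finset (Fin k → B)) :
    Finset (Finset (Fin k) × Finset (Fin k → B)) :=
  if h : ∃ F, IsFam θ I A F then h.choose else ∅

theorem isFam_fam {θ : ℝ} (hθ : 0 < θ) (I : Finset (Fin k)) (A : Finset (Fin k → B)) :
    IsFam θ I A (fam θ I A) := by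
  have h := exists_fam hθ I A
  rw [fam, dif_pos h]
  exact h.choose_spec

/-- the union of the parts with coordinate set `J` -/
noncomputable def cls (θ : ℝ) (I : Finset (Fin k)) (A : Finset (Fin k → B)) (J : Finset (Fin k)) :
    Finset (Fin k → B) :=
  ((fam θ I A).filter fun p => p.1 = J).biUnion Prod.snd

end Pool.Agent.MP_678664_lc.TimeSpace
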