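import Mathlib

/-!
Elementary probability on a finite product space `V → κ` with the uniform measure:
averages, independence of functions depending on disjoint coordinates, re-randomisation,
and Markov inequality.  (Taken from `Pool.Agent.Lib.MP_0ccee8_co2`.)
-/

set_option linter.unusedSectionVars false

namespace Pool.Agent.MP_678664_lc.TimeSpace.Pr

open Finset

variable {V κ : Type*} [Fintype V] [DecidableEq V] [Fintype κ] [Nonempty κ]

/-- Uniform average of `f` over all labelings. -/
noncomputable def E (f : (V → κ) → ℝ) : ℝ := (∑ φ, f φ) / (Fintype.card (V → κ) : ℝ)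

/-- `f` depends only on the coordinates in `S`. -/
def Dep {β : Type*} (f : (V → κ) → β) (S : Finset V) : Prop :=
  ∀ φ ψ : V → κ, (∀ v ∈ S, φ v = ψ v) → f φ = f ψ

omit [Fintype V] [Fintype κ] [Nonempty κ] in
/-- `φ` on `S`, `ψ` off `S`. -/
def mix (S : Finset V) (φ ψ : V → κ) : V → κ := fun v => if v ∈ S then φ v else ψ v

omit [Fintype V] [Fintype κ] [Nonempty κ] in
lemma mix_in {S : Finset V} {φ ψ : V → κ} {v : V} (h : v ∈ S) : mix S φ ψ v = φ v := by
  simp [mix, h]

omit [Fintype V] [Fintype κ] [Nonempty κ] in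
lemma mix_out {S : Finset V} {φ ψ : V → κ} {v : V} (h : v ∉ S) : mix S φ ψ v = ψ v := by
  simp [mix, h]

omit [Fintype V] [Fintype κ] [Nonempty κ] in
/-- swapping the coordinates in `S` of a pair. -/
def swapEquiv (S : Finset V) : ((V → κ) × (V → κ)) ≃ ((V → κ) × (V → κ)) where
  toFun p := (mix S p.1 p.2, mix S p.2 p.1)
  invFun p := (mix S p.1 p.2, mix S p.2 p.1)
  left_inv p := by
    ext v <;> by_cases h : v ∈ S <;> simp [mix, h]
  right_inv p := by
    ext v <;> by_cases h : v ∈ S <;> simp [mix, h]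

lemma card_pos' : (0 : ℝ) < (Fintype.card (V → κ) : ℝ) := by
  exact_mod_cast Fintype.card_pos

lemma E_const (c : ℝ) : E (fun _ : V → κ => c) = c := by
  have := card_pos' (V := V) (κ := κ)
  simp only [E, sum_const, card_univ, nsmul_eq_mul]
  field_simp

lemma E_add (f g : (V → κ) → ℝ) : E (fun φ => f φ + g φ) = E f + E g := by
  simp only [E, sum_add_distrib, add_div]

lemma E_sub (f g : (V → κ) → ℝ) : E (fun φ => f φ - g φ) = E f - E g := by
  simp only [E, sum_sub_distrib, sub_div]

lemma E_mul_left (c : ℝ) (f : (V → κ) → ℝ) : E (fun φ => c * f φ) = c * E f := by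
  simp only [E, ← mul_sum, mul_div_assoc]

lemma E_neg (f : (V → κ) → ℝ) : E (fun φ => - f φ) = - E f := by
  simp only [E, sum_neg_distrib, neg_div]

lemma E_sum {ι : Type*} (s : Finset ι) (f : ι → (V → κ) → ℝ) :
    E (fun φ => ∑ i ∈ s, f i φ) = ∑ i ∈ s, E (f i) := by
  simp only [E]
  rw [sum_comm, sum_div]

lemma E_mono {f g : (V → κ) → ℝ} (h : ∀ φ, f φ ≤ g φ) : E f ≤ E g := by
  have := card_pos' (V := V) (κ := κ)
  simp only [E]
  gcongr with φ
  exact h φ

lemma E_nonneg {f : (V → κ) → ℝ} (h : ∀ φ, 0 ≤ f φ) : 0 ≤ E f := by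
  have := E_mono (f := fun _ => (0:ℝ)) (g := f) h
  rwa [E_const] at this

lemma E_congr {f g : (V → κ) → ℝ} (h : ∀ φ, f φ = g φ) : E f = E g := by
  simp only [E, h]

/-- Re-randomising the coordinates in `I` does not change the average. -/
lemma E_mix (I : Finset V) (f : (V → κ) → ℝ) :
    E (fun ψ => E (fun φ => f (mix I φ ψ))) = E f := by
  have hpos := card_pos' (V := V) (κ := κ)
  have h1 : ∑ p : (V → κ) × (V → κ), f (mix I p.1 p.2) = ∑ p : (V → κ) × (V → κ), f p.1 :=
    Fintype.sum_equiv (swapEquiv I) _ _ (fun p => rfl)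
  have h2 : ∑ ψ : V → κ, ∑ φ : V → κ, f (mix I φ ψ)
      = (Fintype.card (V → κ) : ℝ) * ∑ φ, f φ := by
    rw [sum_comm, ← Fintype.sum_prod_type' (f := fun φ ψ => f (mix I φ ψ)), h1,
      Fintype.sum_prod_type' (f := fun φ (_ : V → κ) => f φ)]
    simp [mul_sum]
  simp only [E, ← sum_div]
  rw [h2]
  field_simp

/-- Independence of functions depending on disjoint sets of coordinates. -/
lemma E_mul {f h : (V → κ) → ℝ} {S T : Finset V} (hf : Dep f S) (hh : Dep h T)
    (hST : Disjoint S T) : E (fun φ => f φ * h φ) = E f * E h := by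
  have hpos := card_pos' (V := V) (κ := κ)
  have h1 : ∑ p : (V → κ) × (V → κ), f p.1 * h p.1 = ∑ p : (V → κ) × (V → κ), f p.1 * h p.2 := by
    refine Fintype.sum_equiv (swapEquiv S) _ _ (fun p => ?_)
    have a1 : f (mix S p.1 p.2) = f p.1 := hf _ _ (fun v hv => mix_in hv)
    have a2 : h (mix S p.2 p.1) = h p.1 := hh _ _ (fun v hv =>
      mix_out (fun hvS => (Finset.disjoint_left.1 hST hvS hv)))
    change f p.1 * h p.1 = f (mix S p.1 p.2) * h (mix S p.2 p.1)
    rw [a1, a2]
  rw [Fintype.sum_prod_type' (f := fun φ (_ : V → κ) => f φ * h φ),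
    Fintype.sum_prod_type' (f := fun φ ψ => f φ * h ψ)] at h1
  simp only [sum_const, card_univ, nsmul_eq_mul, ← mul_sum, ← sum_mul] at h1
  simp only [E]
  rw [div_mul_div_comm, div_eq_div_iff hpos.ne' (by positivity)]
  calc (∑ φ, f φ * h φ) * ((Fintype.card (V → κ) : ℝ) * Fintype.card (V → κ))
      = ((Fintype.card (V → κ) : ℝ) * ∑ φ, f φ * h φ) * Fintype.card (V → κ) := by ring
    _ = _ := by rw [h1]

omit [Fintype V] [Fintype κ] [Nonempty κ] in
lemma Dep.mono {β : Type*} {f : (V → κ) → β} {S T : Finset V} (hf : Dep f S) (h : S ⊆ T) :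
    Dep f T := fun φ ψ hv => hf φ ψ (fun v hvS => hv v (h hvS))

/-- Product version of independence. -/
lemma E_prod {β : Type*} [DecidableEq β] (B : Finset β) (blk : β → Finset V)
    (hdisj : ∀ b ∈ B, ∀ c ∈ B, b ≠ c → Disjoint (blk b) (blk c))
    (f : β → (V → κ) → ℝ) (hf : ∀ b ∈ B, Dep (f b) (blk b)) :
    E (fun φ => ∏ b ∈ B, f b φ) = ∏ b ∈ B, E (f b) := by
  induction B using Finset.induction_on with
  | empty => simp [E_const]
  | insert a B ha ih =>
    simp only [prod_insert ha]
    have hdepP : Dep (fun φ => ∏ b ∈ B, f b φ) (B.biUnion blk) := by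
      intro φ ψ h
      refine prod_congr rfl (fun b hb => ?_)
      exact hf b (mem_insert_of_mem hb) φ ψ (fun v hv => h v (mem_biUnion.2 ⟨b, hb, hv⟩))
    rw [E_mul (hf a (mem_insert_self a B)) hdepP, ih]
    · intro b hb c hc hbc
      exact hdisj b (mem_insert_of_mem hb) c (mem_insert_of_mem hc) hbc
    · intro b hb
      exact hf b (mem_insert_of_mem hb)
    · rw [disjoint_biUnion_right]
      intro b hb
      exact hdisj a (mem_insert_self a B) b (mem_insert_of_mem hb) (by rintro rfl; exact ha hb)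

open Classical in
/-- Probability of an event. -/
noncomputable def P (A : (V → κ) → Prop) : ℝ := E (fun φ => if A φ then 1 else 0)

lemma P_nonneg (A : (V → κ) → Prop) : 0 ≤ P A := by
  classical
  exact E_nonneg (fun φ => by split_ifs <;> norm_num)

lemma P_mono {A B : (V → κ) → Prop} (h : ∀ φ, A φ → B φ) : P A ≤ P B := by
  classical
  refine E_mono (fun φ => ?_)
  by_cases hA : A φ
  · simp [hA, h φ hA]
  · simp only [hA, if_false]
    split_ifs <;> norm_num

lemma P_or (A B : (V → κ) → Prop) : P (fun φ => A φ ∨ B φ) ≤ P A + P B := by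
  classical
  unfold P
  rw [← E_add]
  refine E_mono (fun φ => ?_)
  by_cases hA : A φ <;> by_cases hB : B φ <;> simp [hA, hB]

lemma P_exists {ι : Type*} (s : Finset ι) (A : ι → (V → κ) → Prop) :
    P (fun φ => ∃ i ∈ s, A i φ) ≤ ∑ i ∈ s, P (A i) := by
  classical
  unfold P
  rw [← E_sum]
  refine E_mono (fun φ => ?_)
  by_cases h : ∃ i ∈ s, A i φ
  · obtain ⟨i, hi, hA⟩ := h
    have h0 : (1 : ℝ) = if A i φ then 1 else 0 := by simp [hA]
    have h1 : (if A i φ then (1:ℝ) else 0) ≤ ∑ j ∈ s, if A j φ then (1:ℝ) else 0 :=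
      single_le_sum (f := fun j => if A j φ then (1:ℝ) else 0)
        (fun j _ => by split_ifs <;> norm_num) hi
    refine le_trans (le_of_eq (if_pos ⟨i, hi, hA⟩)) ?_
    linarith
  · simp only [h, if_false]
    exact sum_nonneg (fun j _ => by split_ifs <;> norm_num)

/-- Markov inequality in exponential form. -/
lemma P_exp (F : (V → κ) → ℝ) (l s : ℝ) (hl : 0 ≤ l) :
    P (fun φ => s < F φ) ≤ Real.exp (- (l * s)) * E (fun φ => Real.exp (l * F φ)) := by
  classical
  rw [← E_mul_left]
  refine E_mono (fun φ => ?_)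
  by_cases h : s < F φ
  · simp only [h, if_true]
    rw [← Real.exp_add]
    apply Real.one_le_exp
    nlinarith
  · simp only [h, if_false]
    positivity

/-- A single coordinate is uniformly distributed. -/
lemma E_coord (v : V) (f : κ → ℝ) :
    E (fun φ : V → κ => f (φ v)) = (∑ a, f a) / (Fintype.card κ : ℝ) := by
  classical
  have hκ : (0:ℝ) < Fintype.card κ := by exact_mod_cast Fintype.card_pos
  have hpos := card_pos' (V := V) (κ := κ)
  unfold E
  rw [div_eq_div_iff hpos.ne' hκ.ne']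
  have h1 : ∑ φ : V → κ, f (φ v) = ∑ a : κ, ∑ _ψ : {w : V // w ≠ v} → κ, f a := by
    rw [← Fintype.sum_prod_type' (f := fun (a : κ) (_ : {w : V // w ≠ v} → κ) => f a)]
    refine Fintype.sum_equiv (Equiv.funSplitAt v κ) _ _ (fun φ => ?_)
    simp [Equiv.funSplitAt]
  rw [h1]
  have h2 : (Fintype.card (V → κ) : ℝ) = Fintype.card κ * Fintype.card ({w : V // w ≠ v} → κ) := by
    rw [Fintype.card_congr (Equiv.funSplitAt v κ), Fintype.card_prod]
    push_cast
    ring
  rw [h2]
  simp only [sum_const, card_univ, nsmul_eq_mul, ← mul_sum]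
  ring

end Pool.Agent.MP_678664_lc.TimeSpace.Pr
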