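import Pool.Agent.Lib.MP_678664_lc_h37.Conc

/-!
# The process: states, bad events
-/

namespace Pool.Agent.MP_678664_lc.TimeSpace

open Finset Pr

variable {k : ℕ} {B : Type} [Fintype B] [DecidableEq B]

/-- a set of fixed blocks and a population of tuples -/
abbrev State (k : ℕ) (B : Type) : Type := Finset (Fin k) × Finset (Fin k → B)

/-- one entry of the data: a memory set, a side, and possibly a tuple which selects a part -/
abbrev Datum (k : ℕ) (B : Type) : Type := (Finset (Fin k → B) × Bool) × Option (Fin k → B)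

/-- the population after the bisection step -/
def side (A : Finset (Fin k → B)) (d : Finset (Fin k → B) × Bool) : Finset (Fin k → B) :=
  if d.2 then A ∩ d.1 else A \ d.1

omit [Fintype B] in
theorem side_subset (A : Finset (Fin k → B)) (d : Finset (Fin k → B) × Bool) :
    side A d ⊆ A := by
  unfold side
  split_ifs
  · exact inter_subset_left
  · exact sdiff_subset

open Classical in
/-- the next state -/
noncomputable def nxt (θ : ℝ) (ω : Lab k B) (s : State k B) (d : Datum k B) : State k B :=
  match d.2 with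
  | none => (s.1, rest (side s.2 d.1) (fam θ s.1 (side s.2 d.1)))
  | some x =>
    if h : ∃ p ∈ fam θ s.1 (side s.2 d.1), x ∈ p.2 then
      (s.1 ∪ h.choose.1, h.choose.2.filter (GoodAt ω (s.1 ∪ h.choose.1)))
    else s

/-- the state after the data `l` (the last entry is the head of the list) -/
noncomputable def st (θ : ℝ) (ω : Lab k B) : List (Datum k B) → State k B
  | [] => (∅, univ)
  | d :: l => nxt θ ω (st θ ω l) d

theorem nxt_fst_subset (θ : ℝ) (ω : Lab k B) (s : State k B) (d : Datum k B) :
    s.1 ⊆ (nxt θ ω s d).1 := by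
  unfold nxt
  split
  · exact Subset.refl _
  · split_ifs
    · exact subset_union_left
    · exact Subset.refl _

theorem nxt_congr (θ : ℝ) {ω ω' : Lab k B} (s : State k B) (d : Datum k B)
    (h : Agree (nxt θ ω s d).1 ω ω') : nxt θ ω' s d = nxt θ ω s d := by
  classical
  unfold nxt at h ⊢
  obtain ⟨d1, d2⟩ := d
  cases d2 with
  | none => rfl
  | some x =>
    simp only at h ⊢
    by_cases hx : ∃ p ∈ fam θ s.1 (side s.2 d1), x ∈ p.2
    · rw [dif_pos hx] at h
      rw [dif_pos hx, dif_pos hx]
      congr 1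
      apply Finset.filter_congr
      intro y _
      exact h.goodAt y
    · rw [dif_neg hx, dif_neg hx]

theorem st_congr (θ : ℝ) {ω ω' : Lab k B} (l : List (Datum k B))
    (h : Agree (st θ ω l).1 ω ω') : st θ ω' l = st θ ω l := by
  induction l with
  | nil => rfl
  | cons d l ih =>
    have h1 : Agree (st θ ω l).1 ω ω' := h.mono (nxt_fst_subset θ ω _ d)
    rw [st, st, ih h1]
    exact nxt_congr θ _ d h

theorem st_good (θ : ℝ) (ω : Lab k B) (l : List (Datum k B)) :
    ∀ x ∈ (st θ ω l).2, GoodAt ω (st θ ω l).1 x := by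
  classical
  induction l with
  | nil => intro x _ i hi; simp [st] at hi
  | cons d l ih =>
    rw [st]
    unfold nxt
    obtain ⟨d1, d2⟩ := d
    cases d2 with
    | none =>
      simp only
      intro x hx
      apply ih
      exact side_subset _ _ ((sdiff_subset (α := Fin k → B)) hx)
    | some x =>
      simp only
      by_cases hx : ∃ p ∈ fam θ (st θ ω l).1 (side (st θ ω l).2 d1), x ∈ p.2
      · rw [dif_pos hx]
        intro y hy
        exact (mem_filter.1 hy).2
      · rw [dif_neg hx]
        exact ih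

theorem st_const {θ : ℝ} (hθ : 0 < θ) (ω : Lab k B) (l : List (Datum k B)) :
    ∀ x ∈ (st θ ω l).2, ∀ y ∈ (st θ ω l).2, ∀ i ∈ (st θ ω l).1, x i = y i := by
  classical
  induction l with
  | nil => intro x _ y _ i hi; simp [st] at hi
  | cons d l ih =>
    rw [st]
    unfold nxt
    obtain ⟨d1, d2⟩ := d
    cases d2 with
    | none =>
      simp only
      intro x hx y hy
      exact ih x (side_subset _ _ ((sdiff_subset (α := Fin k → B)) hx)) y
        (side_subset _ _ ((sdiff_subset (α := Fin k → B)) hy))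
    | some z =>
      simp only
      by_cases hz : ∃ p ∈ fam θ (st θ ω l).1 (side (st θ ω l).2 d1), z ∈ p.2
      · rw [dif_pos hz]
        have hp := (isFam_fam hθ (st θ ω l).1 (side (st θ ω l).2 d1)).part _ hz.choose_spec.1
        intro x hx y hy i hi
        have hx' := (mem_filter.1 hx).1
        have hy' := (mem_filter.1 hy).1
        rcases mem_union.1 hi with hi | hi
        · exact ih x (side_subset _ _ (hp.sub hx')) y (side_subset _ _ (hp.sub hy')) i hi
        · exact hp.const x hx' y hy' i hi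
      · rw [dif_neg hz]
        exact ih

/-- the bad event -/
structure Bad (θ lam : ℝ) (l : List (Datum k B)) (d : Finset (Fin k → B) × Bool)
    (I J T : Finset (Fin k)) (ω : Lab k B) : Prop where
  fst : (st θ ω l).1 = I
  dense : Dense θ (1 / cc k) I (st θ ω l).2
  half : ((st θ ω l).2.card : ℝ) ≤ 2 * (side (st θ ω l).2 d).card
  large : ((side (st θ ω l).2 d).card : ℝ) ≤
    lam * (cls θ I (side (st θ ω l).2 d) J).card
  ne : (cls θ I (side (st θ ω l).2 d) J).Nonempty
  few : ∃ W' : Finset (Fin k → B), (∀ y ∈ cls θ I (side (st θ ω l).2 d) J,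
    GoodOn ω (I ∪ J) T y → y ∈ W') ∧
    (W'.card : ℝ) < cc k * (cls θ I (side (st θ ω l).2 d) J).card

omit [DecidableEq B] in
theorem cls_subset [DecidableEq B] {θ : ℝ} (hθ : 0 < θ) (I : Finset (Fin k))
    (A : Finset (Fin k → B)) (J : Finset (Fin k)) : cls θ I A J ⊆ A := by
  intro x hx
  rw [cls, mem_biUnion] at hx
  obtain ⟨p, hp, hx⟩ := hx
  exact ((isFam_fam hθ I A).part p (mem_filter.1 hp).1).sub hx

theorem card_cls_filter_le {θ : ℝ} (hθ : 0 < θ) {I : Finset (Fin k)}
    {A : Finset (Fin k → B)} {J : Finset (Fin k)} {j : Fin k} (hjI : j ∉ I) (hjJ : j ∉ J)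
    (v : B) : (((cls θ I A J).filter fun y => y j = v).card : ℝ) ≤ θ * (cls θ I A J).card := by
  classical
  have hF := isFam_fam hθ I A
  have hd : ∀ p ∈ (fam θ I A).filter (fun p => p.1 = J),
      ∀ q ∈ (fam θ I A).filter (fun p => p.1 = J), p ≠ q → Disjoint p.2 q.2 := by
    intro p hp q hq hpq
    exact hF.disj p (mem_filter.1 hp).1 q (mem_filter.1 hq).1 hpq
  have h1 : ((cls θ I A J).card : ℝ) =
      ∑ p ∈ (fam θ I A).filter (fun p => p.1 = J), (p.2.card : ℝ) := by
    rw [cls, card_biUnion hd]
    push_cast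
    rfl
  have h2 : (((cls θ I A J).filter fun y => y j = v).card : ℝ) ≤
      ∑ p ∈ (fam θ I A).filter (fun p => p.1 = J), ((p.2.filter fun y => y j = v).card : ℝ) := by
    rw [cls, filter_biUnion]
    exact_mod_cast card_biUnion_le
  rw [h1, Finset.mul_sum]
  refine h2.trans (Finset.sum_le_sum ?_)
  intro p hp
  rw [mem_filter] at hp
  have h3 := (hF.part p hp.1).dense {j} (by
    rw [disjoint_singleton_left, hp.2]
    simp [hjI, hjJ]) (fun _ => v)
  rw [card_singleton, pow_one, one_mul] at h3
  refine le_trans (le_of_eq ?_) h3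
  congr 2
  ext y
  simp [cyl]

/-- bound on the fibres of a class -/
theorem fibre_le {θ lam : ℝ} (hθ : 0 < θ) (hlam : 1 ≤ lam) {I J : Finset (Fin k)}
    {Pp A : Finset (Fin k → B)} (hAP : A ⊆ Pp) (hdense : Dense θ (1 / cc k) I Pp)
    (hhalf : (Pp.card : ℝ) ≤ 2 * A.card)
    (hlarge : (A.card : ℝ) ≤ lam * (cls θ I A J).card) (j : Fin k) (hjI : j ∉ I) (v : B) :
    (((cls θ I A J).filter fun y => y j = v).card : ℝ) ≤
      2 / cc k * lam * θ * (cls θ I A J).card := by
  have hcc := cc_pos k
  have hWA : cls θ I A J ⊆ A := cls_subset hθ I A J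
  by_cases hjJ : j ∈ J
  · have h1 : (((cls θ I A J).filter fun y => y j = v).card : ℝ) ≤
        (cyl Pp {j} (fun _ => v)).card := by
      have : ((cls θ I A J).filter fun y => y j = v) ⊆ cyl Pp {j} (fun _ => v) := by
        intro y hy
        rw [mem_filter] at hy
        rw [mem_cyl]
        exact ⟨hAP (hWA hy.1), fun i hi => by rw [mem_singleton.1 hi]; exact hy.2⟩
      exact_mod_cast card_le_card this
    have h2 := hdense {j} (by simpa using hjI) (fun _ => v)
    rw [card_singleton, pow_one] at h2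
    calc (((cls θ I A J).filter fun y => y j = v).card : ℝ) ≤ 1 / cc k * θ * Pp.card :=
          h1.trans h2
      _ ≤ 1 / cc k * θ * (2 * (lam * (cls θ I A J).card)) := by
          apply mul_le_mul_of_nonneg_left _ (by positivity)
          exact hhalf.trans (mul_le_mul_of_nonneg_left hlarge (by norm_num))
      _ = 2 / cc k * lam * θ * (cls θ I A J).card := by ring
  · have h1 := card_cls_filter_le (A := A) hθ hjI hjJ v
    refine h1.trans ?_
    have h2 : 1 ≤ 2 / cc k * lam := by
      have h3 : 1 ≤ 2 / cc k := by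
        rw [le_div_iff₀ hcc]
        have := cc_le k
        linarith
      calc (1 : ℝ) = 1 * 1 := by ring
        _ ≤ 2 / cc k * lam := mul_le_mul h3 hlam (by norm_num) (by positivity)
    have h3 : 0 ≤ θ * ((cls θ I A J).card : ℝ) := by positivity
    calc θ * ((cls θ I A J).card : ℝ) = 1 * (θ * (cls θ I A J).card) := by ring
      _ ≤ (2 / cc k * lam) * (θ * (cls θ I A J).card) := mul_le_mul_of_nonneg_right h2 h3
      _ = _ := by ring

/-- few of the tuples of `W` become good -/
def Few (K T : Finset (Fin k)) (W : Finset (Fin k → B)) (ω : Lab k B) : Prop :=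
  ∃ W' : Finset (Fin k → B), (∀ y ∈ W, GoodOn ω K T y → y ∈ W') ∧
    (W'.card : ℝ) < cc k * W.card

/-- the shifts can make every tuple good, which is good at `I` -/
def CanGood (I J T : Finset (Fin k)) (κ : Fin k → Fin k) (ω : Lab k B) : Prop :=
  ∀ y : Fin k → B, GoodAt ω I y → ∃ a : Fin k → (Fin k → ZMod 2), ∀ r : Lab k B,
    (∀ j, r (j, y j) = a j) → GoodOn (ω + shift I κ r) (I ∪ J) T y

theorem few_prob (hk : 0 < k) {I J T : Finset (Fin k)} {κ : Fin k → Fin k}
    (ω : Lab k B) (hT : CanGood I J T κ ω) (W : Finset (Fin k → B))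
    (hW : ∀ y ∈ W, GoodAt ω I y) (hWne : W.Nonempty) {x : ℝ} (hx : 0 < x)
    (hM : ∀ j ∉ I, ∀ v, ((W.filter fun y => y j = v).card : ℝ) ≤ x * W.card) :
    P (fun r : Lab k B => Few (I ∪ J) T W (ω + shift I κ r)) ≤
      2 * Real.exp (-(cc k ^ 2 / (4 * (k * x)))) := by
  classical
  have hWpos : (0 : ℝ) < W.card := by exact_mod_cast card_pos.2 hWne
  have hconc := conc hk (I := I) (κ := κ) (fun ω y => GoodOn ω (I ∪ J) T y)
    (fun ω₁ ω₂ y h => goodOn_congr h) ω W (fun y hy => hT y (hW y hy)) hWne
    (M := x * W.card) (by positivity) hM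
    (fun r => ((W.filter fun y => GoodOn (ω + shift I κ r) (I ∪ J) T y).card : ℝ))
    (fun r => ⟨W.filter fun y => GoodOn (ω + shift I κ r) (I ∪ J) T y, filter_subset _ _,
      fun y hy hg => mem_filter.2 ⟨hy, hg⟩, le_refl _⟩)
  refine le_trans (P_mono ?_) (hconc.trans (le_of_eq ?_))
  · intro r hr
    obtain ⟨W', h1, h2⟩ := hr
    refine lt_of_le_of_lt ?_ h2
    have h3 : (W.filter fun y => GoodOn (ω + shift I κ r) (I ∪ J) T y) ⊆ W' := by
      intro y hy
      rw [mem_filter] at hy
      exact h1 y hy.1 hy.2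
    exact Nat.cast_le.2 (card_le_card h3)
  · congr 2
    rw [neg_inj]
    have hkR : (0 : ℝ) < k := by exact_mod_cast hk
    field_simp

/-- the probability of a bad event under random shifts -/
theorem bad_prob (hk : 0 < k) {θ lam : ℝ} (hθ : 0 < θ) (hlam : 1 ≤ lam)
    (l : List (Datum k B)) (d : Finset (Fin k → B) × Bool) {I J T : Finset (Fin k)}
    {κ : Fin k → Fin k} (ω : Lab k B) (hT : CanGood I J T κ ω) :
    P (fun r : Lab k B => Bad θ lam l d I J T (ω + shift I κ r)) ≤
      2 * Real.exp (-(cc k ^ 3 / (8 * k * lam * θ))) := by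
  classical
  by_cases hex : ∃ r, Bad θ lam l d I J T (ω + shift I κ r)
  swap
  · push Not at hex
    have : P (fun r : Lab k B => Bad θ lam l d I J T (ω + shift I κ r)) = 0 := by
      unfold P
      rw [show (fun r : Lab k B => if Bad θ lam l d I J T (ω + shift I κ r) then (1 : ℝ) else 0) =
        fun _ => 0 from funext fun r => if_neg (hex r), E_const]
    rw [this]
    positivity
  obtain ⟨r₀, h₀⟩ := hex
  -- the state is the same for all shifts
  have hst : ∀ r, st θ (ω + shift I κ r) l = st θ (ω + shift I κ r₀) l := by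
    intro r
    apply st_congr
    rw [h₀.fst]
    exact shift_agree I κ ω r₀ r
  have hgoodW : ∀ y ∈ (st θ (ω + shift I κ r₀) l).2, GoodAt ω I y := by
    intro y hy
    have h1 := st_good θ (ω + shift I κ r₀) l y hy
    rw [h₀.fst] at h1
    exact ((shift_agree' I κ ω r₀).goodAt y).1 h1
  have hmono : ∀ r, Bad θ lam l d I J T (ω + shift I κ r) →
      Few (I ∪ J) T (cls θ I (side (st θ (ω + shift I κ r₀) l).2 d) J) (ω + shift I κ r) := by
    intro r hr
    have h1 := hr.few
    rw [hst r] at h1
    exact h1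
  have hdense := h₀.dense
  have hhalf := h₀.half
  have hlarge := h₀.large
  have hne := h₀.ne
  clear h₀
  generalize (st θ (ω + shift I κ r₀) l).2 = Pp at hgoodW hmono hdense hhalf hlarge hne
  clear hst
  have hcc := cc_pos k
  have hlam0 : 0 < lam := lt_of_lt_of_le one_pos hlam
  have hkR : (0 : ℝ) < k := by exact_mod_cast hk
  have hfib := fibre_le hθ hlam (side_subset Pp d) hdense hhalf hlarge
  have hfew := few_prob hk ω hT (cls θ I (side Pp d) J)
    (fun y hy => hgoodW y (side_subset _ _ (cls_subset hθ _ _ _ hy))) hne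
    (x := 2 / cc k * lam * θ) (by positivity) hfib
  refine (P_mono hmono).trans (hfew.trans (le_of_eq ?_))
  congr 2
  rw [neg_inj]
  field_simp
  ring

end Pool.Agent.MP_678664_lc.TimeSpace
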