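import Pool.Agent.Lib.MP_678664_lc_h37.State

/-!
# The union bound
-/

namespace Pool.Agent.MP_678664_lc.TimeSpace

open Finset Pr

variable {k : ℕ} {B : Type} [Fintype B] [DecidableEq B]

/-- the two kinds of events: at most `k - 2` blocks are fixed and the edges at these blocks
are asked for, or exactly `k - 1` blocks are fixed and only the edges between them are asked for -/
def Adm (I J T : Finset (Fin k)) : Prop :=
  ((I ∪ J).card + 2 ≤ k ∧ T = univ) ∨
    ((I ∪ J).card + 1 = k ∧ J.Nonempty ∧ Disjoint J I ∧ T = I ∪ J)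

omit [Fintype B] [DecidableEq B] in
/-- the auxiliary blocks -/
theorem exists_kappa {I J T : Finset (Fin k)} (h : Adm I J T) :
    ∃ κ : Fin k → Fin k, (∀ j, κ j ∉ I) ∧ (∀ j, κ j ≠ j) ∧
      ∀ ω : Lab k B, CanGood I J T κ ω := by
  classical
  rcases h with ⟨hIJ, rfl⟩ | ⟨hIJ, ⟨j₀, hj₀⟩, hdis, rfl⟩
  · have hκ : ∀ j : Fin k, ∃ i : Fin k, i ∉ I ∪ J ∧ i ≠ j := by
      intro j
      by_contra hcon
      push Not at hcon
      have h1 : (univ : Finset (Fin k)) ⊆ insert j (I ∪ J) := by
        intro i _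
        by_cases hi : i ∈ I ∪ J
        · exact mem_insert_of_mem hi
        · rw [hcon i hi]; exact mem_insert_self _ _
      have h2 := card_le_card h1
      have h3 := card_insert_le j (I ∪ J)
      rw [card_univ, Fintype.card_fin] at h2
      omega
    choose κ hκ1 hκ2 using hκ
    refine ⟨κ, fun j h => hκ1 j (mem_union_left _ h), hκ2, ?_⟩
    intro ω y hy
    obtain ⟨a, ha⟩ := exists_good (I := I) (J := J) (κ := κ)
      (fun j h => hκ1 j (mem_union_right _ h)) ω y hy
    exact ⟨a, fun r hr => goodOn_univ.2 (ha r hr)⟩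
  · have hex : ∃ i₀ : Fin k, i₀ ∉ I ∪ J := by
      by_contra hcon
      push Not at hcon
      have h1 : (univ : Finset (Fin k)) ⊆ I ∪ J := fun i _ => hcon i
      have h2 := card_le_card h1
      rw [card_univ, Fintype.card_fin] at h2
      omega
    obtain ⟨i₀, hi₀⟩ := hex
    have hi₀I : i₀ ∉ I := fun h => hi₀ (mem_union_left _ h)
    have hi₀J : i₀ ∉ J := fun h => hi₀ (mem_union_right _ h)
    have hj₀I : j₀ ∉ I := disjoint_left.1 hdis hj₀
    have hne : i₀ ≠ j₀ := fun h => hi₀J (h ▸ hj₀)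
    refine ⟨fun j => if j = i₀ then j₀ else i₀, ?_, ?_, ?_⟩
    · intro j
      by_cases h : j = i₀
      · simp only [h, if_true]; exact hj₀I
      · simp only [h, if_false]; exact hi₀I
    · intro j
      by_cases h : j = i₀
      · simp only [h, if_true]; exact hne.symm
      · simp only [h, if_false]; exact fun h' => h h'.symm
    · intro ω y hy
      apply exists_inner _ ω y hy
      intro j hj
      have h : j ≠ i₀ := fun h => hi₀J (h ▸ hj)
      simp only [h, if_false]
      exact hi₀J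

/-- `ω` avoids all bad events with data in `𝒬` -/
def Nice (θ lam : ℝ) (K₀ : ℕ) (𝒬 : Finset (Finset (Fin k → B))) (ω : Lab k B) : Prop :=
  ∀ l : List (Datum k B), l.length ≤ K₀ → (∀ e ∈ l, e.1.1 ∈ 𝒬) →
    ∀ d : Finset (Fin k → B) × Bool, d.1 ∈ 𝒬 → ∀ I J T : Finset (Fin k), Adm I J T →
      ¬ Bad θ lam l d I J T ω

open Classical in
/-- the valid labelings -/
noncomputable def valids (k : ℕ) (B : Type) [Fintype B] [DecidableEq B] : Finset (Lab k B) :=
  univ.filter Valid

theorem mem_valids {ω : Lab k B} : ω ∈ valids k B ↔ Valid ω := by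
  classical
  simp [valids]

/-- there is a valid labeling -/
theorem valids_nonempty (hk : 2 ≤ k) : (valids k B).Nonempty := by
  classical
  refine ⟨fun p i => if (p.1 : ℕ) = 0 ∧ (i : ℕ) = 1 then 1 else 0, ?_⟩
  rw [mem_valids]
  intro j v
  constructor
  · simp only
    rw [if_neg]
    omega
  · simp only
    by_cases hj : (j : ℕ) = 0
    · rw [if_pos hj, Finset.sum_eq_single (⟨1, by omega⟩ : Fin k)]
      · simp [hj]
      · intro i _ hi
        rw [if_neg]
        rintro ⟨-, h⟩
        exact hi (Fin.ext h)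
      · simp
    · rw [if_neg hj]
      apply Finset.sum_eq_zero
      intro i _
      rw [if_neg]
      tauto

/-- averaging over the shifts -/
theorem card_bad_le (hk : 2 ≤ k) {θ lam : ℝ} (hθ : 0 < θ) (hlam : 1 ≤ lam)
    (l : List (Datum k B)) (d : Finset (Fin k → B) × Bool) {I J T : Finset (Fin k)}
    (hIJ : Adm I J T) (F : Finset (Lab k B))
    (hF : ∀ ω ∈ F, Valid ω ∧ Bad θ lam l d I J T ω) :
    (F.card : ℝ) ≤ (valids k B).card * (2 * Real.exp (-(cc k ^ 3 / (8 * k * lam * θ)))) := by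
  classical
  obtain ⟨κ, hκI, hκ2, hcan⟩ := exists_kappa (B := B) hIJ
  have hprob := fun ω : Lab k B => bad_prob (by omega : 0 < k) hθ hlam l d ω (hcan ω)
  -- for every `r`, the number of bad valid labelings is the number of those which become bad
  have h1 : ∀ r : Lab k B, (F.card : ℝ) ≤
      ∑ ω ∈ valids k B, if Bad θ lam l d I J T (ω + shift I κ r) then (1 : ℝ) else 0 := by
    intro r
    rw [Finset.sum_boole]
    refine Nat.cast_le.2 ?_
    refine Finset.card_le_card_of_injOn (fun ω => ω - shift I κ r) ?_ ?_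
    · intro ω hω
      obtain ⟨hv, hb⟩ := hF ω hω
      rw [mem_coe, mem_filter, mem_valids, sub_add_cancel]
      refine ⟨?_, hb⟩
      have := valid_shift hκI hκ2 (ω - shift I κ r) r
      rw [sub_add_cancel] at this
      exact this.1 hv
    · intro ω _ ω' _ h
      exact sub_left_injective h
  have h2 : (F.card : ℝ) ≤ E (fun r : Lab k B =>
      ∑ ω ∈ valids k B, if Bad θ lam l d I J T (ω + shift I κ r) then (1 : ℝ) else 0) := by
    calc (F.card : ℝ) = E (fun _ : Lab k B => (F.card : ℝ)) := (E_const _).symm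
      _ ≤ _ := E_mono h1
  rw [E_sum] at h2
  refine h2.trans ?_
  rw [← nsmul_eq_mul, ← Finset.sum_const]
  apply Finset.sum_le_sum
  intro ω _
  exact hprob ω

/-- all lists of length `t` with entries in `D` -/
def lists {α : Type*} [DecidableEq α] (D : Finset α) : ℕ → Finset (List α)
  | 0 => {[]}
  | t + 1 => (D ×ˢ lists D t).image fun p => p.1 :: p.2

theorem card_lists {α : Type*} [DecidableEq α] (D : Finset α) (t : ℕ) :
    (lists D t).card ≤ D.card ^ t := by
  induction t with
  | zero => simp [lists]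
  | succ t ih =>
    rw [lists]
    refine card_image_le.trans ?_
    rw [card_product, pow_succ, mul_comm]
    exact Nat.mul_le_mul_right _ ih

theorem mem_lists {α : Type*} [DecidableEq α] (D : Finset α) (l : List α)
    (h : ∀ e ∈ l, e ∈ D) : l ∈ lists D l.length := by
  induction l with
  | nil => simp [lists]
  | cons e l ih =>
    rw [List.length_cons, lists, mem_image]
    refine ⟨(e, l), ?_, rfl⟩
    rw [mem_product]
    exact ⟨h e List.mem_cons_self, ih fun x hx => h x (List.mem_cons_of_mem _ hx)⟩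

/-- the number of valid labelings which are not nice -/
theorem card_not_nice_le (hk : 2 ≤ k) {θ lam : ℝ} (hθ : 0 < θ) (hlam : 1 ≤ lam) (K₀ : ℕ)
    (𝒬 : Finset (Finset (Fin k → B))) (F : Finset (Lab k B))
    (hF : ∀ ω ∈ F, Valid ω ∧ ¬ Nice θ lam K₀ 𝒬 ω) :
    (F.card : ℝ) ≤ ((K₀ + 1) * (2 * 𝒬.card * (Fintype.card B ^ k + 1)) ^ (K₀ + 1) * 8 ^ k : ℕ) *
      ((valids k B).card * (2 * Real.exp (-(cc k ^ 3 / (8 * k * lam * θ))))) := by
  classical
  -- the data
  set D : Finset (Datum k B) := (𝒬 ×ˢ univ) ×ˢ univ with hD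
  have hDcard : D.card = 2 * 𝒬.card * (Fintype.card B ^ k + 1) := by
    rw [hD, card_product, card_product, card_univ, card_univ, Fintype.card_option,
      Fintype.card_fun, Fintype.card_fin, Fintype.card_bool]
    ring
  set T := (((range (K₀ + 1)).biUnion fun t => lists D t) ×ˢ (𝒬 ×ˢ (univ : Finset Bool))) ×ˢ
    ((univ : Finset (Finset (Fin k))) ×ˢ ((univ : Finset (Finset (Fin k))) ×ˢ
      (univ : Finset (Finset (Fin k))))) with hT
  have hsub : F ⊆ T.biUnion fun q => F.filter fun ω =>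
      Adm q.2.1 q.2.2.1 q.2.2.2 ∧ Bad θ lam q.1.1 q.1.2 q.2.1 q.2.2.1 q.2.2.2 ω := by
    intro ω hω
    obtain ⟨-, hn⟩ := hF ω hω
    unfold Nice at hn
    push Not at hn
    obtain ⟨l, hl, hlQ, d, hd, I, J, T', hIJ, hbad⟩ := hn
    rw [mem_biUnion]
    refine ⟨((l, d), (I, J, T')), ?_, ?_⟩
    · rw [hT]
      simp only [mem_product, mem_biUnion, mem_univ, and_true, mem_range]
      refine ⟨⟨l.length, by omega, mem_lists D l ?_⟩, hd⟩
      intro e he
      rw [hD]
      simp only [mem_product, mem_univ, and_true]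
      exact hlQ e he
    · rw [mem_filter]
      exact ⟨hω, hIJ, hbad⟩
  have hTcard : T.card ≤ (K₀ + 1) * (2 * 𝒬.card * (Fintype.card B ^ k + 1)) ^ (K₀ + 1) * 8 ^ k := by
    rcases Nat.eq_zero_or_pos 𝒬.card with h0 | h0
    · rw [hT, card_product, card_product (s := _ ), card_product (s := 𝒬), h0]
      simp
    have hDpos : 1 ≤ D.card := by
      rw [hDcard]
      exact Nat.mul_pos (Nat.mul_pos two_pos h0) (Nat.succ_pos _)
    rw [hT, card_product, card_product, card_product (s := 𝒬), card_product, card_product,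
      card_univ, card_univ, Fintype.card_finset, Fintype.card_fin, Fintype.card_bool, ← hDcard]
    have h1 : ((range (K₀ + 1)).biUnion fun t => lists D t).card ≤ (K₀ + 1) * D.card ^ K₀ := by
      refine card_biUnion_le.trans ?_
      refine (Finset.sum_le_card_nsmul _ _ (D.card ^ K₀) ?_).trans ?_
      · intro t ht
        rw [mem_range] at ht
        exact (card_lists D t).trans (Nat.pow_le_pow_right hDpos (by omega))
      · rw [card_range, smul_eq_mul]
    have h2 : 𝒬.card * 2 ≤ D.card := by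
      rw [hDcard]
      calc 𝒬.card * 2 = 2 * 𝒬.card * 1 := by ring
        _ ≤ 2 * 𝒬.card * (Fintype.card B ^ k + 1) := Nat.mul_le_mul_left _ (by omega)
    have h3 : (2 : ℕ) ^ k * (2 ^ k * 2 ^ k) = 8 ^ k := by rw [← mul_pow, ← mul_pow]; norm_num
    rw [h3]
    apply Nat.mul_le_mul_right
    calc _ ≤ ((K₀ + 1) * D.card ^ K₀) * D.card := Nat.mul_le_mul h1 h2
      _ = _ := by ring
  have hnn : (0 : ℝ) ≤ (valids k B).card * (2 * Real.exp (-(cc k ^ 3 / (8 * k * lam * θ)))) := by
    positivity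
  calc (F.card : ℝ) ≤ ((T.biUnion fun q => F.filter fun ω =>
          Adm q.2.1 q.2.2.1 q.2.2.2 ∧ Bad θ lam q.1.1 q.1.2 q.2.1 q.2.2.1 q.2.2.2 ω).card : ℝ) :=
        Nat.cast_le.2 (card_le_card hsub)
    _ ≤ ∑ q ∈ T, ((F.filter fun ω =>
          Adm q.2.1 q.2.2.1 q.2.2.2 ∧ Bad θ lam q.1.1 q.1.2 q.2.1 q.2.2.1 q.2.2.2 ω).card : ℝ) := by
        exact_mod_cast card_biUnion_le
    _ ≤ ∑ _q ∈ T, ((valids k B).card * (2 * Real.exp (-(cc k ^ 3 / (8 * k * lam * θ)))) : ℝ) := by
        apply Finset.sum_le_sum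
        intro q _
        by_cases hq : Adm q.2.1 q.2.2.1 q.2.2.2
        · apply card_bad_le hk hθ hlam q.1.1 q.1.2 hq
          intro ω hω
          rw [mem_filter] at hω
          exact ⟨(hF ω hω.1).1, hω.2.2⟩
        · rw [Finset.filter_false_of_mem (fun ω _ h => hq h.1)]
          simpa using hnn
    _ = T.card * ((valids k B).card * (2 * Real.exp (-(cc k ^ 3 / (8 * k * lam * θ))))) := by
        rw [Finset.sum_const, nsmul_eq_mul]
    _ ≤ _ := mul_le_mul_of_nonneg_right (Nat.cast_le.2 hTcard) hnn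

/-- the union bound over all memory sizes -/
theorem exists_nice (hk : 2 ≤ k) (n K₀ : ℕ) (θ lam : ℕ → ℝ) (hθ : ∀ s, 0 < θ s)
    (hlam : ∀ s, 1 ≤ lam s) (𝒬 : ℕ → Finset (Finset (Fin k → B)))
    (hnum : ∀ s, 1 ≤ s → s ≤ n →
      (((K₀ + 1) * (2 * (𝒬 s).card * (Fintype.card B ^ k + 1)) ^ (K₀ + 1) * 8 ^ k : ℕ) : ℝ) *
      (2 * Real.exp (-(cc k ^ 3 / (8 * k * lam s * θ s)))) ≤ (1 / 2) ^ (s + 1)) :
    ∃ ω : Lab k B, Valid ω ∧ ∀ s, 1 ≤ s → s ≤ n → Nice (θ s) (lam s) K₀ (𝒬 s) ω := by
  classical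
  by_contra hcon
  push Not at hcon
  have hsub : valids k B ⊆ (range n).biUnion fun s => (valids k B).filter fun ω =>
      ¬ Nice (θ (s + 1)) (lam (s + 1)) K₀ (𝒬 (s + 1)) ω := by
    intro ω hω
    obtain ⟨s, h1, h2, h3⟩ := hcon ω (mem_valids.1 hω)
    rw [mem_biUnion]
    refine ⟨s - 1, mem_range.2 (by omega), ?_⟩
    rw [mem_filter, Nat.sub_add_cancel h1]
    exact ⟨hω, h3⟩
  have hV : (0 : ℝ) < (valids k B).card := by
    exact_mod_cast card_pos.2 (valids_nonempty hk)
  have h1 : ((valids k B).card : ℝ) ≤ ∑ s ∈ range n, (valids k B).card * (1 / 2 : ℝ) ^ (s + 2) := by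
    calc ((valids k B).card : ℝ) ≤ (((range n).biUnion fun s => (valids k B).filter fun ω =>
          ¬ Nice (θ (s + 1)) (lam (s + 1)) K₀ (𝒬 (s + 1)) ω).card : ℝ) :=
          Nat.cast_le.2 (card_le_card hsub)
      _ ≤ ∑ s ∈ range n, (((valids k B).filter fun ω =>
          ¬ Nice (θ (s + 1)) (lam (s + 1)) K₀ (𝒬 (s + 1)) ω).card : ℝ) := by
          exact_mod_cast card_biUnion_le
      _ ≤ _ := by
          apply Finset.sum_le_sum
          intro s hs
          rw [mem_range] at hs
          have h2 := card_not_nice_le hk (hθ (s + 1)) (hlam (s + 1)) K₀ (𝒬 (s + 1))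
            ((valids k B).filter fun ω => ¬ Nice (θ (s + 1)) (lam (s + 1)) K₀ (𝒬 (s + 1)) ω)
            (fun ω hω => by
              rw [mem_filter] at hω
              exact ⟨mem_valids.1 hω.1, hω.2⟩)
          have h3 := hnum (s + 1) (by omega) (by omega)
          refine h2.trans ?_
          calc _ = ((valids k B).card : ℝ) * ((((K₀ + 1) * (2 * (𝒬 (s + 1)).card *
                (Fintype.card B ^ k + 1)) ^ (K₀ + 1) * 8 ^ k : ℕ) : ℝ) *
                (2 * Real.exp (-(cc k ^ 3 / (8 * k * lam (s + 1) * θ (s + 1)))))) := by ring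
            _ ≤ _ := mul_le_mul_of_nonneg_left h3 hV.le
  rw [← Finset.mul_sum] at h1
  have h2 : ∑ s ∈ range n, (1 / 2 : ℝ) ^ (s + 2) < 1 := by
    have h3 : ∀ m : ℕ, ∑ s ∈ range m, (1 / 2 : ℝ) ^ (s + 2) = 1 / 2 - (1 / 2) ^ (m + 1) := by
      intro m
      induction m with
      | zero => norm_num
      | succ m ih => rw [Finset.sum_range_succ, ih]; ring
    rw [h3]
    have : (0 : ℝ) < (1 / 2) ^ (n + 1) := by positivity
    linarith
  nlinarith

end Pool.Agent.MP_678664_lc.TimeSpace
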